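import Pool.Agent.CG.K.Quasi
import Pool.Agent.CG.J.Arz
import Pool.Agent.CG.C.Hol
import Pool.Agent.CG.B.Poin

/-!
# CG-K-Blow: compactness of the blow-ups (uniform convergence)

PLAN.  Fix `n`; `V n = F n - v n`, `∫_{B 0 1} ‖V n‖² = ε n ^ 2 * |B 0 1|`.  `HW.poincare` (`R = 1`, for `u n - affine`, gradient `V n`) gives a
constant `κ n` with `∫_{B 0 (1/4)} (u n - affine - κ n)² ≤ C ε n ^ 2`.  `quasi` and `dg_holder` on `B 0 (1/4)` (`R = 1/4`): a function `g n` equal to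
`u n - affine - κ n` a.e. on `B 0 (1/8)`, `|g n|² ≤ C ε n²` and `|g n y - g n z|² ≤ C (4 di y z) ^ (2 α) ε n²` there.
`w n = ε n⁻¹ * g n` is bounded by `C'` and `C'`-Hölder of exponent `α` on `B 0 (1/8)`, constants independent of `n`; `mcshane` (`B/McS`)
extends it to a global Hölder function `w n` (equal on `B 0 (1/8)`), uniformly locally bounded.  `arzela` (the Euclidean metric on `Pt N`;
equicontinuity from `G.di` continuous: `G.di_le_norm` on compact sets) gives a subsequence converging uniformly on the compact set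
`{y | G.di 0 y ≤ 1/8}` to a continuous `w'`.
-/

set_option autoImplicit false

namespace Pool.Agent.CG.K

open MeasureTheory Set Filter Topology
open scoped ContDiff ENNReal

variable {N m : ℕ}

/-- one blow-up -/
private theorem blow_one (G : Carnot N m) {a b L : ℝ} (ha0 : 0 ≤ a) (ha : a < 1) (hb : 0 ≤ b)
    (hL : 1 ≤ L) {c0 : ℝ} (hc0 : 0 < c0) : ∃ α : ℝ, 0 < α ∧ α < 1 ∧ ∃ M : ℝ, 0 ≤ M ∧
    ∀ (A : Hv m → Hv m), Nrm a b L A → ∀ (u : Pt N → ℝ) (F : Pt N → Hv m),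
    Sol G 2 (G.B 0 1) A u F → (∀ᵐ y, y ∈ G.B 0 1 → ‖F y‖ ≤ 1) → ∀ v : Hv m, c0 ≤ ‖v‖ → ‖v‖ ≤ 2 →
    ∀ ε : ℝ, 0 < ε → av G 0 1 (fun y => ‖F y - v‖ ^ 2) = ε ^ 2 →
    ∃ (κ : ℝ) (w : Pt N → ℝ), |w 0| ≤ M ∧ (∀ y z, |w y - w z| ≤ M * G.di y z ^ α) ∧
      (∀ᵐ y, y ∈ G.B 0 (1 / 8) → w y = ε⁻¹ * (u y - (∑ k, v k * y (G.hor k)) - κ)) ∧
      HW G 2 (G.B 0 (1 / 8)) w (fun y => ε⁻¹ • (F y - v)) := by
  obtain ⟨C1, hC1, hQ⟩ := quasi G ha0 ha hb hL hc0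
  obtain ⟨α, hα0, hα1, C2, hC2, hH⟩ := dg_holder G C1
  obtain ⟨C3, hC3, hP⟩ := HW.poincare G
  set Bv : ℝ := volume.real (G.B 0 1) with hBv
  have hBvp : 0 < Bv := volr_B_pos G 0 one_pos
  set T : ℝ := C2 * ((1 / 4 : ℝ)⁻¹ ^ G.Q * (C3 * Bv)) with hT
  have hT0 : 0 ≤ T := by positivity
  have h4 : (1 : ℝ) ≤ 4 ^ α := Real.one_le_rpow (by norm_num) hα0.le
  refine ⟨α, hα0, hα1, Real.sqrt T * 4 ^ α, by positivity, ?_⟩
  intro A hA u F hS hF v hv hv2 ε hε hE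
  -- the energy
  have hint := intOn_sq G hS.toHW.lqg hF v
  have hen : ∫ y in G.B 0 1, ‖F y - v‖ ^ 2 = Bv * ε ^ 2 := by
    unfold av at hE
    rw [← hE, ← mul_assoc, mul_inv_cancel₀ hBvp.ne', one_mul]
  have hU : HW G 2 (G.B 0 1) (fun y => u y - ∑ k, v k * y (G.hor k)) (fun y => F y - v) :=
    hS.toHW.sub (by norm_num) (HW.linear v)
  obtain ⟨κ, hκ1, hκ2⟩ := hP 0 1 one_pos _ _ hU hint
  rw [hen] at hκ2
  have hsub : G.B (0 : Pt N) (1 / 4) ⊆ G.B 0 1 := B_mono G (by norm_num)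
  have hS4 : Sol G 2 (G.B 0 (1 / 4)) A u F :=
    ⟨hS.toHW.mono hsub, fun φ hφ => hS.eqn φ ⟨hφ.smooth, hφ.cpt, hφ.sub.trans hsub⟩⟩
  have hF4 : ∀ᵐ y, y ∈ G.B (0 : Pt N) (1 / 4) → ‖F y‖ ≤ 1 := by
    filter_upwards [hF] with y hy hy4
    exact hy (hsub hy4)
  have hdg := fun k0 : ℝ => hQ A hA (G.B 0 (1 / 4)) (G.isOpen_B _ _) u F hS4 hF4 v hv hv2 κ k0
  obtain ⟨v', hae, hb1, hb2⟩ := hH 0 (1 / 4) (by norm_num) _ _ (fun k0 => (hdg k0).1)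
    (fun k0 => (hdg k0).2) hκ1
  have e8 : (1 / 4 / 2 : ℝ) = 1 / 8 := by norm_num
  rw [e8] at hae hb1 hb2
  set I : ℝ := ∫ z in G.B (0 : Pt N) (1 / 4), (u z - (∑ k, v k * z (G.hor k)) - κ) ^ 2 with hI
  have hIle : I ≤ C3 * Bv * ε ^ 2 := by
    have : C3 * 1 ^ 2 * (Bv * ε ^ 2) = C3 * Bv * ε ^ 2 := by ring
    rw [← this]
    exact hκ2
  have hTI : C2 * ((1 / 4 : ℝ)⁻¹ ^ G.Q * I) ≤ T * ε ^ 2 := by
    rw [hT]
    have h1 : C2 * ((1 / 4 : ℝ)⁻¹ ^ G.Q * I) ≤ C2 * ((1 / 4 : ℝ)⁻¹ ^ G.Q * (C3 * Bv * ε ^ 2)) := by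
      gcongr
    refine h1.trans (le_of_eq ?_)
    ring
  have hεi : 0 < ε⁻¹ := inv_pos.2 hε
  -- bound
  have hw1 : ∀ y ∈ G.B (0 : Pt N) (1 / 8), |ε⁻¹ * v' y| ≤ Real.sqrt T := by
    intro y hy
    refine Real.abs_le_sqrt ?_
    have h1 := (hb1 y hy).trans hTI
    have h2 : (ε⁻¹ * v' y) ^ 2 = v' y ^ 2 * (ε⁻¹) ^ 2 := by ring
    rw [h2]
    calc v' y ^ 2 * (ε⁻¹) ^ 2 ≤ T * ε ^ 2 * (ε⁻¹) ^ 2 :=
          mul_le_mul_of_nonneg_right h1 (by positivity)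
      _ = T := by field_simp
  have hw2 : ∀ y ∈ G.B (0 : Pt N) (1 / 8), ∀ z ∈ G.B (0 : Pt N) (1 / 8),
      |ε⁻¹ * v' y - ε⁻¹ * v' z| ≤ Real.sqrt T * 4 ^ α * G.di y z ^ α := by
    intro y hy z hz
    have hd := G.di_nonneg y z
    have h1 := hb2 y hy z hz
    have h3 : (G.di y z / (1 / 4)) ^ (2 * α) = ((4 : ℝ) ^ α * G.di y z ^ α) ^ 2 := by
      rw [← Real.mul_rpow (by norm_num) hd, ← Real.rpow_natCast, ← Real.rpow_mul (by positivity)]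
      congr 1
      · ring
      · push_cast
        ring
    rw [h3] at h1
    have h5 : |v' y - v' z| ^ 2 ≤ T * ε ^ 2 * ((4 : ℝ) ^ α * G.di y z ^ α) ^ 2 := by
      refine h1.trans ?_
      have h6 : C2 * ((4 : ℝ) ^ α * G.di y z ^ α) ^ 2 * ((1 / 4 : ℝ)⁻¹ ^ G.Q * I) =
          C2 * ((1 / 4 : ℝ)⁻¹ ^ G.Q * I) * ((4 : ℝ) ^ α * G.di y z ^ α) ^ 2 := by ring
      rw [h6]
      exact mul_le_mul_of_nonneg_right hTI (by positivity)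
    have h7 : |ε⁻¹ * v' y - ε⁻¹ * v' z| = ε⁻¹ * |v' y - v' z| := by
      rw [← mul_sub, abs_mul, abs_of_pos hεi]
    have h8 : Real.sqrt T * 4 ^ α * G.di y z ^ α = Real.sqrt T * (4 ^ α * G.di y z ^ α) := by ring
    rw [h7, h8]
    refine le_of_sq_le_sq ?_ (by positivity)
    rw [mul_pow, mul_pow (Real.sqrt T), Real.sq_sqrt hT0]
    calc ε⁻¹ ^ 2 * |v' y - v' z| ^ 2
        ≤ ε⁻¹ ^ 2 * (T * ε ^ 2 * ((4 : ℝ) ^ α * G.di y z ^ α) ^ 2) :=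
          mul_le_mul_of_nonneg_left h5 (by positivity)
      _ = T * ((4 : ℝ) ^ α * G.di y z ^ α) ^ 2 := by field_simp
  obtain ⟨w, hw, hwh⟩ := mcshane G (S := G.B (0 : Pt N) (1 / 8)) (f := fun y => ε⁻¹ * v' y)
    (M := Real.sqrt T * 4 ^ α) (by positivity) hα0 hα1.le hw2
  have haeq : ∀ᵐ y, y ∈ G.B (0 : Pt N) (1 / 8) →
      w y = ε⁻¹ * (u y - (∑ k, v k * y (G.hor k)) - κ) := by
    filter_upwards [hae] with y hy hyB
    rw [hw y hyB]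
    show ε⁻¹ * v' y = _
    rw [← hy hyB]
  refine ⟨κ, w, ?_, hwh, haeq, ?_⟩
  · have h0 : (0 : Pt N) ∈ G.B (0 : Pt N) (1 / 8) := mem_B_self G 0 (by norm_num)
    rw [hw 0 h0]
    refine (hw1 0 h0).trans ?_
    exact le_mul_of_one_le_right (Real.sqrt_nonneg T) h4
  · have h1 := (((hdg 0).1.toHW).mono (B_mono G (by norm_num) :
      G.B (0 : Pt N) (1 / 8) ⊆ G.B 0 (1 / 4))).smul ε⁻¹
    refine h1.congr (G.isOpen_B _ _) ?_ (Eventually.of_forall fun y _ => rfl)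
    filter_upwards [haeq] with y hy hyB
    exact (hy hyB).symm

theorem blow (G : Carnot N m) {a b L : ℝ} (ha0 : 0 ≤ a) (ha : a < 1) (hb : 0 ≤ b) (hL : 1 ≤ L) {c0 : ℝ}
    (hc0 : 0 < c0) (A : ℕ → Hv m → Hv m) (hA : ∀ n, Nrm a b L (A n)) (u : ℕ → Pt N → ℝ)
    (F : ℕ → Pt N → Hv m) (hS : ∀ n, Sol G 2 (G.B 0 1) (A n) (u n) (F n))
    (hF : ∀ n, ∀ᵐ y, y ∈ G.B 0 1 → ‖F n y‖ ≤ 1) (v : ℕ → Hv m) (hv : ∀ n, c0 ≤ ‖v n‖)
    (hv2 : ∀ n, ‖v n‖ ≤ 2) (ε : ℕ → ℝ) (hε : ∀ n, 0 < ε n)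
    (hE : ∀ n, av G 0 1 (fun y => ‖F n y - v n‖ ^ 2) = ε n ^ 2) :
    ∃ s : ℕ → ℕ, StrictMono s ∧ ∃ (κ : ℕ → ℝ) (w : ℕ → Pt N → ℝ) (w' : Pt N → ℝ), Continuous w' ∧
      (∀ n, Continuous (w n)) ∧ TendstoUniformlyOn w w' atTop (G.B 0 (1 / 8)) ∧
      (∀ n, ∀ᵐ y, y ∈ G.B 0 (1 / 8) →
        w n y = (ε (s n))⁻¹ * (u (s n) y - (∑ k, v (s n) k * y (G.hor k)) - κ n)) ∧
      ∀ n, HW G 2 (G.B 0 (1 / 8)) (w n) (fun y => (ε (s n))⁻¹ • (F (s n) y - v (s n))) := by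
  obtain ⟨α, hα0, hα1, M, hM, H⟩ := blow_one G ha0 ha hb hL hc0
  choose κ w hw0 hwh hwae hwHW using fun n =>
    H (A n) (hA n) (u n) (F n) (hS n) (hF n) (v n) (hv n) (hv2 n) (ε n) (hε n) (hE n)
  have hcont : ∀ x : Pt N, Continuous fun y => M * G.di y x ^ α := fun x =>
    continuous_const.mul (Continuous.rpow_const
      (G.continuous_di.comp (continuous_id.prodMk continuous_const)) fun _ => Or.inr hα0.le)
  obtain ⟨s, hs, g, hg, hunif⟩ := arzela w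
    (fun x => ⟨M + M * G.di x 0 ^ α, Eventually.of_forall fun n => by
      have h1 := hwh n x 0
      have h2 := hw0 n
      have h3 : w n x = (w n x - w n 0) + w n 0 := by ring
      rw [Real.norm_eq_abs, h3]
      refine (abs_add_le _ _).trans ?_
      linarith⟩)
    (fun x η hη => by
      have h1 := (hcont x).tendsto x
      have h0 : M * G.di x x ^ α = 0 := by
        rw [G.di_self, Real.zero_rpow hα0.ne', mul_zero]
      rw [h0, Metric.tendsto_nhds_nhds] at h1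
      obtain ⟨δ, hδ, h2⟩ := h1 η hη
      refine ⟨δ, hδ, Eventually.of_forall fun n y hy => ?_⟩
      have h3 := h2 hy
      rw [Real.dist_eq, sub_zero] at h3
      rw [Real.norm_eq_abs]
      exact (hwh n y x).trans ((le_abs_self _).trans h3.le))
  refine ⟨s, hs, fun n => κ (s n), fun n => w (s n), g, hg,
    fun n => continuous_of_holder G hα0 (hwh (s n)), ?_, fun n => hwae (s n), fun n => hwHW (s n)⟩
  exact (hunif _ (G.isCompact_cB 0 (1 / 8))).mono fun y hy => le_of_lt (show G.di 0 y < 1 / 8 from hy)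

end Pool.Agent.CG.K
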