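import Pool.Agent.CG.K.Quasi
import Pool.Agent.CG.D.Diff
import Pool.Agent.CG.A.Cut

/-!
# CG-K-CaccB: Caccioppoli inequality for `u - affine` on balls

`quasi` (with `c0`), `cacc_full` on `Ω = G.B 0 (2 θ)`, cut-off `G.exists_cutoff` for `θ < 2 θ`.
-/

set_option autoImplicit false

namespace Pool.Agent.CG.K

open MeasureTheory Set Filter Topology
open scoped ContDiff ENNReal

variable {N m : ℕ}

theorem cacc_ball (G : Carnot N m) {a b L : ℝ} (ha0 : 0 ≤ a) (ha : a < 1) (hb : 0 ≤ b) (hL : 1 ≤ L)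
    {c0 : ℝ} (hc0 : 0 < c0) : ∃ C2 : ℝ, 0 < C2 ∧ ∀ A : Hv m → Hv m, Nrm a b L A →
    ∀ θ : ℝ, 0 < θ → θ ≤ 1 / 2 →
    ∀ (u : Pt N → ℝ) (F : Pt N → Hv m), Sol G 2 (G.B 0 1) A u F → (∀ᵐ y, y ∈ G.B 0 1 → ‖F y‖ ≤ 1) →
    ∀ v : Hv m, c0 ≤ ‖v‖ → ‖v‖ ≤ 2 → ∀ κ T : ℝ, 0 ≤ T →
    (∀ᵐ y, y ∈ G.B 0 (2 * θ) → |u y - (∑ k, v k * y (G.hor k)) - κ| ≤ T) →
    av G 0 θ (fun y => ‖F y - v‖ ^ 2) ≤ C2 * (T / θ) ^ 2 := by
  obtain ⟨C1, hC1, hq⟩ := quasi G ha0 ha hb hL hc0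
  obtain ⟨C0, hC0, hcut⟩ := G.exists_cutoff
  refine ⟨2 * C1 * C0 ^ 2 * 2 ^ G.Q, by positivity, ?_⟩
  intro A hA θ hθ hθ2 u F hu hF v hv1 hv2 κ T hT hw
  have h2θ : 2 * θ ≤ 1 := by linarith
  have hθ' : θ < 2 * θ := by linarith
  have hsub : G.B 0 (2 * θ) ⊆ G.B 0 1 := B_mono G h2θ
  have hu' := hu.monoD hsub
  have hF' : ∀ᵐ y, y ∈ G.B 0 (2 * θ) → ‖F y‖ ≤ 1 := by
    filter_upwards [hF] with y hy hyB
    exact hy (hsub hyB)
  obtain ⟨η, hη, hη0, hη1, hηe, hηg⟩ := hcut 0 θ (2 * θ) hθ hθ'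
  have hcf := cacc_full (G.isOpen_B 0 (2 * θ)) hC1.le
    (fun k0 => (hq A hA (G.B 0 (2 * θ)) (G.isOpen_B 0 (2 * θ)) u F hu' hF' v hv1 hv2 κ k0).1)
    (fun k0 => (hq A hA (G.B 0 (2 * θ)) (G.isOpen_B 0 (2 * θ)) u F hu' hF' v hv1 hv2 κ k0).2) hη
  have hint : IntegrableOn (fun y => ‖F y - v‖ ^ 2) (G.B 0 (2 * θ)) := intOn_sq G hu'.lqg hF' v
  have hηc : Continuous η := hη.smooth.continuous
  -- left side
  have hint2 : IntegrableOn (fun y => η y ^ 2 * ‖F y - v‖ ^ 2) (G.B 0 (2 * θ)) := by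
    refine Integrable.mono' hint ((hηc.pow 2).aestronglyMeasurable.mul hint.1)
      (Eventually.of_forall fun y => ?_)
    rw [Real.norm_of_nonneg (by positivity)]
    have h1 : η y ^ 2 ≤ 1 := pow_le_one₀ (hη0 y) (hη1 y)
    exact mul_le_of_le_one_left (sq_nonneg _) h1
  have hl : ∫ y in G.B 0 θ, ‖F y - v‖ ^ 2 ≤ ∫ x, η x ^ 2 * ‖F x - v‖ ^ 2 := by
    have e1 : ∫ x, η x ^ 2 * ‖F x - v‖ ^ 2 = ∫ x in G.B 0 (2 * θ), η x ^ 2 * ‖F x - v‖ ^ 2 := by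
      refine (setIntegral_eq_integral_of_forall_compl_eq_zero fun y hy => ?_).symm
      rw [hη.eq_zero hy]
      ring
    have e2 : ∫ y in G.B 0 θ, ‖F y - v‖ ^ 2 = ∫ y in G.B 0 θ, η y ^ 2 * ‖F y - v‖ ^ 2 := by
      refine setIntegral_congr_fun (meas_B G 0 θ) fun y hy => ?_
      show ‖F y - v‖ ^ 2 = η y ^ 2 * ‖F y - v‖ ^ 2
      rw [hηe y hy, one_pow, one_mul]
    rw [e1, e2]
    refine setIntegral_mono_set hint2 (Eventually.of_forall fun y => by positivity)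
      (Eventually.of_forall (B_mono G hθ'.le))
  -- right side
  have hr : ∫ x, (u x - (∑ k, v k * x (G.hor k)) - κ) ^ 2 * ‖G.grad η x‖ ^ 2 ≤
      T ^ 2 * (C0 / θ) ^ 2 * volume.real (G.B 0 (2 * θ)) := by
    have e1 : ∫ x, (u x - (∑ k, v k * x (G.hor k)) - κ) ^ 2 * ‖G.grad η x‖ ^ 2 =
        ∫ x in G.B 0 (2 * θ), (u x - (∑ k, v k * x (G.hor k)) - κ) ^ 2 * ‖G.grad η x‖ ^ 2 := by
      refine (setIntegral_eq_integral_of_forall_compl_eq_zero fun y hy => ?_).symm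
      rw [hη.grad_eq_zero hy]
      simp
    have e2 : T ^ 2 * (C0 / θ) ^ 2 * volume.real (G.B 0 (2 * θ)) =
        ∫ x in G.B 0 (2 * θ), T ^ 2 * (C0 / θ) ^ 2 := by
      rw [setIntegral_const, smul_eq_mul]
      ring
    rw [e1, e2]
    refine integral_mono_of_nonneg (Eventually.of_forall fun y => by positivity)
      (intOn_const G 0 (2 * θ) _) ?_
    rw [Filter.EventuallyLE, ae_restrict_iff' (meas_B G 0 (2 * θ))]
    filter_upwards [hw] with y hy hyB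
    have h1 := hy hyB
    have h2 : (u y - (∑ k, v k * y (G.hor k)) - κ) ^ 2 ≤ T ^ 2 := by
      rw [← sq_abs]
      exact pow_le_pow_left₀ (abs_nonneg _) h1 2
    have h3 : ‖G.grad η y‖ ^ 2 ≤ (C0 / θ) ^ 2 := by
      have h4 := hηg y
      have h5 : 2 * θ - θ = θ := by ring
      rw [h5] at h4
      exact pow_le_pow_left₀ (norm_nonneg _) h4 2
    exact mul_le_mul h2 h3 (sq_nonneg _) (sq_nonneg _)
  have hV := volr_B_pos G (0 : Pt N) one_pos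
  have hfin : ∫ y in G.B 0 θ, ‖F y - v‖ ^ 2 ≤
      2 * C1 * (T ^ 2 * (C0 / θ) ^ 2 * volume.real (G.B 0 (2 * θ))) :=
    hl.trans (hcf.trans (mul_le_mul_of_nonneg_left hr (by positivity)))
  unfold av
  calc (volume.real (G.B 0 θ))⁻¹ * ∫ y in G.B 0 θ, ‖F y - v‖ ^ 2
      ≤ (volume.real (G.B 0 θ))⁻¹ *
          (2 * C1 * (T ^ 2 * (C0 / θ) ^ 2 * volume.real (G.B 0 (2 * θ)))) :=
        mul_le_mul_of_nonneg_left hfin (by positivity)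
    _ = 2 * C1 * C0 ^ 2 * 2 ^ G.Q * (T / θ) ^ 2 := by
        rw [volr_B G 0 hθ, volr_B G 0 (by linarith : (0 : ℝ) < 2 * θ), mul_pow]
        field_simp

end Pool.Agent.CG.K
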