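import Pool.Agent.CG.K.Av

/-!
# CG-K-CampA: Campanato, equality almost everywhere

PLAN.  It is enough to show `∫⁻_{B x ρ} ‖F - V‖² = 0` for every `ρ < S` (`B x S` is a countable union of such balls).
Let `0 < r < S - ρ`, `r ≤ S`.  For `y ∈ B x S` and `z ∈ B y r ∩ B x S`: `‖F z - V z‖² ≤ 2 ‖F z - V y‖² + 2 ‖V y - V z‖²`,
so by `h1`, `h2` (`G.di y z < r`) `∫_{z ∈ B y r ∩ B x ρ} ‖F z - V z‖² ≤ |B y r| * (2 K r ^ γ + 2 K² (r ^ γ) ^ 2)`.
Tonelli: `|B 0 r| ∫⁻_{z ∈ B x ρ} ‖F z - V z‖² = ∫⁻_{z ∈ B x ρ} ∫⁻_y 1_{G.di y z < r} ‖F z - V z‖² = ∫⁻_{y ∈ B x S} ∫⁻_{z ∈ B y r ∩ B x ρ} ..`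
(`lintegral_lintegral_swap`; `G.di` is continuous and symmetric, `volume (B z r) = volume (B 0 r)`, `G.vol_B`; `y ∈ B z r` and
`z ∈ B x ρ` imply `y ∈ B x S`).  Divide by `|B 0 r|` and let `r → 0`.
Work with `ENNReal.ofReal (‖F z - V z‖ ^ 2)`; `V` is continuous on the open set `B x S` by `h2`, so everything is a.e. measurable.
-/

set_option autoImplicit false

namespace Pool.Agent.CG.K

open MeasureTheory Set Filter Topology
open scoped ContDiff ENNReal

variable {N m : ℕ}

private theorem camp_loc (G : Carnot N m) {x : Pt N} {S K γ : ℝ} (hK : 0 ≤ K)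
    (hγ : 0 < γ)
    {F V : Pt N → Hv m} (hF : AEStronglyMeasurable F (volume.restrict (G.B x (2 * S))))
    {M : ℝ} (hM : ∀ᵐ y, y ∈ G.B x (2 * S) → ‖F y‖ ≤ M)
    (h1 : ∀ y ∈ G.B x S, ∀ r : ℝ, 0 < r → r ≤ S → av G y r (fun z => ‖F z - V y‖ ^ 2) ≤ K * r ^ γ)
    (h2 : ∀ y ∈ G.B x S, ∀ z ∈ G.B x S, ‖V y - V z‖ ≤ K * G.di y z ^ γ)
    {ρ r : ℝ} (hρS : ρ < S) (hr : 0 < r) (hrS : r ≤ S)
    {y : Pt N} (hy : y ∈ G.B x S) :
    ∫⁻ z in G.B y r ∩ G.B x ρ, ENNReal.ofReal (‖F z - V z‖ ^ 2) ≤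
      ENNReal.ofReal (2 * (K * r ^ γ) + 2 * (K * r ^ γ) ^ 2) * volume (G.B y r) := by
  have hsub : G.B y r ⊆ G.B x (2 * S) := by
    refine B_sub G ?_
    rw [G.mem_B] at hy
    linarith
  have hfin : IsFiniteMeasure (volume.restrict (G.B y r)) :=
    ⟨by rw [Measure.restrict_apply_univ]; exact G.vol_B_lt_top y r⟩
  have hFm : AEStronglyMeasurable F (volume.restrict (G.B y r)) :=
    hF.mono_measure (Measure.restrict_mono hsub le_rfl)
  have hint : Integrable (fun z => ‖F z - V y‖ ^ 2) (volume.restrict (G.B y r)) := by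
    refine Integrable.of_bound ((hFm.sub aestronglyMeasurable_const).norm.pow 2)
      ((M + ‖V y‖) ^ 2) ?_
    rw [ae_restrict_iff' (meas_B G y r)]
    filter_upwards [hM] with z hz hzB
    rw [Real.norm_of_nonneg (by positivity)]
    have h3 := hz (hsub hzB)
    have h4 : ‖F z - V y‖ ≤ M + ‖V y‖ := (norm_sub_le _ _).trans (by linarith)
    exact pow_le_pow_left₀ (norm_nonneg _) h4 2
  set c : ℝ := K * r ^ γ with hc
  have hc0 : 0 ≤ c := by positivity
  have step1 : ∫⁻ z in G.B y r ∩ G.B x ρ, ENNReal.ofReal (‖F z - V z‖ ^ 2) ≤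
      ∫⁻ z in G.B y r ∩ G.B x ρ, ENNReal.ofReal (2 * ‖F z - V y‖ ^ 2 + 2 * c ^ 2) := by
    refine setLIntegral_mono' ((meas_B G y r).inter (meas_B G x ρ)) fun z hz => ?_
    apply ENNReal.ofReal_le_ofReal
    have hzS : z ∈ G.B x S := B_mono G hρS.le hz.2
    have h3 := h2 y hy z hzS
    have h4 : G.di y z ^ γ ≤ r ^ γ := by
      have h5 := hz.1
      rw [G.mem_B] at h5
      exact Real.rpow_le_rpow (G.di_nonneg y z) h5.le hγ.le
    have h6 : ‖V y - V z‖ ≤ c := h3.trans (mul_le_mul_of_nonneg_left h4 hK)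
    have h7 : ‖F z - V z‖ ≤ ‖F z - V y‖ + c := by
      have h8 : F z - V z = (F z - V y) + (V y - V z) := by abel
      rw [h8]
      exact (norm_add_le _ _).trans (by linarith)
    have h9 : ‖F z - V z‖ ^ 2 ≤ (‖F z - V y‖ + c) ^ 2 := pow_le_pow_left₀ (norm_nonneg _) h7 2
    nlinarith [sq_nonneg (‖F z - V y‖ - c)]
  have step2 : ∫⁻ z in G.B y r ∩ G.B x ρ, ENNReal.ofReal (2 * ‖F z - V y‖ ^ 2 + 2 * c ^ 2) ≤
      ∫⁻ z in G.B y r, ENNReal.ofReal (2 * ‖F z - V y‖ ^ 2 + 2 * c ^ 2) :=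
    lintegral_mono_set inter_subset_left
  have hint2 : Integrable (fun z => 2 * ‖F z - V y‖ ^ 2 + 2 * c ^ 2)
      (volume.restrict (G.B y r)) := (hint.const_mul 2).add (integrable_const _)
  have step3 : ∫⁻ z in G.B y r, ENNReal.ofReal (2 * ‖F z - V y‖ ^ 2 + 2 * c ^ 2) =
      ENNReal.ofReal (∫ z in G.B y r, (2 * ‖F z - V y‖ ^ 2 + 2 * c ^ 2)) :=
    (ofReal_integral_eq_lintegral_ofReal hint2
      (Eventually.of_forall fun z => by positivity)).symm
  have hV := volr_B_pos G y hr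
  have step4 : ∫ z in G.B y r, (2 * ‖F z - V y‖ ^ 2 + 2 * c ^ 2) ≤
      (2 * c + 2 * c ^ 2) * volume.real (G.B y r) := by
    rw [integral_add (hint.const_mul 2) (integrable_const _), integral_const_mul,
      setIntegral_const, smul_eq_mul]
    have h3 := h1 y hy r hr hrS
    unfold av at h3
    rw [inv_mul_le_iff₀ hV] at h3
    nlinarith
  refine step1.trans (step2.trans ?_)
  rw [step3]
  refine (ENNReal.ofReal_le_ofReal step4).trans ?_
  rw [ENNReal.ofReal_mul (by positivity), Measure.real,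
    ENNReal.ofReal_toReal (G.vol_B_lt_top y r).ne]

private theorem camp_int (G : Carnot N m) {x : Pt N} {S K γ : ℝ} (hK : 0 ≤ K)
    (hγ : 0 < γ)
    {F V : Pt N → Hv m} (hF : AEStronglyMeasurable F (volume.restrict (G.B x (2 * S))))
    {M : ℝ} (hM : ∀ᵐ y, y ∈ G.B x (2 * S) → ‖F y‖ ≤ M)
    (h1 : ∀ y ∈ G.B x S, ∀ r : ℝ, 0 < r → r ≤ S → av G y r (fun z => ‖F z - V y‖ ^ 2) ≤ K * r ^ γ)
    (h2 : ∀ y ∈ G.B x S, ∀ z ∈ G.B x S, ‖V y - V z‖ ≤ K * G.di y z ^ γ)
    {ρ r : ℝ} (hρS : ρ < S) (hr : 0 < r) (hrS : r ≤ S) (hr' : r < S - ρ)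
    (hg : AEMeasurable (fun z => ENNReal.ofReal (‖F z - V z‖ ^ 2)) (volume.restrict (G.B x ρ))) :
    ∫⁻ z in G.B x ρ, ENNReal.ofReal (‖F z - V z‖ ^ 2) ≤
      ENNReal.ofReal (2 * (K * r ^ γ) + 2 * (K * r ^ γ) ^ 2) * volume (G.B x S) := by
  set E : ℝ≥0∞ := ENNReal.ofReal (2 * (K * r ^ γ) + 2 * (K * r ^ γ) ^ 2) with hE
  have hb : ∀ z, volume (G.B z r) = volume (G.B 0 r) := fun z => by
    rw [G.vol_B z hr, G.vol_B 0 hr]
  have hb0 : volume (G.B 0 r) ≠ 0 := (G.vol_B_pos 0 hr).ne'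
  have hbt : volume (G.B 0 r) ≠ ⊤ := (G.vol_B_lt_top 0 r).ne
  set g' : Pt N → ℝ≥0∞ := hg.mk _ with hg'
  have hg'm : Measurable g' := hg.measurable_mk
  have hgg' : (fun z => ENNReal.ofReal (‖F z - V z‖ ^ 2)) =ᵐ[volume.restrict (G.B x ρ)] g' :=
    hg.ae_eq_mk
  have hI : ∫⁻ z in G.B x ρ, ENNReal.ofReal (‖F z - V z‖ ^ 2) = ∫⁻ z in G.B x ρ, g' z :=
    lintegral_congr_ae hgg'
  have hmem : ∀ y z : Pt N, y ∈ G.B z r ↔ z ∈ G.B y r := fun y z => by
    rw [G.mem_B, G.mem_B, G.di_comm]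
  have hmeas : Measurable (Function.uncurry fun z y : Pt N =>
      (G.B z r).indicator (fun _ => g' z) y) := by
    have hset : MeasurableSet {q : Pt N × Pt N | G.di q.1 q.2 < r} :=
      (isOpen_lt G.continuous_di continuous_const).measurableSet
    have h3 : (Function.uncurry fun z y : Pt N => (G.B z r).indicator (fun _ => g' z) y) =
        {q : Pt N × Pt N | G.di q.1 q.2 < r}.indicator (fun q => g' q.1) := by
      funext q
      obtain ⟨z, y⟩ := q
      by_cases h : G.di z y < r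
      · have h4 : y ∈ G.B z r := (G.mem_B).2 h
        simp only [Function.uncurry]
        rw [indicator_of_mem h4, indicator_of_mem (show (z, y) ∈ _ from h)]
      · have h4 : y ∉ G.B z r := fun h' => h ((G.mem_B).1 h')
        simp only [Function.uncurry]
        rw [indicator_of_notMem h4, indicator_of_notMem (show (z, y) ∉ _ from h)]
    rw [h3]
    exact (hg'm.comp measurable_fst).indicator hset
  have key : (∫⁻ z in G.B x ρ, g' z) * volume (G.B 0 r) ≤
      (E * volume (G.B x S)) * volume (G.B 0 r) := by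
    calc (∫⁻ z in G.B x ρ, g' z) * volume (G.B 0 r)
        = ∫⁻ z in G.B x ρ, ∫⁻ y, (G.B z r).indicator (fun _ => g' z) y := by
          rw [← lintegral_mul_const _ hg'm]
          refine lintegral_congr fun z => ?_
          rw [lintegral_indicator (meas_B G z r), lintegral_const, Measure.restrict_apply_univ, hb z]
      _ = ∫⁻ y, ∫⁻ z in G.B x ρ, (G.B z r).indicator (fun _ => g' z) y :=
          lintegral_lintegral_swap hmeas.aemeasurable
      _ ≤ ∫⁻ y, (G.B x S).indicator (fun _ => E * volume (G.B 0 r)) y := by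
          refine lintegral_mono fun y => ?_
          have h4 : ∫⁻ z in G.B x ρ, (G.B z r).indicator (fun _ => g' z) y =
              ∫⁻ z in G.B y r ∩ G.B x ρ, ENNReal.ofReal (‖F z - V z‖ ^ 2) := by
            have h5 : (fun z => (G.B z r).indicator (fun _ => g' z) y) =
                (G.B y r).indicator g' := by
              funext z
              by_cases h : z ∈ G.B y r
              · rw [indicator_of_mem h, indicator_of_mem ((hmem y z).2 h)]
              · rw [indicator_of_notMem h, indicator_of_notMem (fun h' => h ((hmem y z).1 h'))]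
            rw [h5, lintegral_indicator (meas_B G y r), Measure.restrict_restrict (meas_B G y r)]
            refine lintegral_congr_ae ?_
            have h6 : volume.restrict (G.B y r ∩ G.B x ρ) ≤ volume.restrict (G.B x ρ) :=
              Measure.restrict_mono inter_subset_right le_rfl
            exact (hgg'.filter_mono (ae_mono h6)).symm
          dsimp only
          rw [h4]
          by_cases hy : y ∈ G.B x S
          · rw [indicator_of_mem hy, ← hb y]
            exact camp_loc G hK hγ hF hM h1 h2 hρS hr hrS hy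
          · have h7 : G.B y r ∩ G.B x ρ = ∅ := by
              rw [eq_empty_iff_forall_notMem]
              rintro z ⟨hz1, hz2⟩
              apply hy
              rw [G.mem_B] at hz1 hz2 ⊢
              have := G.di_triangle x z y
              rw [G.di_comm z y] at this
              linarith
            rw [h7]
            simp
      _ = (E * volume (G.B x S)) * volume (G.B 0 r) := by
          rw [lintegral_indicator (meas_B G x S), lintegral_const, Measure.restrict_apply_univ]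
          ring
  rw [hI]
  exact (ENNReal.mul_le_mul_iff_left hb0 hbt).1 key

theorem camp_ae (G : Carnot N m) {x : Pt N} {S K γ : ℝ} (hS : 0 < S) (hK : 0 ≤ K) (hγ : 0 < γ)
    {F V : Pt N → Hv m} (hF : AEStronglyMeasurable F (volume.restrict (G.B x (2 * S))))
    {M : ℝ} (hM : ∀ᵐ y, y ∈ G.B x (2 * S) → ‖F y‖ ≤ M)
    (h1 : ∀ y ∈ G.B x S, ∀ r : ℝ, 0 < r → r ≤ S → av G y r (fun z => ‖F z - V y‖ ^ 2) ≤ K * r ^ γ)
    (h2 : ∀ y ∈ G.B x S, ∀ z ∈ G.B x S, ‖V y - V z‖ ≤ K * G.di y z ^ γ) :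
    ∀ᵐ y, y ∈ G.B x S → F y = V y := by
  have hVc : ContinuousOn V (G.B x S) := by
    intro y hy
    rw [ContinuousWithinAt, tendsto_iff_norm_sub_tendsto_zero]
    have h3 : Tendsto (fun z => K * G.di y z ^ γ) (𝓝[G.B x S] y) (𝓝 0) := by
      have h4 : Continuous (fun z => K * G.di y z ^ γ) :=
        continuous_const.mul ((G.continuous_di.comp
          (Continuous.prodMk continuous_const continuous_id)).rpow_const (fun _ => Or.inr hγ.le))
      have h5 := h4.tendsto y
      rw [G.di_self, Real.zero_rpow hγ.ne', mul_zero] at h5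
      exact h5.mono_left nhdsWithin_le_nhds
    refine squeeze_zero' (Eventually.of_forall fun _ => norm_nonneg _) ?_ h3
    filter_upwards [self_mem_nhdsWithin] with z hz
    rw [norm_sub_rev]
    exact h2 y hy z hz
  have hVm : AEStronglyMeasurable V (volume.restrict (G.B x S)) :=
    hVc.aestronglyMeasurable (meas_B G x S)
  have hloc : ∀ ρ, ρ < S → ∀ᵐ y, y ∈ G.B x ρ → F y = V y := by
    intro ρ hρ
    have hFm : AEStronglyMeasurable F (volume.restrict (G.B x ρ)) :=
      hF.mono_measure (Measure.restrict_mono (B_mono G (by linarith)) le_rfl)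
    have hVm' : AEStronglyMeasurable V (volume.restrict (G.B x ρ)) :=
      hVm.mono_measure (Measure.restrict_mono (B_mono G hρ.le) le_rfl)
    have hg : AEMeasurable (fun z => ENNReal.ofReal (‖F z - V z‖ ^ 2))
        (volume.restrict (G.B x ρ)) :=
      ((hFm.sub hVm').norm.pow 2).aemeasurable.ennreal_ofReal
    have h0 : ∫⁻ z in G.B x ρ, ENNReal.ofReal (‖F z - V z‖ ^ 2) = 0 := by
      refine le_antisymm ?_ zero_le
      have hlim : Tendsto (fun r : ℝ => ENNReal.ofReal (2 * (K * r ^ γ) + 2 * (K * r ^ γ) ^ 2) *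
          volume (G.B x S)) (𝓝[>] 0) (𝓝 0) := by
        have h4 : Continuous (fun r : ℝ => 2 * (K * r ^ γ) + 2 * (K * r ^ γ) ^ 2) := by
          have h5 : Continuous (fun r : ℝ => r ^ γ) :=
            continuous_id.rpow_const (fun _ => Or.inr hγ.le)
          fun_prop
        have h6 := h4.tendsto 0
        rw [Real.zero_rpow hγ.ne'] at h6
        have h7 := (ENNReal.tendsto_ofReal h6).mono_left (nhdsWithin_le_nhds (s := Ioi 0))
        have h8 := ENNReal.Tendsto.mul_const (b := volume (G.B x S)) h7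
          (Or.inr (G.vol_B_lt_top x S).ne)
        simpa using h8
      refine ge_of_tendsto hlim ?_
      have h9 : ∀ᶠ r : ℝ in 𝓝[>] 0, r < min S (S - ρ) := by
        have : (0 : ℝ) < min S (S - ρ) := lt_min hS (by linarith)
        exact nhdsWithin_le_nhds (Iio_mem_nhds this)
      filter_upwards [self_mem_nhdsWithin, h9] with r hr hr2
      exact camp_int G hK hγ hF hM h1 h2 hρ hr (hr2.le.trans (min_le_left _ _))
        (hr2.trans_le (min_le_right _ _)) hg
    rw [lintegral_eq_zero_iff' hg] at h0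
    have h3 := (ae_restrict_iff' (meas_B G x ρ)).1 h0
    filter_upwards [h3] with z hz hzB
    have h4 := hz hzB
    simp only [Pi.zero_apply, ENNReal.ofReal_eq_zero] at h4
    have h5 : ‖F z - V z‖ = 0 := by
      have := norm_nonneg (F z - V z)
      nlinarith
    rw [norm_eq_zero, sub_eq_zero] at h5
    exact h5
  have hall : ∀ᵐ y, ∀ n : ℕ, y ∈ G.B x (S - 1 / ((n : ℝ) + 1)) → F y = V y := by
    rw [ae_all_iff]
    intro n
    refine hloc _ ?_
    have : (0 : ℝ) < 1 / ((n : ℝ) + 1) := by positivity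
    linarith
  filter_upwards [hall] with y hy hyS
  rw [G.mem_B] at hyS
  obtain ⟨n, hn⟩ := exists_nat_one_div_lt (sub_pos.2 hyS)
  refine hy n ?_
  rw [G.mem_B]
  linarith

end Pool.Agent.CG.K
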