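import Pool.Agent.CG.K.Av

/-!
# CG-K-CampH: Campanato, Hölder bound

PLAN.  `d = G.di y z`.  If `R ≤ 4 * d`: `‖V y - V z‖ ≤ 2 s` and `(d / R) ^ β ≥ 4⁻¹ ^ β ≥ 4⁻¹`.
If `d = 0` then `y = z` (`G.ell_pos`, `G.di y z = G.ell (G.mul (-y) z)`).  If `0 < d < R / 4`: `B z d ⊆ B y (2 d)`
(`K.B_sub`), `2 d ≤ R / 2`; for all `w`: `‖V y - V z‖² ≤ 2 ‖F w - V y‖² + 2 ‖F w - V z‖²`, average over `w ∈ B z d`
(`K.av_mono, av_add, av_mul, av_const`, `K.intOn_sq`): `‖V y - V z‖² ≤ 2 * 2 ^ Q * av_{y, 2d} ‖F - V y‖² + 2 av_{z, d} ‖F - V z‖²`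
(`K.av_ball_le`) `≤ (2 * 2 ^ Q * 2 ^ (2 β) + 2) (d / R) ^ (2 β) s²`.
-/

set_option autoImplicit false

namespace Pool.Agent.CG.K

open MeasureTheory Set Filter Topology
open scoped ContDiff ENNReal

variable {N m : ℕ}

theorem camp_hol (G : Carnot N m) {β : ℝ} (hβ : 0 < β) (hβ1 : β < 1) : ∃ C : ℝ, 0 < C ∧
    ∀ (x : Pt N) (R : ℝ), 0 < R → ∀ (F V : Pt N → Hv m) (v : Hv m) (M s : ℝ), 0 ≤ s →
    LqLoc 2 (G.B x R) F → (∀ᵐ y, y ∈ G.B x R → ‖F y‖ ≤ M) →
    (∀ y ∈ G.B x (R / 2), ‖V y - v‖ ≤ s) →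
    (∀ y ∈ G.B x (R / 2), ∀ r : ℝ, 0 < r → r ≤ R / 2 →
      av G y r (fun z => ‖F z - V y‖ ^ 2) ≤ (r / R) ^ (2 * β) * s ^ 2) →
    ∀ y ∈ G.B x (R / 2), ∀ z ∈ G.B x (R / 2), ‖V y - V z‖ ≤ C * s * (G.di y z / R) ^ β := by
  set K : ℝ := 8 * 2 ^ G.Q + 2 with hK
  have hK10 : 10 ≤ K := by
    have : (1 : ℝ) ≤ 2 ^ G.Q := one_le_pow₀ (by norm_num)
    rw [hK]
    linarith
  have hK0 : 0 < K := by linarith
  refine ⟨K, hK0, ?_⟩
  intro x R hR F V v M s hs hLq hM hVv hdec y hy z hz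
  set d : ℝ := G.di y z with hd
  have hd0 : 0 ≤ d := G.di_nonneg y z
  by_cases hc1 : R / 4 ≤ d
  · have h1 : ‖V y - V z‖ ≤ 2 * s := by
      have h2 : ‖V y - V z‖ ≤ ‖V y - v‖ + ‖v - V z‖ := norm_sub_le_norm_sub_add_norm_sub _ _ _
      have h3 := hVv y hy
      have h4 := hVv z hz
      rw [norm_sub_rev] at h4
      linarith
    have h5 : (1 / 4 : ℝ) ≤ (d / R) ^ β := by
      have h6 : (1 / 4 : ℝ) ^ (1 : ℝ) ≤ (1 / 4 : ℝ) ^ β :=
        Real.rpow_le_rpow_of_exponent_ge (by norm_num) (by norm_num) hβ1.le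
      have h7 : (1 / 4 : ℝ) ≤ d / R := by
        rw [le_div_iff₀ hR]
        linarith
      rw [Real.rpow_one] at h6
      exact h6.trans (Real.rpow_le_rpow (by norm_num) h7 hβ.le)
    calc ‖V y - V z‖ ≤ 2 * s := h1
      _ ≤ K * s * (1 / 4) := by nlinarith
      _ ≤ K * s * (d / R) ^ β := mul_le_mul_of_nonneg_left h5 (by positivity)
  · push Not at hc1
    rcases hd0.eq_or_lt with hd00 | hdpos
    · have hyz : y = z := by
        by_contra hne
        have h1 : G.mul (-y) z ≠ 0 := by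
          intro h2
          apply hne
          have h3 := G.mul_neg_mul y z
          rw [h2, G.mul_zero] at h3
          exact h3
        have h4 := G.ell_pos h1
        have h5 : d = G.ell (G.mul (-y) z) := rfl
        linarith
      rw [hyz, sub_self, norm_zero]
      positivity
    · have hxy : G.di x y < R / 2 := (G.mem_B).1 hy
      have hxz : G.di x z < R / 2 := (G.mem_B).1 hz
      have hsub1 : G.B z d ⊆ G.B y (2 * d) := B_sub G (by rw [← hd]; linarith)
      have hsub2 : G.B y (2 * d) ⊆ G.B x R := B_sub G (by linarith)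
      have hint : ∀ w : Hv m, IntegrableOn (fun y => ‖F y - w‖ ^ 2) (G.B x R) :=
        fun w => intOn_sq G hLq hM w
      have hi1 : IntegrableOn (fun w => ‖F w - V y‖ ^ 2) (G.B z d) :=
        (hint (V y)).mono_set (hsub1.trans hsub2)
      have hi2 : IntegrableOn (fun w => ‖F w - V z‖ ^ 2) (G.B z d) :=
        (hint (V z)).mono_set (hsub1.trans hsub2)
      have h1 : av G z d (fun _ => ‖V y - V z‖ ^ 2) ≤
          av G z d (fun w => 2 * ‖F w - V y‖ ^ 2 + 2 * ‖F w - V z‖ ^ 2) := by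
        refine av_mono G (intOn_const G z d _) ((hi1.const_mul 2).add (hi2.const_mul 2)) ?_
        intro w _
        have h2 : ‖V y - V z‖ ≤ ‖V y - F w‖ + ‖F w - V z‖ := norm_sub_le_norm_sub_add_norm_sub _ _ _
        rw [norm_sub_rev (V y) (F w)] at h2
        have h3 := norm_nonneg (V y - V z)
        nlinarith [sq_nonneg (‖F w - V y‖ - ‖F w - V z‖), norm_nonneg (F w - V y),
          norm_nonneg (F w - V z)]
      rw [av_add G (hi1.const_mul 2) (hi2.const_mul 2), av_mul, av_mul, av_const G z hdpos] at h1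
      have h4 := av_ball_le G (x := y) (y := z) hdpos (by positivity : 0 < 2 * d) hsub1
        ((hint (V y)).mono_set hsub2) (fun w _ => by positivity)
      have h5 := hdec y hy (2 * d) (by positivity) (by linarith)
      have h6 := hdec z hz d hdpos (by linarith)
      have h7 : 2 * d / d = 2 := by field_simp
      rw [h7] at h4
      have h8 : (2 * d / R) ^ (2 * β) ≤ 4 * (d / R) ^ (2 * β) := by
        rw [mul_div_assoc, Real.mul_rpow (by norm_num) (by positivity)]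
        apply mul_le_mul_of_nonneg_right _ (by positivity)
        have h9 : (2 : ℝ) ^ (2 * β) ≤ 2 ^ (2 : ℝ) :=
          Real.rpow_le_rpow_of_exponent_le (by norm_num) (by linarith)
        have h10 : (2 : ℝ) ^ (2 : ℝ) = 4 := by
          rw [show (2 : ℝ) = ((2 : ℕ) : ℝ) from rfl, Real.rpow_natCast]
          norm_num
        linarith
      have hP : (0 : ℝ) < 2 ^ G.Q := by positivity
      have hY : 0 ≤ (d / R) ^ (2 * β) * s ^ 2 := by positivity
      have h11 : ‖V y - V z‖ ^ 2 ≤ K * ((d / R) ^ (2 * β) * s ^ 2) := by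
        have h12 : av G y (2 * d) (fun w => ‖F w - V y‖ ^ 2) ≤ 4 * (d / R) ^ (2 * β) * s ^ 2 :=
          h5.trans (mul_le_mul_of_nonneg_right h8 (by positivity))
        have h13 : av G z d (fun w => ‖F w - V y‖ ^ 2) ≤
            2 ^ G.Q * (4 * (d / R) ^ (2 * β) * s ^ 2) :=
          h4.trans (mul_le_mul_of_nonneg_left h12 hP.le)
        calc ‖V y - V z‖ ^ 2 ≤ 2 * av G z d (fun w => ‖F w - V y‖ ^ 2) +
              2 * av G z d (fun w => ‖F w - V z‖ ^ 2) := h1
          _ ≤ 2 * (2 ^ G.Q * (4 * (d / R) ^ (2 * β) * s ^ 2)) +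
              2 * ((d / R) ^ (2 * β) * s ^ 2) := by linarith
          _ = K * ((d / R) ^ (2 * β) * s ^ 2) := by rw [hK]; ring
      have h14 : (d / R) ^ (2 * β) = ((d / R) ^ β) ^ 2 := by
        rw [mul_comm, Real.rpow_mul (by positivity)]
        exact Real.rpow_natCast _ 2
      have h15 : ‖V y - V z‖ ^ 2 ≤ (K * s * (d / R) ^ β) ^ 2 := by
        refine h11.trans ?_
        rw [h14]
        have h16 : K ≤ K ^ 2 := by nlinarith
        calc K * (((d / R) ^ β) ^ 2 * s ^ 2) ≤ K ^ 2 * (((d / R) ^ β) ^ 2 * s ^ 2) :=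
              mul_le_mul_of_nonneg_right h16 (by positivity)
          _ = (K * s * (d / R) ^ β) ^ 2 := by ring
      exact (pow_le_pow_iff_left₀ (norm_nonneg _) (by positivity) (by norm_num)).1 h15

end Pool.Agent.CG.K
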