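import Pool.Agent.CG.K.LimReg
import Pool.Agent.CG.K.CaccB

/-!
# CG-K-Contra: the one-step decay on the unit ball, by contradiction

PLAN.  `β1, K` from `lim_reg`, `C2` from `cacc_ball` with `c0 / 2`.  `β = β1 / 2`.  Choose `θ ≤ 1/400` with
`4 C2 K² θ ^ (2 β1) < θ ^ β1`.  `C = K ^ 2`.  If no `e0` works: sequences, `lim_reg`, `cacc_ball`.
-/

set_option autoImplicit false

namespace Pool.Agent.CG.K

open MeasureTheory Set Filter Topology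
open scoped ContDiff ENNReal

variable {N m : ℕ}

private theorem av_mono_ae (G : Carnot N m) {x : Pt N} {r : ℝ} {f g : Pt N → ℝ}
    (hf : IntegrableOn f (G.B x r)) (hg : IntegrableOn g (G.B x r))
    (h : ∀ᵐ y, y ∈ G.B x r → f y ≤ g y) : av G x r f ≤ av G x r g := by
  unfold av
  refine mul_le_mul_of_nonneg_left (setIntegral_mono_ae_restrict hf hg ?_) (by positivity)
  rw [Filter.EventuallyLE, ae_restrict_iff' (meas_B G x r)]
  exact h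

private theorem norm_v_sq (G : Carnot N m) {A : Hv m → Hv m} {u : Pt N → ℝ} {F : Pt N → Hv m}
    (hS : Sol G 2 (G.B 0 1) A u F) (hF : ∀ᵐ y, y ∈ G.B 0 1 → ‖F y‖ ≤ 1) (v : Hv m) :
    ‖v‖ ^ 2 ≤ 2 + 2 * av G 0 1 (fun y => ‖F y - v‖ ^ 2) := by
  have hi : IntegrableOn (fun y => ‖F y - v‖ ^ 2) (G.B 0 1) := intOn_sq G hS.lqg hF v
  have hi2 : IntegrableOn (fun y => 2 * ‖F y - v‖ ^ 2) (G.B 0 1) := hi.const_mul 2
  have h1 : av G 0 1 (fun _ => ‖v‖ ^ 2) ≤ av G 0 1 (fun y => 2 + 2 * ‖F y - v‖ ^ 2) := by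
    refine av_mono_ae G (intOn_const G 0 1 _) ((intOn_const G 0 1 2).add hi2) ?_
    filter_upwards [hF] with y hy hyB
    have h2 := hy hyB
    have h3 : ‖v‖ ≤ ‖F y‖ + ‖F y - v‖ := by
      have := norm_sub_le (F y) (F y - v)
      rwa [sub_sub_cancel] at this
    have h4 : ‖v‖ ≤ 1 + ‖F y - v‖ := by linarith
    calc ‖v‖ ^ 2 ≤ (1 + ‖F y - v‖) ^ 2 := pow_le_pow_left₀ (norm_nonneg _) h4 2
      _ ≤ 2 + 2 * ‖F y - v‖ ^ 2 := by nlinarith [sq_nonneg (1 - ‖F y - v‖)]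
  rw [av_const G 0 one_pos, av_add G (intOn_const G 0 1 2) hi2, av_const G 0 one_pos, av_mul] at h1
  exact h1

theorem one_step_unit (G : Carnot N m) {a b L : ℝ} (ha0 : 0 ≤ a) (ha : a < 1) (hb : 0 ≤ b) (hL : 1 ≤ L)
    {c0 : ℝ} (hc0 : 0 < c0) : ∃ β : ℝ, 0 < β ∧ β < 1 ∧ ∃ θ : ℝ, 0 < θ ∧ θ ≤ 1 / 4 ∧
    ∃ e0 : ℝ, 0 < e0 ∧ ∃ C : ℝ, 0 < C ∧ ∀ A : Hv m → Hv m, Nrm a b L A →
    ∀ (u : Pt N → ℝ) (F : Pt N → Hv m), Sol G 2 (G.B 0 1) A u F →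
    (∀ᵐ y, y ∈ G.B 0 1 → ‖F y‖ ≤ 1) → ∀ v : Hv m, c0 ≤ ‖v‖ →
    av G 0 1 (fun y => ‖F y - v‖ ^ 2) ≤ e0 →
    ∃ v' : Hv m, ‖v' - v‖ ^ 2 ≤ C * av G 0 1 (fun y => ‖F y - v‖ ^ 2) ∧
      av G 0 θ (fun y => ‖F y - v'‖ ^ 2) ≤ θ ^ (2 * β) * av G 0 1 (fun y => ‖F y - v‖ ^ 2) := by
  obtain ⟨β1, hβ1, hβ1', K, hK, hlim⟩ := lim_reg (m := m) G ha0 ha hb hL hc0
  obtain ⟨C2, hC2, hcacc⟩ := cacc_ball (m := m) G ha0 ha hb hL (c0 := c0 / 2) (by positivity)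
  -- choice of θ
  set D : ℝ := 4 * C2 * K ^ 2 with hD
  have hD0 : 0 < D := by positivity
  set θ : ℝ := min (1 / 400) ((1 / (2 * D)) ^ (1 / β1)) with hθ
  have hθ0 : 0 < θ := lt_min (by norm_num) (by positivity)
  have hθ1 : θ ≤ 1 / 400 := min_le_left _ _
  have hθβ : D * θ ^ β1 < 1 := by
    have h1 : θ ^ β1 ≤ 1 / (2 * D) := by
      calc θ ^ β1 ≤ ((1 / (2 * D)) ^ (1 / β1)) ^ β1 :=
            Real.rpow_le_rpow hθ0.le (min_le_right _ _) hβ1.le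
        _ = 1 / (2 * D) := by
            rw [← Real.rpow_mul (by positivity), one_div_mul_cancel hβ1.ne', Real.rpow_one]
    calc D * θ ^ β1 ≤ D * (1 / (2 * D)) := by gcongr
      _ = 1 / 2 := by field_simp
      _ < 1 := by norm_num
  refine ⟨β1 / 2, by positivity, by linarith, θ, hθ0, by linarith, ?_⟩
  by_contra hcon
  push Not at hcon
  have hK2 : 0 < K ^ 2 := by positivity
  have hseq : ∀ n : ℕ, ∃ A : Hv m → Hv m, Nrm a b L A ∧ ∃ (u : Pt N → ℝ) (F : Pt N → Hv m),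
      Sol G 2 (G.B 0 1) A u F ∧ (∀ᵐ y, y ∈ G.B 0 1 → ‖F y‖ ≤ 1) ∧ ∃ v : Hv m, c0 ≤ ‖v‖ ∧
      av G 0 1 (fun y => ‖F y - v‖ ^ 2) ≤ 1 / ((n : ℝ) + 1) ∧
      ∀ v' : Hv m, ‖v' - v‖ ^ 2 ≤ K ^ 2 * av G 0 1 (fun y => ‖F y - v‖ ^ 2) →
        θ ^ (2 * (β1 / 2)) * av G 0 1 (fun y => ‖F y - v‖ ^ 2) < av G 0 θ (fun y => ‖F y - v'‖ ^ 2) := by
    intro n
    obtain ⟨A, hA, u, F, hS, hF, v, hv, hav, hn⟩ := hcon (1 / ((n : ℝ) + 1)) (by positivity) (K ^ 2) hK2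
    exact ⟨A, hA, u, F, hS, hF, v, hv, hav, hn⟩
  choose A hA u F hS hF v hv hav hn using hseq
  set E : ℕ → ℝ := fun n => av G 0 1 (fun y => ‖F n y - v n‖ ^ 2) with hE
  have hE0 : ∀ n, 0 ≤ E n := fun n => av_nonneg G fun y _ => by positivity
  have hE1 : ∀ n, E n ≤ 1 / ((n : ℝ) + 1) := hav
  have hEle : ∀ n, E n ≤ 1 := by
    intro n
    refine (hE1 n).trans ?_
    rw [div_le_one (by positivity)]
    have : (0 : ℝ) ≤ n := Nat.cast_nonneg n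
    linarith
  have hElim : Tendsto E atTop (𝓝 0) :=
    squeeze_zero hE0 hE1 tendsto_one_div_add_atTop_nhds_zero_nat
  have hEpos : ∀ n, 0 < E n := by
    intro n
    by_contra hneg
    have h0 : E n = 0 := le_antisymm (not_lt.1 hneg) (hE0 n)
    have h1 := hn n (v n) (by
      rw [sub_self, norm_zero, zero_pow two_ne_zero]
      exact mul_nonneg hK2.le (hE0 n))
    have h2 : av G 0 θ (fun y => ‖F n y - v n‖ ^ 2) ≤ (1 / θ) ^ G.Q * E n :=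
      av_ball_le G hθ0 one_pos (B_mono G (by linarith)) (intOn_sq G (hS n).lqg (hF n) (v n))
        fun z _ => by positivity
    rw [h0, mul_zero] at h2
    have h3 : θ ^ (2 * (β1 / 2)) * av G 0 1 (fun y => ‖F n y - v n‖ ^ 2) = 0 := by
      have : av G 0 1 (fun y => ‖F n y - v n‖ ^ 2) = 0 := h0
      rw [this, mul_zero]
    rw [h3] at h1
    linarith
  set ε : ℕ → ℝ := fun n => Real.sqrt (E n) with hε
  have hεpos : ∀ n, 0 < ε n := fun n => Real.sqrt_pos.2 (hEpos n)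
  have hεsq : ∀ n, ε n ^ 2 = E n := fun n => Real.sq_sqrt (hE0 n)
  have hεlim : Tendsto ε atTop (𝓝 0) := by
    have := hElim.sqrt
    rwa [Real.sqrt_zero] at this
  have hvsq : ∀ n, ‖v n‖ ^ 2 ≤ 2 + 2 * E n := fun n => norm_v_sq G (hS n) (hF n) (v n)
  have hv2 : ∀ n, ‖v n‖ ≤ 2 := by
    intro n
    have h1 := hvsq n
    have h2 := hEle n
    nlinarith [norm_nonneg (v n)]
  obtain ⟨s, hs, κ, ξ, hξ, hexp⟩ := hlim A hA u F hS hF v hv hv2 ε hεpos hεlim (fun n => (hεsq n).symm)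
  have hδ : 0 < K * θ ^ (1 + β1) := by positivity
  have hev := hexp θ hθ0 hθ1 _ hδ
  have hsl : Tendsto s atTop atTop := hs.tendsto_atTop
  have h1 : ∀ᶠ n in atTop, ε (s n) * K < c0 / 2 := by
    have := (hεlim.comp hsl).mul_const K
    rw [zero_mul] at this
    exact this.eventually_lt_const (by positivity)
  have h2 : ∀ᶠ n in atTop, ε (s n) * K < 1 / 2 := by
    have := (hεlim.comp hsl).mul_const K
    rw [zero_mul] at this
    exact this.eventually_lt_const (by positivity)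
  have h3 : ∀ᶠ n in atTop, E (s n) < 1 / 8 :=
    (hElim.comp hsl).eventually_lt_const (by norm_num)
  obtain ⟨n, hn1, hn2, hn3, hn4⟩ := (hev.and (h1.and (h2.and h3))).exists
  set v' : Hv m := v (s n) + ε (s n) • ξ with hv'
  have hnv : ‖v' - v (s n)‖ ≤ ε (s n) * K := by
    rw [hv', add_sub_cancel_left, norm_smul, Real.norm_of_nonneg (hεpos _).le]
    exact mul_le_mul_of_nonneg_left hξ (hεpos _).le
  have hv'1 : c0 / 2 ≤ ‖v'‖ := by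
    have h4 := hv (s n)
    have h5 : ‖v (s n)‖ ≤ ‖v'‖ + ‖v' - v (s n)‖ := by
      have := norm_sub_le v' (v' - v (s n))
      rwa [sub_sub_cancel] at this
    linarith
  have hv'2 : ‖v'‖ ≤ 2 := by
    have h4 : ‖v'‖ ≤ ‖v' - v (s n)‖ + ‖v (s n)‖ := by
      have := norm_add_le (v' - v (s n)) (v (s n))
      rwa [sub_add_cancel] at this
    have h5 : ‖v (s n)‖ ≤ 3 / 2 := by
      have h6 := hvsq (s n)
      nlinarith [norm_nonneg (v (s n))]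
    linarith
  have hvv : ‖v' - v (s n)‖ ^ 2 ≤ K ^ 2 * av G 0 1 (fun y => ‖F (s n) y - v (s n)‖ ^ 2) := by
    calc ‖v' - v (s n)‖ ^ 2 ≤ (ε (s n) * K) ^ 2 := pow_le_pow_left₀ (norm_nonneg _) hnv 2
      _ = K ^ 2 * E (s n) := by rw [mul_pow, hεsq]; ring
  have hfin := hn (s n) v' hvv
  set T : ℝ := ε (s n) * (K * θ ^ (1 + β1) + K * θ ^ (1 + β1)) with hT
  have hT0 : 0 ≤ T := by
    have := hεpos (s n)
    positivity
  have hca := hcacc (A (s n)) (hA (s n)) θ hθ0 (by linarith) (u (s n)) (F (s n)) (hS (s n)) (hF (s n)) v'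
    hv'1 hv'2 (κ n) T hT0 hn1
  have hTθ : T / θ = ε (s n) * (2 * K * θ ^ β1) := by
    rw [hT, Real.rpow_add hθ0, Real.rpow_one]
    field_simp
    ring
  have h6 : C2 * (T / θ) ^ 2 = E (s n) * (D * θ ^ β1) * θ ^ β1 := by
    rw [hTθ, ← hεsq, hD]
    ring
  have h7 : E (s n) * (D * θ ^ β1) * θ ^ β1 ≤ θ ^ (2 * (β1 / 2)) * E (s n) := by
    have e1 : 2 * (β1 / 2) = β1 := by ring
    rw [e1]
    have h8 : 0 < θ ^ β1 := by positivity
    have h9 := hEpos (s n)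
    calc E (s n) * (D * θ ^ β1) * θ ^ β1 ≤ E (s n) * 1 * θ ^ β1 := by gcongr
      _ = θ ^ β1 * E (s n) := by ring
  have h10 : θ ^ (2 * (β1 / 2)) * E (s n) < av G 0 θ (fun y => ‖F (s n) y - v'‖ ^ 2) := hfin
  linarith

end Pool.Agent.CG.K
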