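import Pool.Agent.CG.K.Av
import Pool.Agent.CG.B.Lip

/-!
# CG-K-Expand: first order expansion from closeness of the gradient

PLAN.  `z = w - ∑ ξ_k y_{hor k}` has gradient `W - ξ` (`HW.linear`, `HW.sub`), bounded by `T` a.e. on `B 0 (3 ρ)`; `HW.lip` with
`R = 3 ρ` gives a representative `z'`, continuous on `B 0 (3 ρ)` and `|z' y - z' 0| ≤ T * di 0 y` on `B 0 ρ`
(`R / 3 = ρ`).  `z` and `z'` are continuous on the ball and equal a.e., so equal on the ball (`B/McS.le_of_ae_le` twice).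
`z 0 = w 0` (the coordinates of `0` vanish), `di 0 y < ρ`.
-/

set_option autoImplicit false

namespace Pool.Agent.CG.K

open MeasureTheory Set Filter Topology
open scoped ContDiff ENNReal

variable {N m : ℕ}

theorem expand (G : Carnot N m) {ρ T : ℝ} (hρ : 0 < ρ) (hT : 0 ≤ T) {w : Pt N → ℝ} {W : Pt N → Hv m}
    (hw : Continuous w) (h : HW G 2 (G.B 0 (3 * ρ)) w W) {ξ : Hv m}
    (hW : ∀ᵐ y, y ∈ G.B 0 (3 * ρ) → ‖W y - ξ‖ ≤ T) :
    ∀ y ∈ G.B 0 ρ, |w y - w 0 - ∑ k, ξ k * y (G.hor k)| ≤ T * ρ := by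
  have h12 : (1 : ℝ≥0∞) ≤ 2 := by norm_num
  have hz : HW G 2 (G.B 0 (3 * ρ)) (fun y => w y - ∑ k, ξ k * y (G.hor k)) (fun y => W y - ξ) :=
    h.sub h12 (HW.linear ξ)
  obtain ⟨z', hz'c, hz'e, hz'l⟩ := hz.lip (by positivity) h12 hT hW
  have hO : IsOpen (G.B (0 : Pt N) (3 * ρ)) := G.isOpen_B 0 _
  have hc : Continuous fun y : Pt N => w y - ∑ k, ξ k * y (G.hor k) := by
    refine hw.sub (continuous_finsetSum _ fun k _ => ?_)
    exact continuous_const.mul (continuous_apply _)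
  have heq : ∀ y ∈ G.B (0 : Pt N) (3 * ρ), w y - ∑ k, ξ k * y (G.hor k) = z' y := by
    intro y hy
    refine le_antisymm ?_ ?_
    · exact le_of_ae_le hO hc.continuousOn hz'c (hz'e.mono fun x hx hxB => (hx hxB).le) y hy
    · exact le_of_ae_le hO hz'c hc.continuousOn (hz'e.mono fun x hx hxB => (hx hxB).ge) y hy
  intro y hy
  have h3 : 3 * ρ / 3 = ρ := by ring
  have h0 : (0 : Pt N) ∈ G.B 0 ρ := mem_B_self G 0 hρ
  have hsub : G.B (0 : Pt N) ρ ⊆ G.B 0 (3 * ρ) := B_mono G (by linarith)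
  have h4 := hz'l y (by rw [h3]; exact hy) 0 (by rw [h3]; exact h0)
  rw [← heq y (hsub hy), ← heq 0 (hsub h0)] at h4
  have h5 : ∑ k, ξ k * (0 : Pt N) (G.hor k) = 0 := by simp
  rw [h5, sub_zero] at h4
  have h6 : w y - w 0 - ∑ k, ξ k * y (G.hor k) = w y - ∑ k, ξ k * y (G.hor k) - w 0 := by ring
  rw [h6]
  refine h4.trans (mul_le_mul_of_nonneg_left ?_ hT)
  rw [G.di_comm]
  exact (G.mem_B.1 hy).le

end Pool.Agent.CG.K
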