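import Pool.Agent.CG.K.Point
import Pool.Agent.CG.K.CampA
import Pool.Agent.CG.K.CampH

/-!
# CG-K-Fin: assembly of Lemma N

PLAN.  `β, e1, C1` from `point`, `C2` from `camp_hol`; `e0 = e1 / 2 ^ Q`.  Let `E = av G x R (‖F - v‖²)`.
For `y ∈ B x (R / 2)`: `B y (R / 2) ⊆ B x R` (`K.B_sub`), `av G y (R / 2) (‖F - v‖²) ≤ 2 ^ Q * E ≤ e1` (`K.av_ball_le`,
`(R / (R / 2)) ^ Q = 2 ^ Q`), `Sol` on the smaller ball (`HW.mono`, `Test` is monotone in the set); `point` gives `V y`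
(`classical choose`, `V y = v` outside of the ball) with `‖V y - v‖² ≤ C1 2 ^ Q E` and for `r ≤ R / 2`
`av G y r (‖F - V y‖²) ≤ C1 (r / (R / 2)) ^ (2 β) 2 ^ Q E = C1 2 ^ (2 β) 2 ^ Q E (r / R) ^ (2 β)`.
Put `s = Real.sqrt (C3 E)`, `C3 = C1 * 4 * 2 ^ Q` (`2 ^ (2 β) ≤ 4`).  `camp_hol` gives the Hölder bound for `V`, with `C = C2 * sqrt C3`;
`camp_ae` with `S = R / 2`, `γ = β`, a suitable `K` (`(r / R) ^ (2 β) ≤ (r / R) ^ β = R ^ (-β) r ^ β`; `(di y z / R) ^ β = ..`)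
gives `F = V` a.e. on `B x (R / 2)` (`K.aesm_of_lqLoc` for the measurability; `2 * (R / 2) = R`).
-/

set_option autoImplicit false

namespace Pool.Agent.CG.K

open MeasureTheory Set Filter Topology
open scoped ContDiff ENNReal

variable {N m : ℕ}

theorem lemN' (G : Carnot N m) {a b L : ℝ} (ha0 : 0 ≤ a) (ha : a < 1) (hb : 0 ≤ b) (hL : 1 ≤ L) {c0 : ℝ}
    (hc0 : 0 < c0) : ∃ β : ℝ, 0 < β ∧ β < 1 ∧ ∃ e0 : ℝ, 0 < e0 ∧ ∃ C : ℝ, 0 < C ∧
    ∀ A : Hv m → Hv m, Nrm a b L A → ∀ (x : Pt N) (R : ℝ), 0 < R → ∀ (u : Pt N → ℝ) (F : Pt N → Hv m),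
    Sol G 2 (G.B x R) A u F → (∀ᵐ y, y ∈ G.B x R → ‖F y‖ ≤ 1) → ∀ v : Hv m, c0 ≤ ‖v‖ →
    av G x R (fun y => ‖F y - v‖ ^ 2) ≤ e0 →
    ∃ F' : Pt N → Hv m, (∀ᵐ y, y ∈ G.B x (R / 2) → F y = F' y) ∧
      ∀ y ∈ G.B x (R / 2), ∀ z ∈ G.B x (R / 2),
        ‖F' y - F' z‖ ≤ C * Real.sqrt (av G x R (fun y => ‖F y - v‖ ^ 2)) * (G.di y z / R) ^ β := by
  classical
  obtain ⟨β, hβ, hβ1, e1, he1, C1, hC1, hpt⟩ := point G ha0 ha hb hL hc0
  obtain ⟨C2, hC2, hcamp⟩ := camp_hol (m := m) G hβ hβ1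
  have h2Q : (0 : ℝ) < 2 ^ G.Q := by positivity
  set C3 : ℝ := C1 * 4 * 2 ^ G.Q with hC3
  have hC3p : 0 < C3 := by positivity
  refine ⟨β, hβ, hβ1, e1 / 2 ^ G.Q, by positivity, C2 * Real.sqrt C3, by positivity, ?_⟩
  intro A hA x R hR u F hS hF1 v hv hE
  set E : ℝ := av G x R (fun y => ‖F y - v‖ ^ 2) with hEdef
  have hE0 : 0 ≤ E := av_nonneg G fun y _ => by positivity
  have hint : ∀ w : Hv m, IntegrableOn (fun y => ‖F y - w‖ ^ 2) (G.B x R) :=
    fun w => intOn_sq G hS.lqg hF1 w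
  -- the limit slopes
  have hex : ∀ y ∈ G.B x (R / 2), ∃ V : Hv m, ‖V - v‖ ^ 2 ≤ C1 * (2 ^ G.Q * E) ∧
      ∀ r : ℝ, 0 < r → r ≤ R / 2 → av G y r (fun z => ‖F z - V‖ ^ 2) ≤
        C1 * (r / (R / 2)) ^ (2 * β) * (2 ^ G.Q * E) := by
    intro y hy
    have hsub : G.B y (R / 2) ⊆ G.B x R := by
      refine B_sub G ?_
      rw [G.mem_B] at hy
      linarith
    have hle : av G y (R / 2) (fun z => ‖F z - v‖ ^ 2) ≤ 2 ^ G.Q * E := by
      have h1 := av_ball_le G (half_pos hR) hR hsub (hint v) (fun z _ => by positivity)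
      have h2 : R / (R / 2) = 2 := by field_simp
      rw [h2] at h1
      exact h1
    have hle2 : 2 ^ G.Q * E ≤ e1 := by
      have := (le_div_iff₀ h2Q).1 hE
      linarith
    have hSol : Sol G 2 (G.B y (R / 2)) A u F := by
      refine ⟨⟨fun K hK hK' => hS.lq K hK (hK'.trans hsub),
        fun K hK hK' => hS.lqg K hK (hK'.trans hsub), fun φ hφ k => hS.weak φ ?_ k⟩,
        fun φ hφ => hS.eqn φ ?_⟩
      · exact { hφ with sub := hφ.sub.trans hsub }
      · exact { hφ with sub := hφ.sub.trans hsub }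
    obtain ⟨V, hV1, hV2⟩ := hpt A hA y (R / 2) (half_pos hR) u F hSol
      (by filter_upwards [hF1] with z hz hzB using hz (hsub hzB)) v hv (hle.trans hle2)
    refine ⟨V, hV1.trans (mul_le_mul_of_nonneg_left hle hC1.le), fun r hr hrR => ?_⟩
    refine (hV2 r hr hrR).trans (mul_le_mul_of_nonneg_left hle ?_)
    have : 0 ≤ (r / (R / 2)) ^ (2 * β) := Real.rpow_nonneg (by positivity) _
    positivity
  choose! V hV1 hV2 using hex
  set s : ℝ := Real.sqrt (C3 * E) with hs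
  have hs0 : 0 ≤ s := Real.sqrt_nonneg _
  have hs2 : s ^ 2 = C3 * E := Real.sq_sqrt (by positivity)
  have hss : s = Real.sqrt C3 * Real.sqrt E := Real.sqrt_mul hC3p.le E
  have k1 : ∀ y ∈ G.B x (R / 2), ‖V y - v‖ ≤ s := by
    intro y hy
    rw [hs]
    refine Real.le_sqrt_of_sq_le ((hV1 y hy).trans ?_)
    rw [hC3]
    have : 0 ≤ C1 * (2 ^ G.Q * E) := by positivity
    nlinarith
  have k2 : ∀ y ∈ G.B x (R / 2), ∀ r : ℝ, 0 < r → r ≤ R / 2 →
      av G y r (fun z => ‖F z - V y‖ ^ 2) ≤ (r / R) ^ (2 * β) * s ^ 2 := by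
    intro y hy r hr hrR
    refine (hV2 y hy r hr hrR).trans ?_
    have h1 : r / (R / 2) = 2 * (r / R) := by field_simp
    have h2 : (2 : ℝ) ^ (2 * β) ≤ 4 := by
      calc (2 : ℝ) ^ (2 * β) ≤ (2 : ℝ) ^ (2 : ℝ) :=
            Real.rpow_le_rpow_of_exponent_le (by norm_num) (by linarith)
        _ = 4 := by norm_num
    have h3 : 0 ≤ (r / R) ^ (2 * β) := Real.rpow_nonneg (by positivity) _
    rw [h1, Real.mul_rpow (by norm_num) (by positivity), hs2, hC3]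
    have h4 : 0 ≤ C1 * (2 ^ G.Q * E) * (r / R) ^ (2 * β) := by positivity
    have h5 := mul_le_mul_of_nonneg_right h2 h4
    nlinarith
  have k3 := hcamp x R hR F V v 1 s hs0 hS.lqg hF1 k1 k2
  refine ⟨V, ?_, fun y hy z hz => ?_⟩
  · have hR0 : 0 < R ^ β := Real.rpow_pos_of_pos hR _
    have h2R : 2 * (R / 2) = R := by ring
    refine camp_ae G (S := R / 2) (K := (s ^ 2 + C2 * s) / R ^ β) (γ := β) (half_pos hR)
      (by positivity) hβ (M := 1) (by rw [h2R]; exact aesm_of_lqLoc G hS.lqg)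
      (by rw [h2R]; exact hF1) ?_ ?_
    · intro y hy r hr hrR
      refine (k2 y hy r hr hrR).trans ?_
      have h1 : r / R ≤ 1 := by rw [div_le_one hR]; linarith
      have h2 : (r / R) ^ (2 * β) ≤ (r / R) ^ β :=
        Real.rpow_le_rpow_of_exponent_ge (by positivity) h1 (by linarith)
      have h3 : (r / R) ^ β = r ^ β / R ^ β := Real.div_rpow hr.le hR.le β
      have h4 : 0 ≤ r ^ β := Real.rpow_nonneg hr.le _
      calc (r / R) ^ (2 * β) * s ^ 2 ≤ (r / R) ^ β * s ^ 2 :=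
            mul_le_mul_of_nonneg_right h2 (by positivity)
        _ = s ^ 2 / R ^ β * r ^ β := by rw [h3]; ring
        _ ≤ (s ^ 2 + C2 * s) / R ^ β * r ^ β := by
            refine mul_le_mul_of_nonneg_right ?_ h4
            refine div_le_div_of_nonneg_right ?_ hR0.le
            have : 0 ≤ C2 * s := by positivity
            linarith
    · intro y hy z hz
      refine (k3 y hy z hz).trans ?_
      have h0 : 0 ≤ G.di y z := by
        exact G.di_nonneg y z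
      have h3 : (G.di y z / R) ^ β = G.di y z ^ β / R ^ β := Real.div_rpow h0 hR.le β
      have h4 : 0 ≤ G.di y z ^ β := Real.rpow_nonneg h0 _
      calc C2 * s * (G.di y z / R) ^ β = C2 * s / R ^ β * G.di y z ^ β := by rw [h3]; ring
        _ ≤ (s ^ 2 + C2 * s) / R ^ β * G.di y z ^ β := by
            refine mul_le_mul_of_nonneg_right ?_ h4
            refine div_le_div_of_nonneg_right ?_ hR0.le
            have : 0 ≤ s ^ 2 := by positivity
            linarith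
  · refine (k3 y hy z hz).trans (le_of_eq ?_)
    rw [hss]
    ring

end Pool.Agent.CG.K
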