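import Pool.Agent.CG.K.OneStep

/-!
# CG-K-Iter: iteration of the one-step decay

PLAN.  Apply `one_step` with `c0 / 2` in place of `c0`; get `β, θ, e1, C1`.  Put `q = θ ^ β < 1` (`Real.rpow_lt_one`),
`θ ^ (2 * β) = q ^ 2` (`Real.rpow_mul`).  `C = Real.sqrt C1`, `e0 = min e1 ((1 - q) * (c0 / 2) / C) ^ 2`.
Let `E = av G x R (‖F - v‖²)` (`0 ≤ E`, `K.av_nonneg`).  By induction on `n` (dependent choice: construct the sequence
with `Nat.rec` on the subtype, or prove `∀ n, ∃ V : ℕ → Hv m, ...` for `k ≤ n`; simplest: strong property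
`Q n w : av G x (θ ^ n * R) (‖F - w‖²) ≤ (q ^ 2) ^ n * E ∧ ‖w - v‖ ≤ C * Real.sqrt E * (∑ k ∈ range n, q ^ k)`, and
`∀ n w, Q n w → ∃ w', Q (n + 1) w' ∧ ‖w' - w‖ ≤ C * q ^ n * Real.sqrt E`; then `Nat.rec` with `Classical.choose`).
Step: `∑ q ^ k ≤ 1 / (1 - q)`, so `‖w - v‖ ≤ c0 / 2` and `‖w‖ ≥ c0 / 2`; `(q ^ 2) ^ n * E ≤ E ≤ e1`; apply the one-step
decay on the ball of radius `θ ^ n * R` (`Sol` restricted to the smaller ball: `HW.mono` and the test functions of a smaller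
set are test functions of the larger set; `K.B_mono`); `θ * (θ ^ n * R) = θ ^ (n + 1) * R`;
`‖w' - w‖² ≤ C1 * (q ^ 2) ^ n * E = (C * q ^ n * sqrt E)²`.
-/

set_option autoImplicit false

namespace Pool.Agent.CG.K

open MeasureTheory Set Filter Topology
open scoped ContDiff ENNReal

variable {N m : ℕ}

private theorem iter_sol_mono {G : Carnot N m} {q : ℝ≥0∞} {Ω Ω' : Set (Pt N)} {A : Hv m → Hv m}
    {u : Pt N → ℝ} {F : Pt N → Hv m} (h : Sol G q Ω A u F) (hs : Ω' ⊆ Ω) : Sol G q Ω' A u F where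
  lq K hK hKs := h.lq K hK (hKs.trans hs)
  lqg K hK hKs := h.lqg K hK (hKs.trans hs)
  weak φ hφ k := h.weak φ ⟨hφ.smooth, hφ.cpt, hφ.sub.trans hs⟩ k
  eqn φ hφ := h.eqn φ ⟨hφ.smooth, hφ.cpt, hφ.sub.trans hs⟩

theorem iter (G : Carnot N m) {a b L : ℝ} (ha0 : 0 ≤ a) (ha : a < 1) (hb : 0 ≤ b) (hL : 1 ≤ L)
    {c0 : ℝ} (hc0 : 0 < c0) : ∃ β : ℝ, 0 < β ∧ β < 1 ∧ ∃ θ : ℝ, 0 < θ ∧ θ ≤ 1 / 4 ∧
    ∃ e0 : ℝ, 0 < e0 ∧ ∃ C : ℝ, 0 < C ∧ ∀ A : Hv m → Hv m, Nrm a b L A →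
    ∀ (x : Pt N) (R : ℝ), 0 < R → ∀ (u : Pt N → ℝ) (F : Pt N → Hv m), Sol G 2 (G.B x R) A u F →
    (∀ᵐ y, y ∈ G.B x R → ‖F y‖ ≤ 1) → ∀ v : Hv m, c0 ≤ ‖v‖ →
    av G x R (fun y => ‖F y - v‖ ^ 2) ≤ e0 →
    ∃ V : ℕ → Hv m, V 0 = v ∧
      (∀ n, ‖V (n + 1) - V n‖ ≤ C * (θ ^ β) ^ n * Real.sqrt (av G x R (fun y => ‖F y - v‖ ^ 2))) ∧
      ∀ n, av G x (θ ^ n * R) (fun y => ‖F y - V n‖ ^ 2) ≤
        ((θ ^ β) ^ 2) ^ n * av G x R (fun y => ‖F y - v‖ ^ 2) := by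
  obtain ⟨β, hβ0, hβ1, θ, hθ0, hθ4, e1, he1, C1, hC1, H⟩ :=
    one_step G ha0 ha hb hL (c0 := c0 / 2) (by linarith)
  obtain ⟨q, hq⟩ : ∃ q : ℝ, q = θ ^ β := ⟨_, rfl⟩
  have hq0 : 0 < q := by rw [hq]; exact Real.rpow_pos_of_pos hθ0 _
  have hq1 : q < 1 := by rw [hq]; exact Real.rpow_lt_one hθ0.le (by linarith) hβ0
  have hq2 : θ ^ (2 * β) = q ^ 2 := by
    rw [hq, mul_comm, Real.rpow_mul hθ0.le, Real.rpow_two]
  have h1q : 0 < 1 - q := by linarith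
  have hC : 0 < Real.sqrt C1 := Real.sqrt_pos.2 hC1
  obtain ⟨C, hCd⟩ : ∃ C : ℝ, C = Real.sqrt C1 := ⟨_, rfl⟩
  rw [← hCd] at hC
  have hCsq : C ^ 2 = C1 := by rw [hCd]; exact Real.sq_sqrt hC1.le
  have hpos : 0 < (1 - q) * (c0 / 2) / C := by positivity
  refine ⟨β, hβ0, hβ1, θ, hθ0, hθ4, min e1 (((1 - q) * (c0 / 2) / C) ^ 2),
    lt_min he1 (by positivity), C, hC, ?_⟩
  intro A hA x R hR u F hS hF v hv hE
  rw [← hq]
  obtain ⟨E, hEd⟩ : ∃ E : ℝ, E = av G x R (fun y => ‖F y - v‖ ^ 2) := ⟨_, rfl⟩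
  rw [← hEd] at hE ⊢
  have hE0 : 0 ≤ E := by
    rw [hEd]
    exact av_nonneg G fun y _ => sq_nonneg _
  have hEe1 : E ≤ e1 := hE.trans (min_le_left _ _)
  obtain ⟨r, hr⟩ : ∃ r : ℝ, r = Real.sqrt E := ⟨_, rfl⟩
  have hr0 : 0 ≤ r := by rw [hr]; exact Real.sqrt_nonneg _
  have hrsq : r ^ 2 = E := by rw [hr]; exact Real.sq_sqrt hE0
  rw [← hr]
  have hCr : C * r ≤ (1 - q) * (c0 / 2) := by
    have h1 : r ≤ (1 - q) * (c0 / 2) / C := by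
      rw [hr]
      exact Real.sqrt_le_iff.2 ⟨hpos.le, hE.trans (min_le_right _ _)⟩
    rw [le_div_iff₀ hC] at h1
    linarith
  have hgeom : ∀ n : ℕ, C * r * ∑ k ∈ Finset.range n, q ^ k ≤ c0 / 2 := by
    intro n
    have h1 := geom_sum_mul_neg q n
    have h2 : (∑ k ∈ Finset.range n, q ^ k) * (1 - q) ≤ 1 := by
      rw [h1]
      have : 0 ≤ q ^ n := pow_nonneg hq0.le n
      linarith
    have h3 : 0 ≤ ∑ k ∈ Finset.range n, q ^ k := Finset.sum_nonneg fun k _ => pow_nonneg hq0.le k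
    calc C * r * ∑ k ∈ Finset.range n, q ^ k
        ≤ (1 - q) * (c0 / 2) * ∑ k ∈ Finset.range n, q ^ k := mul_le_mul_of_nonneg_right hCr h3
      _ = c0 / 2 * ((∑ k ∈ Finset.range n, q ^ k) * (1 - q)) := by ring
      _ ≤ c0 / 2 * 1 := mul_le_mul_of_nonneg_left h2 (by linarith)
      _ = c0 / 2 := mul_one _
  have step : ∀ (n : ℕ) (w : {w : Hv m // av G x (θ ^ n * R) (fun y => ‖F y - w‖ ^ 2) ≤
      (q ^ 2) ^ n * E ∧ ‖w - v‖ ≤ C * r * ∑ k ∈ Finset.range n, q ^ k}),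
      ∃ w' : {w : Hv m // av G x (θ ^ (n + 1) * R) (fun y => ‖F y - w‖ ^ 2) ≤
      (q ^ 2) ^ (n + 1) * E ∧ ‖w - v‖ ≤ C * r * ∑ k ∈ Finset.range (n + 1), q ^ k},
      ‖w'.1 - w.1‖ ≤ C * q ^ n * r := by
    rintro n ⟨w, hw1, hw2⟩
    have hθn : 0 < θ ^ n := pow_pos hθ0 n
    have hθn1 : θ ^ n ≤ 1 := pow_le_one₀ hθ0.le (by linarith)
    have hsub : G.B x (θ ^ n * R) ⊆ G.B x R :=
      B_mono G (mul_le_of_le_one_left hR.le hθn1)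
    have hq2n : (q ^ 2) ^ n ≤ 1 := pow_le_one₀ (sq_nonneg _) (by nlinarith)
    have hnorm : c0 / 2 ≤ ‖w‖ := by
      have h1 := hw2.trans (hgeom n)
      have h2 : ‖v‖ ≤ ‖w‖ + ‖w - v‖ := by
        have := norm_sub_le w (w - v)
        rwa [sub_sub_cancel] at this
      linarith
    have hav : av G x (θ ^ n * R) (fun y => ‖F y - w‖ ^ 2) ≤ e1 :=
      hw1.trans ((mul_le_of_le_one_left hE0 hq2n).trans hEe1)
    obtain ⟨w', h1, h2⟩ := H A hA x (θ ^ n * R) (by positivity) u F (iter_sol_mono hS hsub)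
      (hF.mono fun y hy hyB => hy (hsub hyB)) w hnorm hav
    have h3 : ‖w' - w‖ ≤ C * q ^ n * r := by
      have h4 : ‖w' - w‖ ^ 2 ≤ (C * q ^ n * r) ^ 2 := by
        have h5 : (C * q ^ n * r) ^ 2 = C1 * ((q ^ 2) ^ n * E) := by
          rw [← hCsq, ← hrsq, ← pow_mul, mul_comm 2 n, pow_mul]
          ring
        rw [h5]
        exact h1.trans (mul_le_mul_of_nonneg_left hw1 hC1.le)
      exact (pow_le_pow_iff_left₀ (norm_nonneg _) (by positivity) two_ne_zero).1 h4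
    refine ⟨⟨w', ?_, ?_⟩, h3⟩
    · have h4 : θ ^ (n + 1) * R = θ * (θ ^ n * R) := by ring
      rw [h4]
      refine h2.trans ?_
      have h5 : (q ^ 2) ^ (n + 1) * E = q ^ 2 * ((q ^ 2) ^ n * E) := by ring
      rw [hq2, h5]
      exact mul_le_mul_of_nonneg_left hw1 (sq_nonneg _)
    · rw [Finset.sum_range_succ, mul_add]
      have h4 : ‖w' - v‖ ≤ ‖w' - w‖ + ‖w - v‖ := by
        have := norm_add_le (w' - w) (w - v)
        rwa [sub_add_sub_cancel] at this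
      have h5 : C * r * q ^ n = C * q ^ n * r := by ring
      rw [h5]
      linarith
  choose f hf using step
  have base : av G x (θ ^ 0 * R) (fun y => ‖F y - v‖ ^ 2) ≤ (q ^ 2) ^ 0 * E ∧
      ‖v - v‖ ≤ C * r * ∑ k ∈ Finset.range 0, q ^ k := by
    constructor
    · rw [pow_zero, pow_zero, one_mul, one_mul, hEd]
    · rw [sub_self, norm_zero, Finset.sum_range_zero, mul_zero]
  let V : (n : ℕ) → {w : Hv m // av G x (θ ^ n * R) (fun y => ‖F y - w‖ ^ 2) ≤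
      (q ^ 2) ^ n * E ∧ ‖w - v‖ ≤ C * r * ∑ k ∈ Finset.range n, q ^ k} :=
    fun n => Nat.rec ⟨v, base⟩ (fun n w => f n w) n
  exact ⟨fun n => (V n).1, rfl, fun n => hf n (V n), fun n => (V n).2.1⟩

end Pool.Agent.CG.K
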