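import Pool.Agent.CG.K.Map
import Pool.Agent.CG.B.Calc
import Pool.Agent.CG.A.Ball

/-!
# CG-K-LimEq: the limit solves the limit equation

PLAN.  `f n = Bl (A n) (v n) (ε n)`, `S = G.B 0 r'`.  Pointwise (a.e. on `S`): if `ε n * ‖W' x‖ ≤ c0 / 2` then
`‖f n (W n x) - f n (W' x)‖ ≤ C ‖W n x - W' x‖` (`bl_lip`), otherwise `≤ C (‖W n x‖ + ‖W' x‖) ≤ C (‖W n x - W' x‖ + 2 ‖W' x‖)`
(`bl_bd`).  All terms tend to `0` in `L¹(S)`.
-/

set_option autoImplicit false

namespace Pool.Agent.CG.K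

open MeasureTheory Set Filter Topology
open scoped ContDiff ENNReal

variable {N m : ℕ}

private theorem cs_one {μ : Measure (Pt N)} [IsFiniteMeasure μ] {g : Pt N → ℝ} (hg : Integrable g μ)
    (hg2 : Integrable (fun x => g x ^ 2) μ) : (∫ x, g x ∂μ) ^ 2 ≤ μ.real univ * ∫ x, g x ^ 2 ∂μ := by
  have h : ∀ t : ℝ, 0 ≤ μ.real univ * (t * t) + (-(2 * ∫ x, g x ∂μ)) * t + ∫ x, g x ^ 2 ∂μ := by
    intro t
    have h1 : 0 ≤ ∫ x, (g x - t) ^ 2 ∂μ := integral_nonneg fun x => sq_nonneg _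
    have h2 : ∫ x, (g x - t) ^ 2 ∂μ = (∫ x, g x ^ 2 ∂μ) - (∫ x, (2 * t) * g x ∂μ) + ∫ _x, t ^ 2 ∂μ := by
      have i1 : Integrable (fun x => g x ^ 2 - (2 * t) * g x) μ := hg2.sub (hg.const_mul _)
      rw [← integral_sub hg2 (hg.const_mul _), ← integral_add i1 (integrable_const _)]
      refine integral_congr_ae (Eventually.of_forall fun x => ?_)
      simp only
      ring
    rw [h2, integral_const_mul, integral_const, smul_eq_mul] at h1
    linarith
  have := discrim_le_zero h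
  rw [discrim] at this
  nlinarith

private theorem l1_of_l2 {μ : Measure (Pt N)} [IsFiniteMeasure μ] {g : ℕ → Pt N → Hv m}
    (hg : ∀ k, MemLp (g k) 2 μ) (hs : Tendsto (fun k => ∫ x, ‖g k x‖ ^ 2 ∂μ) atTop (𝓝 0)) :
    Tendsto (fun k => ∫ x, ‖g k x‖ ∂μ) atTop (𝓝 0) := by
  have h1 : ∀ k, (∫ x, ‖g k x‖ ∂μ) ^ 2 ≤ μ.real univ * ∫ x, ‖g k x‖ ^ 2 ∂μ := fun k =>
    cs_one ((hg k).integrable one_le_two).norm ((hg k).integrable_norm_pow (by norm_num))
  have h2 : Tendsto (fun k => Real.sqrt (μ.real univ * ∫ x, ‖g k x‖ ^ 2 ∂μ)) atTop (𝓝 0) := by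
    have := (hs.const_mul (μ.real univ)).sqrt
    simpa using this
  refine squeeze_zero (fun k => integral_nonneg fun x => norm_nonneg _) (fun k => ?_) h2
  exact Real.le_sqrt_of_sq_le (h1 k)

theorem lim_eq (G : Carnot N m) {c0 c C r' : ℝ} (hc0 : 0 < c0) (hc : 0 < c) (hC : 0 < C)
    (A : ℕ → Hv m → Hv m)
    (hA : ∀ n, Tr c0 c C (A n)) (v : ℕ → Hv m) (hv : ∀ n, c0 ≤ ‖v n‖) (ε : ℕ → ℝ) (hε : ∀ n, 0 < ε n)
    (hε0 : Tendsto ε atTop (𝓝 0)) {B : Hv m → Hv m} (hBc : Continuous B)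
    (hB : ∀ ξ, Tendsto (fun n => Bl (A n) (v n) (ε n) ξ) atTop (𝓝 (B ξ)))
    {w' : Pt N → ℝ} {W : ℕ → Pt N → Hv m} {W' : Pt N → Hv m}
    (hm : ∀ k, MemLp (W k) 2 (volume.restrict (G.B 0 r')))
    (heq : ∀ k, ∀ φ : Pt N → ℝ, Test (G.B 0 r') φ →
      ∫ x, inner ℝ (Bl (A k) (v k) (ε k) (W k x)) (G.grad φ x) = 0)
    (h' : HW G 2 (G.B 0 r') w' W') (hm' : MemLp W' 2 (volume.restrict (G.B 0 r')))
    (hs : Tendsto (fun k => ∫ y in G.B 0 r', ‖W k y - W' y‖ ^ 2) atTop (𝓝 0)) :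
    Sol G 2 (G.B 0 r') B w' W' := by
  refine ⟨h', fun φ hφ => ?_⟩
  have hfin : IsFiniteMeasure (volume.restrict (G.B 0 r')) :=
    ⟨by rw [Measure.restrict_apply_univ]; exact G.vol_B_lt_top 0 r'⟩
  set μ := volume.restrict (G.B 0 r') with hμ
  set f : ℕ → Hv m → Hv m := fun k => Bl (A k) (v k) (ε k) with hf
  have hfc : ∀ k, Continuous (f k) := fun k => bl_cont (hA k)
  have hfb : ∀ k ξ, ‖f k ξ‖ ≤ C * ‖ξ‖ := fun k ξ => bl_bd hc0 (hA k) (hv k) (hε k) ξ
  have hBb : ∀ ξ, ‖B ξ‖ ≤ C * ‖ξ‖ := fun ξ => le_of_tendsto' (hB ξ).norm (fun k => hfb k ξ)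
  have hW1 : ∀ k, Integrable (W k) μ := fun k => (hm k).integrable one_le_two
  have hW'1 : Integrable W' μ := hm'.integrable one_le_two
  set ind : ℕ → ℝ → ℝ := fun k t => if c0 / 2 < ε k * t then t else 0 with hind
  have hindm : ∀ k, Measurable (ind k) := fun k =>
    Measurable.ite (measurableSet_lt measurable_const (measurable_const.mul measurable_id))
      measurable_id measurable_const
  have hindam : ∀ k, AEStronglyMeasurable (fun x => ind k ‖W' x‖) μ := fun k =>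
    ((hindm k).comp_aemeasurable hW'1.aestronglyMeasurable.norm.aemeasurable).aestronglyMeasurable
  have hindb : ∀ k x, ‖ind k ‖W' x‖‖ ≤ ‖W' x‖ := by
    intro k x
    simp only [hind]
    split_ifs
    · rw [norm_norm]
    · rw [norm_zero]; exact norm_nonneg _
  -- pointwise bound
  have hpt : ∀ k x, ‖f k (W k x) - B (W' x)‖ ≤
      C * ‖W k x - W' x‖ + 2 * C * ind k ‖W' x‖ + ‖f k (W' x) - B (W' x)‖ := by
    intro k x
    have h1 : ‖f k (W k x) - B (W' x)‖ ≤ ‖f k (W k x) - f k (W' x)‖ + ‖f k (W' x) - B (W' x)‖ := by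
      have := norm_add_le (f k (W k x) - f k (W' x)) (f k (W' x) - B (W' x))
      rwa [sub_add_sub_cancel] at this
    have h2 : ‖f k (W k x) - f k (W' x)‖ ≤ C * ‖W k x - W' x‖ + 2 * C * ind k ‖W' x‖ := by
      simp only [hind]
      split_ifs with hif
      · have h3 := norm_sub_le (f k (W k x)) (f k (W' x))
        have h4 := hfb k (W k x)
        have h5 := hfb k (W' x)
        have h6 : ‖W k x‖ ≤ ‖W k x - W' x‖ + ‖W' x‖ := by
          have := norm_add_le (W k x - W' x) (W' x)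
          rwa [sub_add_cancel] at this
        nlinarith [mul_le_mul_of_nonneg_left h6 hC.le]
      · push Not at hif
        rw [mul_zero, add_zero]
        exact bl_lip hc0 (hA k) (hv k) (hε k) hif (W k x)
    linarith
  -- the three limits
  have t1 : Tendsto (fun k => ∫ x, ‖W k x - W' x‖ ∂μ) atTop (𝓝 0) :=
    l1_of_l2 (g := fun k x => W k x - W' x) (fun k => (hm k).sub hm') hs
  have t2 : Tendsto (fun k => ∫ x, ind k ‖W' x‖ ∂μ) atTop (𝓝 0) := by
    have h0 : (0 : ℝ) = ∫ _x : Pt N, (0 : ℝ) ∂μ := by rw [integral_zero]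
    rw [h0]
    refine tendsto_integral_of_dominated_convergence (fun x => ‖W' x‖) hindam hW'1.norm
      (fun k => Eventually.of_forall fun x => hindb k x) (Eventually.of_forall fun x => ?_)
    have h1 : Tendsto (fun k => ε k * ‖W' x‖) atTop (𝓝 0) := by
      have := hε0.mul_const ‖W' x‖
      rwa [zero_mul] at this
    have h2 : ∀ᶠ k in atTop, ε k * ‖W' x‖ < c0 / 2 := h1.eventually_lt_const (by positivity)
    refine tendsto_const_nhds.congr' ?_
    filter_upwards [h2] with k hk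
    simp only [hind]
    rw [if_neg (not_lt.2 hk.le)]
  have hBW : AEStronglyMeasurable (fun x => B (W' x)) μ :=
    hBc.comp_aestronglyMeasurable hW'1.aestronglyMeasurable
  have hfW' : ∀ k, AEStronglyMeasurable (fun x => f k (W' x)) μ := fun k =>
    (hfc k).comp_aestronglyMeasurable hW'1.aestronglyMeasurable
  have hfW : ∀ k, AEStronglyMeasurable (fun x => f k (W k x)) μ := fun k =>
    (hfc k).comp_aestronglyMeasurable (hW1 k).aestronglyMeasurable
  have hdb : ∀ k x, ‖f k (W' x) - B (W' x)‖ ≤ 2 * C * ‖W' x‖ := by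
    intro k x
    have h1 := norm_sub_le (f k (W' x)) (B (W' x))
    have h2 := hfb k (W' x)
    have h3 := hBb (W' x)
    linarith
  have t3 : Tendsto (fun k => ∫ x, ‖f k (W' x) - B (W' x)‖ ∂μ) atTop (𝓝 0) := by
    have h0 : (0 : ℝ) = ∫ _x : Pt N, (0 : ℝ) ∂μ := by rw [integral_zero]
    rw [h0]
    refine tendsto_integral_of_dominated_convergence (fun x => 2 * C * ‖W' x‖)
      (fun k => ((hfW' k).sub hBW).norm) (hW'1.norm.const_mul _)
      (fun k => Eventually.of_forall fun x => by rw [norm_norm]; exact hdb k x)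
      (Eventually.of_forall fun x => ?_)
    have := ((hB (W' x)).sub_const (B (W' x))).norm
    simpa using this
  -- integrability
  have i1 : ∀ k, Integrable (fun x => C * ‖W k x - W' x‖) μ := fun k =>
    ((hW1 k).sub hW'1).norm.const_mul _
  have i2 : ∀ k, Integrable (fun x => 2 * C * ind k ‖W' x‖) μ := fun k =>
    (Integrable.mono' hW'1.norm (hindam k) (Eventually.of_forall fun x => hindb k x)).const_mul _
  have i3 : ∀ k, Integrable (fun x => ‖f k (W' x) - B (W' x)‖) μ := fun k =>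
    Integrable.mono' (hW'1.norm.const_mul (2 * C)) ((hfW' k).sub hBW).norm
      (Eventually.of_forall fun x => by rw [norm_norm]; exact hdb k x)
  have ifW : ∀ k, Integrable (fun x => f k (W k x)) μ := fun k =>
    Integrable.mono' ((hW1 k).norm.const_mul C) (hfW k) (Eventually.of_forall fun x => hfb k _)
  have iBW : Integrable (fun x => B (W' x)) μ :=
    Integrable.mono' (hW'1.norm.const_mul C) hBW (Eventually.of_forall fun x => hBb _)
  obtain ⟨D, hD0, hD⟩ := hφ.bdd_grad G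
  have hgc : Continuous (G.grad φ) := hφ.continuous_grad
  have hinn : ∀ H : Pt N → Hv m, Integrable H μ → Integrable (fun x => inner ℝ (H x) (G.grad φ x)) μ := by
    intro H hH
    refine Integrable.mono' (hH.norm.const_mul D)
      (hH.aestronglyMeasurable.inner hgc.aestronglyMeasurable) (Eventually.of_forall fun x => ?_)
    calc ‖inner ℝ (H x) (G.grad φ x)‖ ≤ ‖H x‖ * ‖G.grad φ x‖ := norm_inner_le_norm _ _
      _ ≤ ‖H x‖ * D := by gcongr; exact hD x
      _ = D * ‖H x‖ := mul_comm _ _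
  have hres : ∀ H : Pt N → Hv m, ∫ x, inner ℝ (H x) (G.grad φ x) =
      ∫ x, inner ℝ (H x) (G.grad φ x) ∂μ := by
    intro H
    rw [hμ]
    refine (setIntegral_eq_integral_of_forall_compl_eq_zero fun x hx => ?_).symm
    rw [hφ.grad_eq_zero hx, inner_zero_right]
  have key : ∀ k, ‖∫ x, inner ℝ (B (W' x)) (G.grad φ x)‖ ≤
      D * (C * (∫ x, ‖W k x - W' x‖ ∂μ) + 2 * C * (∫ x, ind k ‖W' x‖ ∂μ) +
        ∫ x, ‖f k (W' x) - B (W' x)‖ ∂μ) := by
    intro k
    have e0 : ∫ x, inner ℝ (f k (W k x)) (G.grad φ x) ∂μ = 0 := by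
      rw [← hres]
      exact heq k φ hφ
    have e1 : ∫ x, inner ℝ (B (W' x)) (G.grad φ x) =
        -∫ x, inner ℝ (f k (W k x) - B (W' x)) (G.grad φ x) ∂μ := by
      rw [hres]
      simp only [inner_sub_left]
      rw [integral_sub (hinn _ (ifW k)) (hinn _ iBW), e0]
      ring
    rw [e1, norm_neg]
    calc ‖∫ x, inner ℝ (f k (W k x) - B (W' x)) (G.grad φ x) ∂μ‖
        ≤ ∫ x, D * (C * ‖W k x - W' x‖ + 2 * C * ind k ‖W' x‖ + ‖f k (W' x) - B (W' x)‖) ∂μ := by
          refine norm_integral_le_of_norm_le ((((i1 k).add (i2 k)).add (i3 k)).const_mul D)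
            (Eventually.of_forall fun x => ?_)
          calc ‖inner ℝ (f k (W k x) - B (W' x)) (G.grad φ x)‖
              ≤ ‖f k (W k x) - B (W' x)‖ * ‖G.grad φ x‖ := norm_inner_le_norm _ _
            _ ≤ (C * ‖W k x - W' x‖ + 2 * C * ind k ‖W' x‖ + ‖f k (W' x) - B (W' x)‖) * D :=
                mul_le_mul (hpt k x) (hD x) (norm_nonneg _) ((norm_nonneg _).trans (hpt k x))
            _ = _ := mul_comm _ _
      _ = _ := by
          have i12 : Integrable (fun x => C * ‖W k x - W' x‖ + 2 * C * ind k ‖W' x‖) μ :=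
            (i1 k).add (i2 k)
          rw [integral_const_mul, integral_add i12 (i3 k), integral_add (i1 k) (i2 k),
            integral_const_mul, integral_const_mul]
  have hlim : Tendsto (fun k => D * (C * (∫ x, ‖W k x - W' x‖ ∂μ) + 2 * C * (∫ x, ind k ‖W' x‖ ∂μ) +
      ∫ x, ‖f k (W' x) - B (W' x)‖ ∂μ)) atTop (𝓝 0) := by
    have := (((t1.const_mul C).add (t2.const_mul (2 * C))).add t3).const_mul D
    simpa using this
  have := ge_of_tendsto' hlim key
  exact norm_eq_zero.1 (le_antisymm this (norm_nonneg _))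

end Pool.Agent.CG.K
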