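import Pool.Agent.CG.K.Map
import Pool.Agent.CG.J.Arz

/-!
# CG-K-MapLim: limits of blow-up maps are in the class `UU`

PLAN.  `arzela` (file `J/Arz`) for `f n = Bl (A n) (v n) (ε n)` on `X = E = Hv m`: bounded by `bl_bd`; for `ξ` fixed
`ε n * ‖ξ‖ ≤ c0 / 2` for large `n`, so `bl_lip` gives equicontinuity at `ξ` (`δ = e / (C + 1)`).  The limit `B`: for `ξ, ζ` fixed
and `n` large `bl_mono` and `bl_lip` hold at `ξ`; pass to the limit (uniform convergence on compacts gives pointwise convergence).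
-/

set_option autoImplicit false

namespace Pool.Agent.CG.K

open MeasureTheory Set Filter Topology
open scoped ContDiff ENNReal

variable {m : ℕ}

theorem map_lim {c0 c C : ℝ} (hc0 : 0 < c0) (hC : 0 < C) (A : ℕ → Hv m → Hv m)
    (hA : ∀ n, Tr c0 c C (A n)) (v : ℕ → Hv m) (hv : ∀ n, c0 ≤ ‖v n‖) (ε : ℕ → ℝ) (hε : ∀ n, 0 < ε n)
    (hε0 : Tendsto ε atTop (𝓝 0)) : ∃ s : ℕ → ℕ, StrictMono s ∧ ∃ B : Hv m → Hv m, UU c C B ∧
      ∀ ξ, Tendsto (fun n => Bl (A (s n)) (v (s n)) (ε (s n)) ξ) atTop (𝓝 (B ξ)) := by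
  have hsmall : ∀ ξ : Hv m, ∀ᶠ n in atTop, ε n * ‖ξ‖ ≤ c0 / 2 := by
    intro ξ
    have h1 : Tendsto (fun n => ε n * ‖ξ‖) atTop (𝓝 (0 * ‖ξ‖)) := hε0.mul_const _
    rw [MulZeroClass.zero_mul] at h1
    exact h1.eventually (eventually_le_nhds (by positivity))
  obtain ⟨s, hs, g, -, hg⟩ := arzela (fun n => Bl (A n) (v n) (ε n))
    (fun ξ => ⟨C * ‖ξ‖, Eventually.of_forall fun n => bl_bd hc0 (hA n) (hv n) (hε n) ξ⟩)
    (fun ξ e he => by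
      refine ⟨e / (C + 1), by positivity, ?_⟩
      filter_upwards [hsmall ξ] with n hn ζ hζ
      refine (bl_lip hc0 (hA n) (hv n) (hε n) hn ζ).trans ?_
      rw [dist_eq_norm] at hζ
      have h1 : C * ‖ζ - ξ‖ ≤ C * (e / (C + 1)) := mul_le_mul_of_nonneg_left hζ.le hC.le
      refine h1.trans ?_
      rw [mul_div_assoc', div_le_iff₀ (by positivity)]
      nlinarith)
  have hlim : ∀ ξ, Tendsto (fun n => Bl (A (s n)) (v (s n)) (ε (s n)) ξ) atTop (𝓝 (g ξ)) :=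
    fun ξ => (hg {ξ} isCompact_singleton).tendsto_at (mem_singleton ξ)
  have hsm : ∀ ξ : Hv m, ∀ᶠ n in atTop, ε (s n) * ‖ξ‖ ≤ c0 / 2 := fun ξ =>
    hs.tendsto_atTop.eventually (hsmall ξ)
  refine ⟨s, hs, g, ⟨fun ξ ζ => ?_, fun ξ ζ => ?_⟩, hlim⟩
  · have h1 : Tendsto (fun n => inner ℝ (Bl (A (s n)) (v (s n)) (ε (s n)) ξ -
        Bl (A (s n)) (v (s n)) (ε (s n)) ζ) (ξ - ζ)) atTop (𝓝 (inner ℝ (g ξ - g ζ) (ξ - ζ))) :=
      ((hlim ξ).sub (hlim ζ)).inner tendsto_const_nhds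
    refine ge_of_tendsto h1 ?_
    filter_upwards [hsm ζ] with n hn
    exact bl_mono hc0 (hA _) (hv _) (hε _) hn ξ
  · have h1 : Tendsto (fun n => ‖Bl (A (s n)) (v (s n)) (ε (s n)) ξ -
        Bl (A (s n)) (v (s n)) (ε (s n)) ζ‖) atTop (𝓝 ‖g ξ - g ζ‖) :=
      ((hlim ξ).sub (hlim ζ)).norm
    refine le_of_tendsto h1 ?_
    filter_upwards [hsm ζ] with n hn
    exact bl_lip hc0 (hA _) (hv _) (hε _) hn ξ

end Pool.Agent.CG.K
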