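import Pool.Agent.CG.K.Map
import Pool.Agent.CG.K.Av
import Pool.Agent.CG.B.Approx
import Pool.Agent.CG.A.Cut

/-!
# CG-K-Strong: strong convergence of the gradients of the blow-ups

PLAN.  `Ω = G.B 0 r`, `f n = Bl (A n) (v n) (ε n)`.  Test the equation with `z = η (w n - w')`,
`Z = η (W n - W') + (w n - w') grad η`; monotonicity `bl_all`, weak convergence and dominated convergence.
-/

set_option autoImplicit false

namespace Pool.Agent.CG.K

open MeasureTheory Set Filter Topology
open scoped ContDiff ENNReal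

variable {N m : ℕ}

private theorem int_inner {μ : Measure (Pt N)} {f g : Pt N → Hv m} (hf : MemLp f 2 μ) (hg : MemLp g 2 μ) :
    Integrable (fun x => inner ℝ (f x) (g x)) μ := by
  have h1 : Integrable (fun x => ‖f x‖ ^ 2) μ := hf.integrable_norm_pow (by norm_num)
  have h2 : Integrable (fun x => ‖g x‖ ^ 2) μ := hg.integrable_norm_pow (by norm_num)
  refine Integrable.mono' (h1.add h2) (hf.aestronglyMeasurable.inner hg.aestronglyMeasurable)
    (Eventually.of_forall fun x => ?_)
  have h3 : ‖inner ℝ (f x) (g x)‖ ≤ ‖f x‖ * ‖g x‖ := norm_inner_le_norm _ _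
  simp only [Pi.add_apply]
  nlinarith [sq_nonneg (‖f x‖ - ‖g x‖), sq_nonneg ‖f x‖, sq_nonneg ‖g x‖]

private theorem abs_int_inner_le {μ : Measure (Pt N)} {f g : Pt N → Hv m} (hf : MemLp f 2 μ) (hg : MemLp g 2 μ)
    {δ : ℝ} (hδ : 0 < δ) : |∫ x, inner ℝ (f x) (g x) ∂μ| ≤
      δ⁻¹ * (∫ x, ‖f x‖ ^ 2 ∂μ) + δ * ∫ x, ‖g x‖ ^ 2 ∂μ := by
  have h1 : Integrable (fun x => ‖f x‖ ^ 2) μ := hf.integrable_norm_pow (by norm_num)
  have h2 : Integrable (fun x => ‖g x‖ ^ 2) μ := hg.integrable_norm_pow (by norm_num)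
  rw [← integral_const_mul, ← integral_const_mul, ← integral_add (h1.const_mul _) (h2.const_mul _),
    ← Real.norm_eq_abs]
  refine norm_integral_le_of_norm_le ((h1.const_mul δ⁻¹).add (h2.const_mul δ)) (Eventually.of_forall fun x => ?_)
  have h3 : ‖inner ℝ (f x) (g x)‖ ≤ ‖f x‖ * ‖g x‖ := norm_inner_le_norm _ _
  have h4 : ‖f x‖ * ‖g x‖ ≤ δ⁻¹ * ‖f x‖ ^ 2 + δ * ‖g x‖ ^ 2 := by
    have h5 : 0 ≤ δ⁻¹ * (‖f x‖ - δ * ‖g x‖) ^ 2 := by positivity
    have h6 : δ⁻¹ * (‖f x‖ - δ * ‖g x‖) ^ 2 = δ⁻¹ * ‖f x‖ ^ 2 - 2 * (‖f x‖ * ‖g x‖) + δ * ‖g x‖ ^ 2 := by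
      field_simp
      ring
    have h7 : 0 ≤ ‖f x‖ * ‖g x‖ := by positivity
    linarith
  exact h3.trans h4

theorem strong (G : Carnot N m) {c0 c C r r' M : ℝ} (hc0 : 0 < c0) (hc : 0 < c) (hC : 0 < C)
    (hr : r' < r) (A : ℕ → Hv m → Hv m)
    (hA : ∀ n, Tr c0 c C (A n)) (v : ℕ → Hv m) (hv : ∀ n, c0 ≤ ‖v n‖) (ε : ℕ → ℝ) (hε : ∀ n, 0 < ε n)
    (hε0 : Tendsto ε atTop (𝓝 0)) {B : Hv m → Hv m}
    (hB : ∀ ξ, Tendsto (fun n => Bl (A n) (v n) (ε n) ξ) atTop (𝓝 (B ξ)))
    {w : ℕ → Pt N → ℝ} {w' : Pt N → ℝ} {W : ℕ → Pt N → Hv m} {W' : Pt N → Hv m}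
    (h : ∀ k, HW G 2 (G.B 0 r) (w k) (W k)) (hu : TendstoUniformlyOn w w' atTop (G.B 0 r))
    (hm : ∀ k, MemLp (W k) 2 (volume.restrict (G.B 0 r)))
    (hb : ∀ k, ∫ y in G.B 0 r, ‖W k y‖ ^ 2 ≤ M)
    (heq : ∀ k, ∀ φ : Pt N → ℝ, Test (G.B 0 r) φ →
      ∫ x, inner ℝ (Bl (A k) (v k) (ε k) (W k x)) (G.grad φ x) = 0)
    (h' : HW G 2 (G.B 0 r) w' W') (hm' : MemLp W' 2 (volume.restrict (G.B 0 r)))
    (hw : ∀ H : Pt N → Hv m, MemLp H 2 (volume.restrict (G.B 0 r)) →
        Tendsto (fun k => ∫ y in G.B 0 r, inner ℝ (H y) (W k y)) atTop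
          (𝓝 (∫ y in G.B 0 r, inner ℝ (H y) (W' y)))) :
    Tendsto (fun k => ∫ y in G.B 0 r', ‖W k y - W' y‖ ^ 2) atTop (𝓝 0) := by
  rcases le_or_gt r' 0 with hr0 | hr0
  · have he : G.B 0 r' = ∅ := by
      ext y
      simp only [mem_empty_iff_false, iff_false]
      rw [G.mem_B]
      intro hy
      have := G.di_nonneg 0 y
      linarith
    simp [he]
  have hfin : IsFiniteMeasure (volume.restrict (G.B 0 r)) :=
    ⟨by rw [Measure.restrict_apply_univ]; exact G.vol_B_lt_top 0 r⟩
  have hBm : MeasurableSet (G.B 0 r) := meas_B G 0 r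
  have hΩ : IsOpen (G.B 0 r) := G.isOpen_B 0 r
  set μ := volume.restrict (G.B 0 r) with hμ
  set f : ℕ → Hv m → Hv m := fun k => Bl (A k) (v k) (ε k) with hf
  have hfc : ∀ k, Continuous (f k) := fun k => bl_cont (hA k)
  have hfb : ∀ k ξ, ‖f k ξ‖ ≤ C * ‖ξ‖ := fun k ξ => bl_bd hc0 (hA k) (hv k) (hε k) ξ
  have hBb : ∀ ξ, ‖B ξ‖ ≤ C * ‖ξ‖ := fun ξ => le_of_tendsto' (hB ξ).norm (fun k => hfb k ξ)
  have hBmeas : Measurable B := measurable_of_tendsto_metrizable (fun k => (hfc k).measurable)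
    (tendsto_pi_nhds.2 hB)
  obtain ⟨C0, hC0, hcut⟩ := G.exists_cutoff
  obtain ⟨η, hη, hη0, hη1, hηe, hηg⟩ := hcut 0 r' r hr0 hr
  set D : ℝ := C0 / (r - r') with hD
  have hD0 : 0 ≤ D := (norm_nonneg _).trans (hηg 0)
  -- L2 facts
  have hWm := hm
  have hdW : ∀ k, MemLp (fun x => W k x - W' x) 2 μ := fun k => (hm k).sub hm'
  have hfW : ∀ k, MemLp (fun x => f k (W k x)) 2 μ := fun k =>
    MemLp.of_le_mul (hm k) ((hfc k).comp_aestronglyMeasurable (hm k).aestronglyMeasurable)
      (Eventually.of_forall fun x => hfb k _)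
  have hfW' : ∀ k, MemLp (fun x => f k (W' x)) 2 μ := fun k =>
    MemLp.of_le_mul hm' ((hfc k).comp_aestronglyMeasurable hm'.aestronglyMeasurable)
      (Eventually.of_forall fun x => hfb k _)
  have hBW : MemLp (fun x => B (W' x)) 2 μ :=
    MemLp.of_le_mul hm' (hBmeas.comp_aemeasurable hm'.aestronglyMeasurable.aemeasurable).aestronglyMeasurable
      (Eventually.of_forall fun x => hBb _)
  have hηb : ∀ x, ‖η x‖ ≤ 1 := fun x => by rw [Real.norm_of_nonneg (hη0 x)]; exact hη1 x
  have hηm : ∀ {H : Pt N → Hv m}, MemLp H 2 μ → MemLp (fun x => η x • H x) 2 μ := by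
    intro H hH
    refine MemLp.of_le_mul (c := 1) hH (hη.continuous.aestronglyMeasurable.smul hH.aestronglyMeasurable)
      (Eventually.of_forall fun x => ?_)
    rw [norm_smul]
    exact mul_le_mul_of_nonneg_right (hηb x) (norm_nonneg _)
  have hsq : ∀ {H : Pt N → Hv m}, MemLp H 2 μ → Integrable (fun x => ‖H x‖ ^ 2) μ := fun hH =>
    hH.integrable_norm_pow (by norm_num)
  have hM0 : 0 ≤ M := (integral_nonneg fun x => by positivity).trans (hb 0)
  -- first integral
  set I1 : ℕ → ℝ := fun k => ∫ x, inner ℝ (f k (W k x)) (η x • (W k x - W' x)) ∂μ with hI1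
  have t1 : Tendsto I1 atTop (𝓝 0) := by
    -- bound by sup norm
    have hbd : ∀ δ : ℝ, 0 < δ → ∀ᶠ k in atTop, |I1 k| ≤ δ * (D * C * (μ.real univ + M)) := by
      intro δ hδ
      have hu' := Metric.tendstoUniformlyOn_iff.1 hu δ hδ
      filter_upwards [hu'] with k hk
      have hd : ∀ x ∈ G.B 0 r, |w k x - w' x| ≤ δ := by
        intro x hx
        have := hk x hx
        rw [Real.dist_eq, abs_sub_comm] at this
        exact this.le
      -- the test function
      have hz : HW G 2 (G.B 0 r) (fun x => η x * (w k x - w' x))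
          (fun x => η x • (W k x - W' x) + (w k x - w' x) • G.grad η x) :=
        HW.mul_smooth (by norm_num) (HW.sub (by norm_num) (h k) h') hη.smooth
      have hH : LqLoc 2 (G.B 0 r) (fun x => f k (W k x)) := by
        intro K hK hKs
        exact (hfW k).mono_measure (Measure.restrict_mono hKs le_rfl)
      have hte : ∫ x, inner ℝ (f k (W k x)) (η x • (W k x - W' x) + (w k x - w' x) • G.grad η x) = 0 := by
        refine test_ext hΩ (p := 2) (p' := 2) (by norm_num) (by norm_num) inferInstance hH (heq k) hz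
          hη.cpt hη.sub ?_ ?_
        · intro x hx
          rw [image_eq_zero_of_notMem_tsupport hx, zero_mul]
        · intro x hx
          rw [image_eq_zero_of_notMem_tsupport hx, zero_smul, G.grad_eq_zero hx, smul_zero, add_zero]
      have hte2 : ∫ x, inner ℝ (f k (W k x)) (η x • (W k x - W' x) + (w k x - w' x) • G.grad η x) ∂μ = 0 := by
        rw [← hte, hμ]
        refine setIntegral_eq_integral_of_forall_compl_eq_zero fun x hx => ?_
        rw [hη.eq_zero hx, zero_smul, hη.grad_eq_zero hx, smul_zero, add_zero, inner_zero_right]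
      have i1 : Integrable (fun x => inner ℝ (f k (W k x)) (η x • (W k x - W' x))) μ :=
        int_inner (hfW k) (hηm (hdW k))
      have hgm : MemLp (fun x => (w k x - w' x) • G.grad η x) 2 μ := by
        have hgb : ∀ᵐ x ∂μ, ‖(w k x - w' x) • G.grad η x‖ ≤ δ * D := by
          rw [hμ, ae_restrict_iff' hBm]
          refine Eventually.of_forall fun x hx => ?_
          rw [norm_smul, Real.norm_eq_abs]
          exact mul_le_mul (hd x hx) (hηg x) (norm_nonneg _) hδ.le
        refine MemLp.of_bound ?_ (δ * D) hgb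
        have hg1 : AEStronglyMeasurable (G.grad η) μ := hη.continuous_grad.aestronglyMeasurable
        have hg2 : AEStronglyMeasurable (fun x => w k x - w' x) μ := aesm_of_lqLoc G ((h k).lq.sub h'.lq)
        exact hg2.smul hg1
      have i2 : Integrable (fun x => inner ℝ (f k (W k x)) ((w k x - w' x) • G.grad η x)) μ :=
        int_inner (hfW k) hgm
      have e1 : I1 k = -∫ x, inner ℝ (f k (W k x)) ((w k x - w' x) • G.grad η x) ∂μ := by
        have e2 : ∫ x, inner ℝ (f k (W k x)) (η x • (W k x - W' x) + (w k x - w' x) • G.grad η x) ∂μ =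
            I1 k + ∫ x, inner ℝ (f k (W k x)) ((w k x - w' x) • G.grad η x) ∂μ := by
          rw [hI1]
          simp only
          rw [← integral_add i1 i2]
          simp only [inner_add_right]
        rw [e2] at hte2
        linarith
      rw [e1, abs_neg, ← Real.norm_eq_abs]
      have i3 : Integrable (fun x => 1 + ‖W k x‖ ^ 2) μ := (integrable_const _).add (hsq (hm k))
      calc ‖∫ x, inner ℝ (f k (W k x)) ((w k x - w' x) • G.grad η x) ∂μ‖
          ≤ ∫ x, (δ * (D * C)) * (1 + ‖W k x‖ ^ 2) ∂μ := by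
            refine norm_integral_le_of_norm_le (i3.const_mul _) ?_
            rw [hμ, ae_restrict_iff' hBm]
            refine Eventually.of_forall fun x hx => ?_
            have h1 : ‖W k x‖ ≤ 1 + ‖W k x‖ ^ 2 := by nlinarith [sq_nonneg (‖W k x‖ - 1), norm_nonneg (W k x)]
            calc ‖inner ℝ (f k (W k x)) ((w k x - w' x) • G.grad η x)‖
                ≤ ‖f k (W k x)‖ * ‖(w k x - w' x) • G.grad η x‖ := norm_inner_le_norm _ _
              _ ≤ (C * ‖W k x‖) * (δ * D) := by
                  apply mul_le_mul (hfb k _) _ (norm_nonneg _) (by positivity)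
                  rw [norm_smul, Real.norm_eq_abs]
                  exact mul_le_mul (hd x hx) (hηg x) (norm_nonneg _) hδ.le
              _ = (δ * (D * C)) * ‖W k x‖ := by ring
              _ ≤ (δ * (D * C)) * (1 + ‖W k x‖ ^ 2) := by gcongr
        _ = (δ * (D * C)) * (μ.real univ + ∫ x, ‖W k x‖ ^ 2 ∂μ) := by
            rw [integral_const_mul, integral_add (integrable_const _) (hsq (hm k)), integral_const,
              smul_eq_mul, mul_one]
        _ ≤ (δ * (D * C)) * (μ.real univ + M) := by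
            gcongr
            exact hb k
        _ = δ * (D * C * (μ.real univ + M)) := by ring
    set R : ℝ := D * C * (μ.real univ + M) with hR
    have hR0 : 0 ≤ R := by positivity
    rw [Metric.tendsto_atTop']
    intro e he
    have hev := hbd (e / (2 * (R + 1))) (by positivity)
    obtain ⟨n, hn⟩ := eventually_atTop.1 hev
    refine ⟨n, fun k hk => ?_⟩
    rw [Real.dist_0_eq_abs]
    refine (hn k hk.le).trans_lt ?_
    have : e / (2 * (R + 1)) * R = e * (R / (2 * (R + 1))) := by ring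
    rw [this]
    have h2 : R / (2 * (R + 1)) < 1 := by
      rw [div_lt_one (by positivity)]
      linarith
    nlinarith
  -- second integral
  set I2 : ℕ → ℝ := fun k => ∫ x, inner ℝ (f k (W' x)) (η x • (W k x - W' x)) ∂μ with hI2
  have hsub : ∀ k, MemLp (fun x => f k (W' x) - B (W' x)) 2 μ := fun k => (hfW' k).sub hBW
  have hS0 : Tendsto (fun k => ∫ x, ‖f k (W' x) - B (W' x)‖ ^ 2 ∂μ) atTop (𝓝 0) := by
    have h0 : (0 : ℝ) = ∫ _x : Pt N, (0 : ℝ) ∂μ := by rw [integral_zero]
    rw [h0]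
    refine tendsto_integral_of_dominated_convergence (fun x => (2 * C) ^ 2 * ‖W' x‖ ^ 2)
      (fun k => (hsq (hsub k)).aestronglyMeasurable) ((hsq hm').const_mul _)
      (fun k => Eventually.of_forall fun x => ?_) (Eventually.of_forall fun x => ?_)
    · rw [norm_pow, norm_norm, ← mul_pow]
      apply pow_le_pow_left₀ (norm_nonneg _)
      have h1 := norm_sub_le (f k (W' x)) (B (W' x))
      have h2 := hfb k (W' x)
      have h3 := hBb (W' x)
      linarith
    · have := (((hB (W' x)).sub_const (B (W' x))).norm).pow 2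
      simpa using this
  set M2 : ℝ := 2 * M + 2 * ∫ x, ‖W' x‖ ^ 2 ∂μ with hM2
  have hW'0 : 0 ≤ ∫ x, ‖W' x‖ ^ 2 ∂μ := integral_nonneg fun x => by positivity
  have hM20 : 0 ≤ M2 := by positivity
  have hdWb : ∀ k, ∫ x, ‖η x • (W k x - W' x)‖ ^ 2 ∂μ ≤ M2 := by
    intro k
    calc ∫ x, ‖η x • (W k x - W' x)‖ ^ 2 ∂μ ≤ ∫ x, (2 * ‖W k x‖ ^ 2 + 2 * ‖W' x‖ ^ 2) ∂μ := by
          refine integral_mono (hsq (hηm (hdW k))) (((hsq (hm k)).const_mul 2).add ((hsq hm').const_mul 2))
            fun x => ?_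
          simp only
          have h1 : ‖η x • (W k x - W' x)‖ ≤ ‖W k x‖ + ‖W' x‖ := by
            rw [norm_smul]
            calc ‖η x‖ * ‖W k x - W' x‖ ≤ 1 * ‖W k x - W' x‖ :=
                  mul_le_mul_of_nonneg_right (hηb x) (norm_nonneg _)
              _ ≤ ‖W k x‖ + ‖W' x‖ := by rw [one_mul]; exact norm_sub_le _ _
          calc ‖η x • (W k x - W' x)‖ ^ 2 ≤ (‖W k x‖ + ‖W' x‖) ^ 2 :=
                pow_le_pow_left₀ (norm_nonneg _) h1 2
            _ ≤ 2 * ‖W k x‖ ^ 2 + 2 * ‖W' x‖ ^ 2 := by nlinarith [sq_nonneg (‖W k x‖ - ‖W' x‖)]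
      _ = 2 * (∫ x, ‖W k x‖ ^ 2 ∂μ) + 2 * ∫ x, ‖W' x‖ ^ 2 ∂μ := by
          rw [integral_add ((hsq (hm k)).const_mul 2) ((hsq hm').const_mul 2), integral_const_mul,
            integral_const_mul]
      _ ≤ M2 := by
          rw [hM2]
          have := hb k
          linarith
  have t2 : Tendsto I2 atTop (𝓝 0) := by
    -- split
    set J1 : ℕ → ℝ := fun k => ∫ x, inner ℝ (f k (W' x) - B (W' x)) (η x • (W k x - W' x)) ∂μ with hJ1
    set J2 : ℕ → ℝ := fun k => (∫ x, inner ℝ (η x • B (W' x)) (W k x) ∂μ) -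
      ∫ x, inner ℝ (η x • B (W' x)) (W' x) ∂μ with hJ2
    have hsplit : ∀ k, I2 k = J1 k + J2 k := by
      intro k
      have e1 : ∀ x, inner ℝ (f k (W' x)) (η x • (W k x - W' x)) =
          inner ℝ (f k (W' x) - B (W' x)) (η x • (W k x - W' x)) +
            (inner ℝ (η x • B (W' x)) (W k x) - inner ℝ (η x • B (W' x)) (W' x)) := by
        intro x
        rw [← inner_sub_right, inner_sub_left]
        simp only [inner_smul_left, inner_smul_right, conj_trivial]
        ring
      have i1 := int_inner (hsub k) (hηm (hdW k))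
      have i2 := int_inner (hηm hBW) (hm k)
      have i3 := int_inner (hηm hBW) hm'
      have i23 : Integrable (fun x => inner ℝ (η x • B (W' x)) (W k x) -
          inner ℝ (η x • B (W' x)) (W' x)) μ := i2.sub i3
      rw [hI2, hJ1, hJ2]
      simp only [e1]
      rw [integral_add i1 i23, integral_sub i2 i3]
    have tJ2 : Tendsto J2 atTop (𝓝 0) := by
      have := (hw _ (hηm hBW)).sub_const (∫ x, inner ℝ (η x • B (W' x)) (W' x) ∂μ)
      rwa [sub_self] at this
    have tJ1 : Tendsto J1 atTop (𝓝 0) := by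
      rw [Metric.tendsto_atTop']
      intro e he
      set δ : ℝ := e / (2 * (M2 + 1)) with hδ
      have hδ0 : 0 < δ := by positivity
      have h1 : ∀ᶠ k in atTop, ∫ x, ‖f k (W' x) - B (W' x)‖ ^ 2 ∂μ < δ * (e / 2) :=
        hS0.eventually_lt_const (by positivity)
      obtain ⟨n, hn⟩ := eventually_atTop.1 h1
      refine ⟨n, fun k hk => ?_⟩
      rw [Real.dist_0_eq_abs]
      have h2 := abs_int_inner_le (hsub k) (hηm (hdW k)) hδ0
      have h3 := hn k hk.le
      have h4 : δ⁻¹ * ∫ x, ‖f k (W' x) - B (W' x)‖ ^ 2 ∂μ < e / 2 := by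
        calc δ⁻¹ * ∫ x, ‖f k (W' x) - B (W' x)‖ ^ 2 ∂μ < δ⁻¹ * (δ * (e / 2)) := by gcongr
          _ = e / 2 := by field_simp
      have h5 : δ * ∫ x, ‖η x • (W k x - W' x)‖ ^ 2 ∂μ ≤ e / 2 := by
        calc δ * ∫ x, ‖η x • (W k x - W' x)‖ ^ 2 ∂μ ≤ δ * M2 := by gcongr; exact hdWb k
          _ = (e / 2) * (M2 / (M2 + 1)) := by rw [hδ]; field_simp
          _ ≤ (e / 2) * 1 := by
              gcongr
              rw [div_le_one (by positivity)]
              linarith
          _ = e / 2 := mul_one _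
      exact lt_of_le_of_lt h2 (by linarith)
    have := tJ1.add tJ2
    rw [add_zero] at this
    exact this.congr fun k => (hsplit k).symm
  -- the indicator term
  set ind : ℕ → ℝ → ℝ := fun k t => if c0 / 2 < ε k * t then t ^ 2 else 0 with hind
  have hindm : ∀ k, Measurable (ind k) := fun k =>
    Measurable.ite (measurableSet_lt measurable_const (measurable_const.mul measurable_id))
      (measurable_id.pow_const 2) measurable_const
  have hindam : ∀ k, AEStronglyMeasurable (fun x => ind k ‖W' x‖) μ := fun k =>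
    ((hindm k).comp_aemeasurable hm'.aestronglyMeasurable.norm.aemeasurable).aestronglyMeasurable
  have hind0 : ∀ k x, 0 ≤ ind k ‖W' x‖ := by
    intro k x
    simp only [hind]
    split_ifs
    · positivity
    · exact le_rfl
  have hindb : ∀ k x, ‖ind k ‖W' x‖‖ ≤ ‖W' x‖ ^ 2 := by
    intro k x
    rw [Real.norm_of_nonneg (hind0 k x)]
    simp only [hind]
    split_ifs
    · exact le_rfl
    · positivity
  have iind : ∀ k, Integrable (fun x => ind k ‖W' x‖) μ := fun k =>
    Integrable.mono' (hsq hm') (hindam k) (Eventually.of_forall fun x => hindb k x)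
  have t3 : Tendsto (fun k => ∫ x, ind k ‖W' x‖ ∂μ) atTop (𝓝 0) := by
    have h0 : (0 : ℝ) = ∫ _x : Pt N, (0 : ℝ) ∂μ := by rw [integral_zero]
    rw [h0]
    refine tendsto_integral_of_dominated_convergence (fun x => ‖W' x‖ ^ 2) hindam (hsq hm')
      (fun k => Eventually.of_forall fun x => hindb k x) (Eventually.of_forall fun x => ?_)
    have h1 : Tendsto (fun k => ε k * ‖W' x‖) atTop (𝓝 0) := by
      have := hε0.mul_const ‖W' x‖
      rwa [zero_mul] at this
    have h2 : ∀ᶠ k in atTop, ε k * ‖W' x‖ < c0 / 2 := h1.eventually_lt_const (by positivity)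
    refine tendsto_const_nhds.congr' ?_
    filter_upwards [h2] with k hk
    simp only [hind]
    rw [if_neg (not_lt.2 hk.le)]
  -- conclusion
  have hmain : ∀ k, ∫ y in G.B 0 r', ‖W k y - W' y‖ ^ 2 ≤
      c⁻¹ * (I1 k - I2 k) + ∫ x, ind k ‖W' x‖ ∂μ := by
    intro k
    have i1 := int_inner (hfW k) (hηm (hdW k))
    have i2 := int_inner (hfW' k) (hηm (hdW k))
    have i12 : Integrable (fun x => inner ℝ (f k (W k x)) (η x • (W k x - W' x)) -
      inner ℝ (f k (W' x)) (η x • (W k x - W' x))) μ := i1.sub i2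
    have hsubs : G.B 0 r' ⊆ G.B 0 r := B_mono G hr.le
    have hηsq : Integrable (fun x => η x * ‖W k x - W' x‖ ^ 2) μ := by
      refine Integrable.mono' (hsq (hdW k))
        (hη.continuous.aestronglyMeasurable.mul (hsq (hdW k)).aestronglyMeasurable)
        (Eventually.of_forall fun x => ?_)
      rw [norm_mul, Real.norm_of_nonneg (by positivity : 0 ≤ ‖W k x - W' x‖ ^ 2)]
      calc ‖η x‖ * ‖W k x - W' x‖ ^ 2 ≤ 1 * ‖W k x - W' x‖ ^ 2 := by
            gcongr; exact hηb x
        _ = _ := one_mul _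
    calc ∫ y in G.B 0 r', ‖W k y - W' y‖ ^ 2 = ∫ y in G.B 0 r', η y * ‖W k y - W' y‖ ^ 2 := by
          refine setIntegral_congr_fun (meas_B G 0 r') fun y hy => ?_
          show ‖W k y - W' y‖ ^ 2 = η y * ‖W k y - W' y‖ ^ 2
          rw [hηe y hy, one_mul]
      _ ≤ ∫ y, η y * ‖W k y - W' y‖ ^ 2 ∂μ := by
          rw [hμ]
          refine setIntegral_mono_set hηsq ?_ (Eventually.of_forall hsubs)
          exact Eventually.of_forall fun x => mul_nonneg (hη0 x) (by positivity)
      _ ≤ ∫ x, (c⁻¹ * (inner ℝ (f k (W k x)) (η x • (W k x - W' x)) -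
            inner ℝ (f k (W' x)) (η x • (W k x - W' x))) + ind k ‖W' x‖) ∂μ := by
          refine integral_mono hηsq ((i12.const_mul c⁻¹).add (iind k)) fun x => ?_
          simp only
          have h1 := bl_all hc0 hc (hA k) (hv k) (hε k) (W k x) (W' x)
          have h2 : inner ℝ (f k (W k x)) (η x • (W k x - W' x)) -
              inner ℝ (f k (W' x)) (η x • (W k x - W' x)) =
              η x * inner ℝ (f k (W k x) - f k (W' x)) (W k x - W' x) := by
            rw [inner_smul_right, inner_smul_right, inner_sub_left]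
            ring
          rw [h2]
          have h3 : ind k ‖W' x‖ = if c0 / 2 < ε k * ‖W' x‖ then ‖W' x‖ ^ 2 else 0 := rfl
          rw [← h3] at h1
          have h4 : ‖W k x - W' x‖ ^ 2 ≤
              c⁻¹ * inner ℝ (f k (W k x) - f k (W' x)) (W k x - W' x) + ind k ‖W' x‖ := by
            have h5 : c⁻¹ * (c * ‖W k x - W' x‖ ^ 2) ≤ c⁻¹ *
              (inner ℝ (f k (W k x) - f k (W' x)) (W k x - W' x) + c * ind k ‖W' x‖) := by
              apply mul_le_mul_of_nonneg_left h1 (by positivity)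
            rw [← mul_assoc, inv_mul_cancel₀ hc.ne', one_mul, mul_add, ← mul_assoc,
              inv_mul_cancel₀ hc.ne', one_mul] at h5
            exact h5
          calc η x * ‖W k x - W' x‖ ^ 2 ≤ η x *
                (c⁻¹ * inner ℝ (f k (W k x) - f k (W' x)) (W k x - W' x) + ind k ‖W' x‖) := by
                gcongr
                exact hη0 x
            _ = c⁻¹ * (η x * inner ℝ (f k (W k x) - f k (W' x)) (W k x - W' x)) +
                η x * ind k ‖W' x‖ := by ring
            _ ≤ c⁻¹ * (η x * inner ℝ (f k (W k x) - f k (W' x)) (W k x - W' x)) +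
                1 * ind k ‖W' x‖ := by
                have h6 := mul_le_mul_of_nonneg_right (hη1 x) (hind0 k x)
                linarith
            _ = _ := by rw [one_mul]
      _ = c⁻¹ * (I1 k - I2 k) + ∫ x, ind k ‖W' x‖ ∂μ := by
          rw [integral_add (i12.const_mul c⁻¹) (iind k), integral_const_mul, integral_sub i1 i2]
  have hlim : Tendsto (fun k => c⁻¹ * (I1 k - I2 k) + ∫ x, ind k ‖W' x‖ ∂μ) atTop (𝓝 0) := by
    have := ((t1.sub t2).const_mul c⁻¹).add t3
    simpa using this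
  exact squeeze_zero (fun k => integral_nonneg fun x => by positivity) hmain hlim

end Pool.Agent.CG.K
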