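import Pool.Agent.CG.K.Av
import Pool.Agent.CG.B.Lq

/-!
# CG-K-WkHW: weak limits of gradients are gradients; weak lower semicontinuity

PLAN.  `wk_hw`: `w` is continuous on the compact `closure`? (only uniform convergence on `Ω` is used): `w k → w` uniformly on `Ω`
and `w k ∈ L²_loc`, so `w` is a.e. strongly measurable on compacts (limit) and in `L²_loc` (`w = w k + bounded`).  For a test function
`φ`: `∫ w k * X φ → ∫ w * X φ` (`X φ` bounded with compact support in `Ω`), and
`∫ W k x i * φ x = ∫_Ω inner (φ x • e_i) (W k x) → ∫_Ω inner (φ x • e_i) (W x)` (`hw` with `H x = φ x • EuclideanSpace.single i 1`).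
`lqg`: `MemLp W 2 (volume.restrict Ω)` restricted to `K ⊆ Ω`.
`wk_lsc`: take `H = W`: `∫ ‖W‖² = lim ∫ inner W (W k) ≤ liminf (∫ ‖W‖²)^(1/2) M^(1/2)` (Cauchy-Schwarz, or
`inner W (W k) ≤ (‖W‖² + ‖W k‖²) / 2` pointwise, which gives `∫ ‖W‖² ≤ (∫ ‖W‖² + M) / 2`).
-/

set_option autoImplicit false

namespace Pool.Agent.CG.K

open MeasureTheory Set Filter Topology
open scoped ContDiff ENNReal

variable {N m : ℕ}

theorem wk_hw {G : Carnot N m} {Ω : Set (Pt N)} (hΩ : IsOpen Ω) {w : ℕ → Pt N → ℝ} {w' : Pt N → ℝ}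
    {W : ℕ → Pt N → Hv m} {W' : Pt N → Hv m} (h : ∀ k, HW G 2 Ω (w k) (W k))
    (hu : TendstoUniformlyOn w w' atTop Ω) (hW' : MemLp W' 2 (volume.restrict Ω))
    (hw : ∀ H : Pt N → Hv m, MemLp H 2 (volume.restrict Ω) →
        Tendsto (fun k => ∫ y in Ω, inner ℝ (H y) (W k y)) atTop (𝓝 (∫ y in Ω, inner ℝ (H y) (W' y)))) :
    HW G 2 Ω w' W' := by
  have hu' := Metric.tendstoUniformlyOn_iff.1 hu
  have hloc : LqLoc 2 Ω w' := by
    intro K hK hKΩ
    have : Fact (IsCompact K) := ⟨hK⟩
    have hfin : IsFiniteMeasure (volume.restrict K) :=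
      ⟨by rw [Measure.restrict_apply_univ]; exact hK.measure_lt_top⟩
    have hmeas : AEStronglyMeasurable w' (volume.restrict K) := by
      refine aestronglyMeasurable_of_tendsto_ae atTop (fun k => ((h k).lq K hK hKΩ).1) ?_
      rw [ae_restrict_iff' hK.measurableSet]
      exact Eventually.of_forall fun x hx => hu.tendsto_at (hKΩ hx)
    obtain ⟨k, hk⟩ := (hu' 1 one_pos).exists
    have h1 : MemLp (fun x => w' x - w k x) 2 (volume.restrict K) := by
      refine MemLp.of_bound (hmeas.sub ((h k).lq K hK hKΩ).1) 1 ?_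
      rw [ae_restrict_iff' hK.measurableSet]
      refine Eventually.of_forall fun x hx => ?_
      have h2 := hk x (hKΩ hx)
      rw [Real.dist_eq] at h2
      rw [Real.norm_eq_abs]
      exact h2.le
    have h3 := ((h k).lq K hK hKΩ).add h1
    refine h3.ae_eq (Eventually.of_forall fun x => ?_)
    simp only [Pi.add_apply]
    ring
  refine ⟨hloc, fun K hK hKΩ => hW'.mono_measure (Measure.restrict_mono_set volume hKΩ),
    fun φ hφ i => ?_⟩
  have hXc : HasCompactSupport (G.X i φ) :=
    HasCompactSupport.intro hφ.cpt fun x hx => G.X_eq_zero i hx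
  have hXi : Integrable (G.X i φ) :=
    (G.continuous_X hφ.c1 i).integrable_of_hasCompactSupport hXc
  have t1 : Tendsto (fun n => ∫ x, w n x * G.X i φ x) atTop (𝓝 (∫ x, w' x * G.X i φ x)) := by
    rw [Metric.tendsto_atTop]
    intro ε hε
    set I : ℝ := ∫ x, |G.X i φ x| with hI
    have hI0 : 0 ≤ I := integral_nonneg fun x => abs_nonneg _
    obtain ⟨n0, hn0⟩ := eventually_atTop.1 (hu' (ε / (I + 1)) (by positivity))
    refine ⟨n0, fun n hn => ?_⟩
    have h1 := hn0 n hn
    have i1 : Integrable (fun x => w n x * G.X i φ x) :=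
      (h n).lq.integrable_mul_X one_le_two hφ i
    have i2 : Integrable (fun x => w' x * G.X i φ x) := hloc.integrable_mul_X one_le_two hφ i
    rw [Real.dist_eq, ← integral_sub i1 i2]
    calc |∫ x, (w n x * G.X i φ x - w' x * G.X i φ x)|
        ≤ ∫ x, |w n x * G.X i φ x - w' x * G.X i φ x| := abs_integral_le_integral_abs
      _ ≤ ∫ x, (ε / (I + 1)) * |G.X i φ x| := by
          refine integral_mono (i1.sub i2).abs (hXi.abs.const_mul _) fun x => ?_
          change |w n x * G.X i φ x - w' x * G.X i φ x| ≤ (ε / (I + 1)) * |G.X i φ x|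
          by_cases hx : x ∈ Ω
          · have h2 := h1 x hx
            rw [Real.dist_eq, abs_sub_comm] at h2
            rw [← sub_mul, abs_mul]
            exact mul_le_mul_of_nonneg_right h2.le (abs_nonneg _)
          · rw [G.X_eq_zero i (fun h => hx (hφ.sub h))]
            simp
      _ = (ε / (I + 1)) * I := by rw [integral_const_mul]
      _ < ε := by
          rw [div_mul_eq_mul_div, div_lt_iff₀ (by positivity)]
          nlinarith
  have hHc : Continuous (fun x => EuclideanSpace.single i (φ x) : Pt N → Hv m) := by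
    have h1 : (fun x => EuclideanSpace.single i (φ x) : Pt N → Hv m) =
        fun x => φ x • (EuclideanSpace.single i (1 : ℝ) : Hv m) := by
      funext x
      ext j
      simp [Pi.single_apply]
    rw [h1]
    exact hφ.continuous.smul continuous_const
  have hHs : HasCompactSupport (fun x => EuclideanSpace.single i (φ x) : Pt N → Hv m) := by
    refine HasCompactSupport.intro hφ.cpt fun x hx => ?_
    rw [image_eq_zero_of_notMem_tsupport hx]
    ext j
    simp
  have hHm : MemLp (fun x => EuclideanSpace.single i (φ x) : Pt N → Hv m) 2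
      (volume.restrict Ω) := hHc.memLp_of_hasCompactSupport hHs
  have hconv : ∀ V : Pt N → Hv m,
      ∫ y in Ω, inner ℝ (EuclideanSpace.single i (φ y) : Hv m) (V y) = ∫ y, V y i * φ y := by
    intro V
    rw [setIntegral_eq_integral_of_forall_compl_eq_zero]
    · refine integral_congr_ae (Eventually.of_forall fun x => ?_)
      simp only [EuclideanSpace.inner_single_left, conj_trivial]
      ring
    · intro x hx
      rw [hφ.eq_zero hx, EuclideanSpace.inner_single_left]
      simp
  have t2 := hw _ hHm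
  simp only [hconv] at t2
  refine tendsto_nhds_unique t1 ?_
  refine t2.neg.congr fun n => ?_
  exact ((h n).weak φ hφ i).symm

theorem wk_lsc {Ω : Set (Pt N)} {W : ℕ → Pt N → Hv m} {W' : Pt N → Hv m} {M : ℝ}
    (hm : ∀ k, MemLp (W k) 2 (volume.restrict Ω)) (hb : ∀ k, ∫ y in Ω, ‖W k y‖ ^ 2 ≤ M)
    (hW' : MemLp W' 2 (volume.restrict Ω))
    (hw : ∀ H : Pt N → Hv m, MemLp H 2 (volume.restrict Ω) →
        Tendsto (fun k => ∫ y in Ω, inner ℝ (H y) (W k y)) atTop (𝓝 (∫ y in Ω, inner ℝ (H y) (W' y)))) :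
    ∫ y in Ω, ‖W' y‖ ^ 2 ≤ M := by
  have t := hw W' hW'
  have hA : ∫ y in Ω, inner ℝ (W' y) (W' y) = ∫ y in Ω, ‖W' y‖ ^ 2 := by
    refine integral_congr_ae (Eventually.of_forall fun x => ?_)
    exact real_inner_self_eq_norm_sq (W' x)
  rw [hA] at t
  have iW' : Integrable (fun y => ‖W' y‖ ^ 2) (volume.restrict Ω) :=
    hW'.integrable_norm_pow (p := 2) two_ne_zero
  have hle : ∀ k, ∫ y in Ω, inner ℝ (W' y) (W k y) ≤ ((∫ y in Ω, ‖W' y‖ ^ 2) + M) / 2 := by
    intro k
    have iWk : Integrable (fun y => ‖W k y‖ ^ 2) (volume.restrict Ω) :=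
      (hm k).integrable_norm_pow (p := 2) two_ne_zero
    have iS : Integrable (fun y => (‖W' y‖ ^ 2 + ‖W k y‖ ^ 2) / 2) (volume.restrict Ω) :=
      (iW'.add iWk).div_const 2
    have hpt : ∀ y, |(inner ℝ (W' y) (W k y) : ℝ)| ≤ (‖W' y‖ ^ 2 + ‖W k y‖ ^ 2) / 2 := by
      intro y
      have h1 := abs_real_inner_le_norm (W' y) (W k y)
      nlinarith [sq_nonneg (‖W' y‖ - ‖W k y‖)]
    have iI : Integrable (fun y => (inner ℝ (W' y) (W k y) : ℝ)) (volume.restrict Ω) := by
      refine iS.mono (hW'.1.inner (hm k).1) (Eventually.of_forall fun y => ?_)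
      rw [Real.norm_eq_abs, Real.norm_eq_abs]
      exact (hpt y).trans (le_abs_self _)
    calc ∫ y in Ω, inner ℝ (W' y) (W k y)
        ≤ ∫ y in Ω, (‖W' y‖ ^ 2 + ‖W k y‖ ^ 2) / 2 :=
          integral_mono iI iS fun y => (le_abs_self _).trans (hpt y)
      _ = ((∫ y in Ω, ‖W' y‖ ^ 2) + ∫ y in Ω, ‖W k y‖ ^ 2) / 2 := by
          rw [integral_div, integral_add iW' iWk]
      _ ≤ _ := by
          have := hb k
          linarith
  have h2 := le_of_tendsto t (Eventually.of_forall hle)
  linarith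

end Pool.Agent.CG.K
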