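import Pool.Agent.CG.K.WkSeq
import Pool.Agent.CG.K.WkHW
import Pool.Agent.CG.K.MapLim
import Pool.Agent.CG.K.Strong
import Pool.Agent.CG.K.LimEq
import Pool.Agent.CG.K.Blow
import Pool.Agent.CG.K.Expand
import Pool.Agent.CG.UU

/-!
# CG-K-LimReg: expansion of the limit of the blow-ups

PLAN.  `exists_tr` gives `c, C` and truncations `A' n` (`A' n ξ = A n ξ` for `‖ξ‖ ≤ 2`, `‖F n‖ ≤ 1`, `‖v n‖ ≤ 2`).
`blow`: subsequence `s1`, constants `κ`, functions `w n → w'` uniformly on `B 0 (1/8)`, gradients `W n = ε⁻¹ • (F - v)`;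
`∫_{B 0 (1/8)} ‖W n‖² ≤ |B 0 1|` (from `hE`), `MemLp` (bounded functions).  `map_lim` along `s1`: subsequence `s2`, `B ∈ UU c C`.
`weak_seq` along `s1 ∘ s2` with `S = B 0 (1/8)`: subsequence `s3`, weak limit `W'`.  `wk_hw`: `HW G 2 (B 0 (1/8)) w' W'`; `wk_lsc`:
`∫ ‖W'‖² ≤ |B 0 1|`.  The equation: `Bl (A' n) (v n) (ε n) (W n) = ε⁻¹ • (A (F) - A (v))` a.e. (`v + ε • W = F`), and
`∫ ⟨A v, grad φ⟩ = 0` (constant vector).  `strong` with `r = 1/8`, `r' = 1/16`, `lim_eq`: `Sol G 2 (B 0 (1/16)) B w' W'`.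
`uu_reg` on `B 0 (1/16)`: a representative `W''` on `B 0 (1/32)` with `‖W'' y‖² ≤ Cu 16 ^ Q |B 0 1|`,
`‖W'' y - W'' z‖² ≤ Cu (16 di y z) ^ (2 β) 16 ^ Q |B 0 1|`.  `ξ = W'' 0`.  For `0 < θ ≤ 1/400`: on `B 0 (6 θ) ⊆ B 0 (1/32)`
`‖W' y - ξ‖ ≤ K (16 * 6 θ) ^ β` a.e., and `expand` with `ρ = 2 θ` gives the last claim (`T ρ = K 96 ^ β 2 θ ^ (1 + β)`).
-/

set_option autoImplicit false

namespace Pool.Agent.CG.K

open MeasureTheory Set Filter Topology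
open scoped ContDiff ENNReal

variable {N m : ℕ}

theorem lim_reg (G : Carnot N m) {a b L : ℝ} (ha0 : 0 ≤ a) (ha : a < 1) (hb : 0 ≤ b) (hL : 1 ≤ L) {c0 : ℝ}
    (hc0 : 0 < c0) : ∃ β : ℝ, 0 < β ∧ β < 1 ∧ ∃ K : ℝ, 0 < K ∧
    ∀ (A : ℕ → Hv m → Hv m), (∀ n, Nrm a b L (A n)) → ∀ (u : ℕ → Pt N → ℝ)
    (F : ℕ → Pt N → Hv m), (∀ n, Sol G 2 (G.B 0 1) (A n) (u n) (F n)) →
    (∀ n, ∀ᵐ y, y ∈ G.B 0 1 → ‖F n y‖ ≤ 1) → ∀ v : ℕ → Hv m, (∀ n, c0 ≤ ‖v n‖) →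
    (∀ n, ‖v n‖ ≤ 2) → ∀ ε : ℕ → ℝ, (∀ n, 0 < ε n) → Tendsto ε atTop (𝓝 0) →
    (∀ n, av G 0 1 (fun y => ‖F n y - v n‖ ^ 2) = ε n ^ 2) →
    ∃ s : ℕ → ℕ, StrictMono s ∧ ∃ (κ : ℕ → ℝ) (ξ : Hv m), ‖ξ‖ ≤ K ∧
      ∀ θ : ℝ, 0 < θ → θ ≤ 1 / 400 → ∀ δ : ℝ, 0 < δ → ∀ᶠ n in atTop, ∀ᵐ y, y ∈ G.B 0 (2 * θ) →
        |u (s n) y - (∑ k, (v (s n) + ε (s n) • ξ) k * y (G.hor k)) - κ n| ≤
          ε (s n) * (K * θ ^ (1 + β) + δ) := by
  obtain ⟨c, hc, C, hC, htr⟩ := exists_tr (m := m) ha0 ha hb hL hc0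
  obtain ⟨β, hβ0, hβ1, Cu, hCu, huu⟩ := uu_reg G (lam := c) (Lam := C) hc
  set V1 : ℝ := volume.real (G.B (0 : Pt N) 1) with hV1def
  have hV1 : 0 < V1 := volr_B_pos G 0 one_pos
  set M1 : ℝ := Cu * ((16 : ℝ) ^ G.Q * V1) with hM1def
  have hM1 : 0 < M1 := by positivity
  set K0 : ℝ := Real.sqrt M1 with hK0def
  have hK0 : 0 < K0 := Real.sqrt_pos.2 hM1
  have hK0sq : K0 ^ 2 = M1 := Real.sq_sqrt hM1.le
  have h96 : (0 : ℝ) < 96 ^ β := Real.rpow_pos_of_pos (by norm_num) β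
  refine ⟨β, hβ0, hβ1, K0 * 96 ^ β * 2 + K0, by positivity, ?_⟩
  intro A hA u F hS hF v hv hv2 ε hε hε0 hE
  choose A' hTr hEq using fun n => htr (A n) (hA n)
  obtain ⟨s1, hs1, κ, w, w', hw'c, hwc, hunif, hae, hHW⟩ :=
    blow G ha0 ha hb hL hc0 A hA u F hS hF v hv hv2 ε hε hE
  have hO1 : IsOpen (G.B (0 : Pt N) 1) := G.isOpen_B 0 1
  have hO8 : IsOpen (G.B (0 : Pt N) (1 / 8)) := G.isOpen_B 0 _
  have hsub8 : G.B (0 : Pt N) (1 / 8) ⊆ G.B 0 1 := B_mono G (by norm_num)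
  have hsub16 : G.B (0 : Pt N) (1 / 16) ⊆ G.B 0 (1 / 8) := B_mono G (by norm_num)
  have hm8 : MeasurableSet (G.B (0 : Pt N) (1 / 8)) := meas_B G 0 _
  -- the blow-up gradients
  set W1 : ℕ → Pt N → Hv m := fun n y => (ε (s1 n))⁻¹ • (F (s1 n) y - v (s1 n)) with hW1
  have hint : ∀ n, IntegrableOn (fun y => ‖F n y - v n‖ ^ 2) (G.B 0 1) := fun n =>
    intOn_sq G (hS n).lqg (hF n) (v n)
  have hmF : ∀ n, AEStronglyMeasurable (F n) (volume.restrict (G.B 0 1)) := fun n =>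
    aesm_of_lqLoc G (hS n).lqg
  have hmW : ∀ n, AEStronglyMeasurable (W1 n) (volume.restrict (G.B 0 (1 / 8))) := by
    intro n
    have h1 : AEStronglyMeasurable (F (s1 n)) (volume.restrict (G.B 0 (1 / 8))) :=
      (hmF (s1 n)).mono_measure (Measure.restrict_mono hsub8 le_rfl)
    have h2 : AEStronglyMeasurable (fun y => F (s1 n) y - v (s1 n)) (volume.restrict (G.B 0 (1 / 8))) :=
      h1.sub aestronglyMeasurable_const
    exact h2.const_smul ((ε (s1 n))⁻¹)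
  have hWsq : ∀ n y, ‖W1 n y‖ ^ 2 = (ε (s1 n) ^ 2)⁻¹ * ‖F (s1 n) y - v (s1 n)‖ ^ 2 := by
    intro n y
    simp only [hW1]
    rw [norm_smul, mul_pow, Real.norm_of_nonneg (inv_nonneg.2 (hε _).le), inv_pow]
  have hWint : ∀ n, IntegrableOn (fun y => ‖W1 n y‖ ^ 2) (G.B 0 (1 / 8)) := by
    intro n
    have h1 : IntegrableOn (fun y => (ε (s1 n) ^ 2)⁻¹ * ‖F (s1 n) y - v (s1 n)‖ ^ 2) (G.B 0 (1 / 8)) :=
      ((hint (s1 n)).mono_set hsub8).const_mul _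
    refine h1.congr (Eventually.of_forall fun y => ?_)
    exact (hWsq n y).symm
  have hWmem : ∀ n, MemLp (W1 n) 2 (volume.restrict (G.B 0 (1 / 8))) := fun n =>
    (memLp_two_iff_integrable_sq_norm (hmW n)).2 (hWint n)
  have hWbd : ∀ n, ∫ y in G.B 0 (1 / 8), ‖W1 n y‖ ^ 2 ≤ V1 := by
    intro n
    have h1 : ∫ y in G.B 0 (1 / 8), ‖W1 n y‖ ^ 2 =
        (ε (s1 n) ^ 2)⁻¹ * ∫ y in G.B 0 (1 / 8), ‖F (s1 n) y - v (s1 n)‖ ^ 2 := by
      rw [← integral_const_mul]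
      exact integral_congr_ae (Eventually.of_forall fun y => hWsq n y)
    have h2 : ∫ y in G.B 0 (1 / 8), ‖F (s1 n) y - v (s1 n)‖ ^ 2 ≤
        ∫ y in G.B 0 1, ‖F (s1 n) y - v (s1 n)‖ ^ 2 := by
      refine setIntegral_mono_set (hint (s1 n)) ?_ (Eventually.of_forall hsub8)
      exact Eventually.of_forall fun y => by positivity
    have h3 := hE (s1 n)
    unfold av at h3
    have h4 : ∫ y in G.B 0 1, ‖F (s1 n) y - v (s1 n)‖ ^ 2 = V1 * ε (s1 n) ^ 2 := by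
      rw [← h3, ← mul_assoc, mul_inv_cancel₀ hV1.ne', one_mul]
    have hε2 : 0 < ε (s1 n) ^ 2 := pow_pos (hε _) 2
    rw [h1]
    calc (ε (s1 n) ^ 2)⁻¹ * ∫ y in G.B 0 (1 / 8), ‖F (s1 n) y - v (s1 n)‖ ^ 2
        ≤ (ε (s1 n) ^ 2)⁻¹ * (V1 * ε (s1 n) ^ 2) := by
          rw [← h4]; exact mul_le_mul_of_nonneg_left h2 (by positivity)
      _ = V1 := by rw [mul_comm V1, ← mul_assoc, inv_mul_cancel₀ hε2.ne', one_mul]
  -- the equation
  have hWeq : ∀ n, ∀ φ : Pt N → ℝ, Test (G.B 0 (1 / 8)) φ →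
      ∫ x, inner ℝ (Bl (A' (s1 n)) (v (s1 n)) (ε (s1 n)) (W1 n x)) (G.grad φ x) = 0 := by
    intro n φ hφ
    have hφ1 : Test (G.B 0 1) φ := ⟨hφ.smooth, hφ.cpt, hφ.sub.trans hsub8⟩
    obtain ⟨Wt', hWt, -, hAA⟩ := hA (s1 n)
    have hcA : Continuous (A (s1 n)) := AA.continuous ha hb (by linarith) hWt hAA
    have h1 := (Sol.sub_const hO1 hcA (hS (s1 n)) (hF (s1 n)) (A (s1 n) (v (s1 n)))).eqn φ hφ1
    have h2 : ∫ x, inner ℝ (Bl (A' (s1 n)) (v (s1 n)) (ε (s1 n)) (W1 n x)) (G.grad φ x) =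
        ∫ x, (ε (s1 n))⁻¹ * inner ℝ (A (s1 n) (F (s1 n) x) - A (s1 n) (v (s1 n))) (G.grad φ x) := by
      refine integral_congr_ae ?_
      filter_upwards [hF (s1 n)] with x hx
      by_cases hxs : x ∈ G.B 0 1
      · have h3 : v (s1 n) + ε (s1 n) • W1 n x = F (s1 n) x := by
          simp only [hW1]
          rw [smul_smul, mul_inv_cancel₀ (hε _).ne', one_smul]
          abel
        unfold Bl
        rw [h3, hEq _ _ ((hx hxs).trans (by norm_num)), hEq _ _ (hv2 _), real_inner_smul_left]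
      · have h4 : G.grad φ x = 0 := by
          ext k
          have h5 := (G.test_X (Ω := tsupport φ) ⟨hφ.smooth, hφ.cpt, le_rfl⟩ k).sub
          have h6 : G.X k φ x = 0 :=
            image_eq_zero_of_notMem_tsupport fun h => hxs (hφ1.sub (h5 h))
          exact h6
        rw [h4, inner_zero_right, inner_zero_right, mul_zero]
    rw [h2, integral_const_mul, h1, mul_zero]
  have hε1 : Tendsto (fun n => ε (s1 n)) atTop (𝓝 0) := hε0.comp hs1.tendsto_atTop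
  -- the limit map
  obtain ⟨s2, hs2, B, hB, hBl⟩ := map_lim hc0 hC (fun n => A' (s1 n)) (fun n => hTr (s1 n))
    (fun n => v (s1 n)) (fun n => hv (s1 n)) (fun n => ε (s1 n)) (fun n => hε (s1 n)) hε1
  -- the weak limit
  obtain ⟨s3, hs3, W', hW'm, hwk⟩ := weak_seq (S := G.B 0 (1 / 8)) (fun n => W1 (s2 n)) (M := V1)
    (fun n => hWmem (s2 n)) (fun n => hWbd (s2 n))
  set t : ℕ → ℕ := fun n => s2 (s3 n) with ht
  have htm : StrictMono t := hs2.comp hs3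
  have hunif' : TendstoUniformlyOn (fun n => w (t n)) w' atTop (G.B 0 (1 / 8)) := by
    intro e he
    exact htm.tendsto_atTop.eventually (hunif e he)
  have hHW' : HW G 2 (G.B 0 (1 / 8)) w' W' :=
    wk_hw hO8 (w := fun n => w (t n)) (W := fun n => W1 (t n)) (fun n => hHW (t n)) hunif' hW'm hwk
  have hW'bd : ∫ y in G.B 0 (1 / 8), ‖W' y‖ ^ 2 ≤ V1 :=
    wk_lsc (W := fun n => W1 (t n)) (fun n => hWmem (t n)) (fun n => hWbd (t n)) hW'm hwk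
  have hW'int : IntegrableOn (fun y => ‖W' y‖ ^ 2) (G.B 0 (1 / 8)) :=
    (memLp_two_iff_integrable_sq_norm hW'm.1).1 hW'm
  have hBl' : ∀ ξ, Tendsto (fun n => Bl (A' (s1 (t n))) (v (s1 (t n))) (ε (s1 (t n))) ξ) atTop (𝓝 (B ξ)) :=
    fun ξ => (hBl ξ).comp hs3.tendsto_atTop
  have hε2 : Tendsto (fun n => ε (s1 (t n))) atTop (𝓝 0) := hε1.comp htm.tendsto_atTop
  have hstrong := strong G hc0 hc hC (show (1 : ℝ) / 16 < 1 / 8 by norm_num) (fun n => A' (s1 (t n)))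
    (fun n => hTr _) (fun n => v (s1 (t n))) (fun n => hv _) (fun n => ε (s1 (t n))) (fun n => hε _)
    hε2 hBl' (w := fun n => w (t n)) (w' := w') (W := fun n => W1 (t n)) (W' := W')
    (fun n => hHW (t n)) hunif' (fun n => hWmem (t n)) (fun n => hWbd (t n)) (fun n => hWeq (t n))
    hHW' hW'm hwk
  have hBc : Continuous B := by
    have h1 : LipschitzWith (Real.toNNReal C) B := by
      refine LipschitzWith.of_dist_le_mul fun x y => ?_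
      rw [Real.coe_toNNReal _ hC.le, dist_eq_norm, dist_eq_norm]
      exact hB.lip x y
    exact h1.continuous
  have hres : volume.restrict (G.B (0 : Pt N) (1 / 16)) ≤ volume.restrict (G.B 0 (1 / 8)) :=
    Measure.restrict_mono hsub16 le_rfl
  have hSol := lim_eq G hc0 hc hC (r' := 1 / 16) (fun n => A' (s1 (t n)))
    (fun n => hTr _) (fun n => v (s1 (t n))) (fun n => hv _) (fun n => ε (s1 (t n))) (fun n => hε _)
    hε2 hBc hBl' (w' := w') (W := fun n => W1 (t n)) (W' := W')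
    (fun n => (hWmem (t n)).mono_measure hres)
    (fun n φ hφ => hWeq (t n) φ ⟨hφ.smooth, hφ.cpt, hφ.sub.trans hsub16⟩)
    (hHW'.mono hsub16) (hW'm.mono_measure hres) hstrong
  -- regularity of the limit
  obtain ⟨X, hX1, hX2, hX3⟩ := huu 0 (1 / 16) (by norm_num) B hB w' W' hSol (hW'int.mono_set hsub16)
  have hI : ((1 : ℝ) / 16)⁻¹ ^ G.Q * ∫ z in G.B 0 (1 / 16), ‖W' z‖ ^ 2 ≤ (16 : ℝ) ^ G.Q * V1 := by
    have h1 : ∫ z in G.B 0 (1 / 16), ‖W' z‖ ^ 2 ≤ ∫ z in G.B 0 (1 / 8), ‖W' z‖ ^ 2 := by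
      refine setIntegral_mono_set hW'int ?_ (Eventually.of_forall hsub16)
      exact Eventually.of_forall fun y => by positivity
    have h2 : ((1 : ℝ) / 16)⁻¹ = 16 := by norm_num
    rw [h2]
    exact mul_le_mul_of_nonneg_left (h1.trans hW'bd) (by positivity)
  have hI0 : 0 ≤ ((1 : ℝ) / 16)⁻¹ ^ G.Q * ∫ z in G.B 0 (1 / 16), ‖W' z‖ ^ 2 := by
    have : 0 ≤ ∫ z in G.B 0 (1 / 16), ‖W' z‖ ^ 2 := integral_nonneg fun _ => by positivity
    positivity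
  have h032 : (0 : Pt N) ∈ G.B 0 (1 / 16 / 2) := mem_B_self G 0 (by norm_num)
  have hξ : ‖X 0‖ ≤ K0 := by
    have h1 := hX2 0 h032
    have h2 : ‖X 0‖ ^ 2 ≤ K0 ^ 2 := by
      rw [hK0sq, hM1def]
      exact h1.trans (mul_le_mul_of_nonneg_left hI hCu.le)
    exact le_of_sq_le_sq h2 hK0.le
  refine ⟨fun n => s1 (t n), hs1.comp htm, fun n => κ (t n) + ε (s1 (t n)) * w' 0, X 0, ?_, ?_⟩
  · have : 0 < K0 * 96 ^ β * 2 := by positivity
    linarith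
  intro θ hθ hθ1 δ hδ
  have hsubθ : G.B (0 : Pt N) (3 * (2 * θ)) ⊆ G.B 0 (1 / 16 / 2) := B_mono G (by linarith)
  have hsubθ8 : G.B (0 : Pt N) (3 * (2 * θ)) ⊆ G.B 0 (1 / 8) := B_mono G (by linarith)
  have hsub2θ : G.B (0 : Pt N) (2 * θ) ⊆ G.B 0 (1 / 8) := B_mono G (by linarith)
  have hclose : ∀ᵐ y, y ∈ G.B 0 (3 * (2 * θ)) → ‖W' y - X 0‖ ≤ K0 * (96 * θ) ^ β := by
    filter_upwards [hX1] with y hy hyB
    have hy32 := hsubθ hyB
    rw [hy hy32]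
    have h1 := hX3 y hy32 0 h032
    have hd : G.di y 0 ≤ 6 * θ := by
      have h2 := G.mem_B.1 hyB
      rw [G.di_comm] at h2
      linarith
    have hd0 : 0 ≤ G.di y 0 := G.ell_nonneg _
    have h3 : (G.di y 0 / (1 / 16)) ^ (2 * β) ≤ (96 * θ) ^ (2 * β) := by
      refine Real.rpow_le_rpow (by positivity) ?_ (by positivity)
      rw [div_le_iff₀ (by norm_num)]
      linarith
    have h4 : ‖X y - X 0‖ ^ 2 ≤ (K0 * (96 * θ) ^ β) ^ 2 := by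
      rw [mul_pow, hK0sq, ← Real.rpow_natCast ((96 * θ) ^ β) 2, ← Real.rpow_mul (by positivity)]
      have e1 : β * ((2 : ℕ) : ℝ) = 2 * β := by push_cast; ring
      rw [e1, hM1def]
      calc ‖X y - X 0‖ ^ 2 ≤ Cu * (G.di y 0 / (1 / 16)) ^ (2 * β) *
            (((1 : ℝ) / 16)⁻¹ ^ G.Q * ∫ z in G.B 0 (1 / 16), ‖W' z‖ ^ 2) := h1
        _ ≤ Cu * (96 * θ) ^ (2 * β) * ((16 : ℝ) ^ G.Q * V1) := by gcongr
        _ = Cu * ((16 : ℝ) ^ G.Q * V1) * (96 * θ) ^ (2 * β) := by ring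
    exact le_of_sq_le_sq h4 (by positivity)
  have hexp := expand G (ρ := 2 * θ) (by positivity) (by positivity) hw'c (hHW'.mono hsubθ8) hclose
  have hev := Metric.tendstoUniformlyOn_iff.1 hunif' δ hδ
  filter_upwards [hev] with n hn
  filter_upwards [hae (t n)] with y hy hyB
  have hy8 := hsub2θ hyB
  have h1 := hy hy8
  have h2 := hn y hy8
  rw [Real.dist_eq, abs_sub_comm] at h2
  have h3 := hexp y hyB
  have hεn := hε (s1 (t n))
  have h4 : u (s1 (t n)) y - (∑ k, v (s1 (t n)) k * y (G.hor k)) - κ (t n) = ε (s1 (t n)) * w (t n) y := by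
    rw [h1, ← mul_assoc, mul_inv_cancel₀ hεn.ne', one_mul]
  have h5 : ∑ k, (v (s1 (t n)) + ε (s1 (t n)) • X 0) k * y (G.hor k) =
      (∑ k, v (s1 (t n)) k * y (G.hor k)) + ε (s1 (t n)) * ∑ k, X 0 k * y (G.hor k) := by
    rw [Finset.mul_sum, ← Finset.sum_add_distrib]
    refine Finset.sum_congr rfl fun k _ => ?_
    simp only [PiLp.add_apply, PiLp.smul_apply, smul_eq_mul]
    ring
  have h6 : u (s1 (t n)) y - (∑ k, (v (s1 (t n)) + ε (s1 (t n)) • X 0) k * y (G.hor k)) -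
      (κ (t n) + ε (s1 (t n)) * w' 0) =
      ε (s1 (t n)) * ((w (t n) y - w' y) + (w' y - w' 0 - ∑ k, X 0 k * y (G.hor k))) := by
    rw [h5]
    linear_combination h4
  rw [h6, abs_mul, abs_of_pos hεn]
  refine mul_le_mul_of_nonneg_left ?_ hεn.le
  have h7 : K0 * (96 * θ) ^ β * (2 * θ) = K0 * 96 ^ β * 2 * θ ^ (1 + β) := by
    rw [Real.mul_rpow (by norm_num) hθ.le, Real.rpow_add hθ, Real.rpow_one]
    ring
  have h8 : 0 ≤ K0 * θ ^ (1 + β) := by positivity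
  calc |(w (t n) y - w' y) + (w' y - w' 0 - ∑ k, X 0 k * y (G.hor k))|
      ≤ |w (t n) y - w' y| + |w' y - w' 0 - ∑ k, X 0 k * y (G.hor k)| := abs_add_le _ _
    _ ≤ δ + K0 * (96 * θ) ^ β * (2 * θ) := add_le_add h2.le h3
    _ ≤ (K0 * 96 ^ β * 2 + K0) * θ ^ (1 + β) + δ := by rw [h7]; linarith

end Pool.Agent.CG.K
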