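import Pool.Agent.CG.F.Basic
import Pool.Agent.CG.F.Trunc

/-!
# CG-K-Map: truncated structure functions and blow-up maps

PLAN.  `exists_tr`: `exists_trunc` with `k = 2`: `A' ∈ AA (fun t => c' * W (min t 2)) L'`.  For `M = max ‖ξ‖ ‖ζ‖ ≥ c0 / 8` put
`t = min M 2 ∈ [min (c0 / 8) 2, 2]`; `W 1 = 1` and `Wt` bound `W t` from both sides: for `t ≤ 1`
`t ^ b ≤ W t ≤ t ^ (-a)` (`hW.hi t 1`, `wt_back`), for `1 ≤ t ≤ 2` `2 ^ (-a) ≤ W t ≤ 2 ^ b` (`hW.lo 1 t`, `hW.hi 1 t`).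
Continuity: `AA.continuous` with `wt_min`; `mono0`: `AA.mono` (the weight is positive if `M > 0`; `M = 0` means `ξ = ζ = 0`).
The constants depend on `a, b, L, c0` only.
`Bl A v ε ξ = ε⁻¹ • (A (v + ε • ξ) - A v)`; `Bl ξ - Bl ζ = ε⁻¹ • (A (v + ε ξ) - A (v + ε ζ))` and
`ξ - ζ = ε⁻¹ • ((v + ε ξ) - (v + ε ζ))`, so monotonicity and the Lipschitz bounds are those of `A` at the points
`v + ε ξ`, `v + ε ζ`.  `bl_bd`, `bl_coer`: `ζ = 0`, `‖v‖ ≥ c0`.  `bl_lip`, `bl_mono`: `‖v + ε ξ‖ ≥ c0 - c0 / 2`.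
`bl_all`: if `ε ‖ζ‖ ≤ c0 / 2` use `bl_mono`; if `max ‖v + ε ξ‖ ‖v + ε ζ‖ ≥ c0 / 8` use `mono`; otherwise
`ε ‖ξ - ζ‖ ≤ c0 / 4 ≤ ε ‖ζ‖`, so `‖ξ - ζ‖² ≤ ‖ζ‖²`, and `mono0`.
-/

set_option autoImplicit false

namespace Pool.Agent.CG.K

open MeasureTheory Set Filter Topology
open scoped ContDiff ENNReal

variable {m : ℕ}

/-- Truncated structure functions, with constants away from the origin. -/
structure Tr (c0 c C : ℝ) (A : Hv m → Hv m) : Prop where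
  cont : Continuous A
  mono0 : ∀ ξ ζ, 0 ≤ inner ℝ (A ξ - A ζ) (ξ - ζ)
  mono : ∀ ξ ζ, c0 / 8 ≤ max ‖ξ‖ ‖ζ‖ → c * ‖ξ - ζ‖ ^ 2 ≤ inner ℝ (A ξ - A ζ) (ξ - ζ)
  lip : ∀ ξ ζ, c0 / 8 ≤ max ‖ξ‖ ‖ζ‖ → ‖A ξ - A ζ‖ ≤ C * ‖ξ - ζ‖

/-- Blow-up maps. -/
noncomputable def Bl (A : Hv m → Hv m) (v : Hv m) (ε : ℝ) (ξ : Hv m) : Hv m :=
  ε⁻¹ • (A (v + ε • ξ) - A v)

private theorem w_bounds {a b : ℝ} (ha0 : 0 ≤ a) (hb : 0 ≤ b) {W : ℝ → ℝ} (hW : Wt a b W)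
    (hW1 : W 1 = 1) {s : ℝ} (hs : 0 < s) {t : ℝ} (hst : s ≤ t) (ht2 : t ≤ 2) :
    min (s ^ b) ((2 : ℝ) ^ (-a)) ≤ W t ∧ W t ≤ max ((1 / s) ^ a) ((2 : ℝ) ^ b) := by
  have ht : 0 < t := hs.trans_le hst
  rcases le_total t 1 with h | h
  · constructor
    · refine (min_le_left _ _).trans ?_
      have h1 := hW.hi t 1 ht h
      rw [hW1, Real.div_rpow zero_le_one ht.le, Real.one_rpow, one_div] at h1
      have h3 : 0 < t ^ b := Real.rpow_pos_of_pos ht b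
      have h4 := mul_le_mul_of_nonneg_left h1 h3.le
      rw [mul_one, ← mul_assoc, mul_inv_cancel₀ h3.ne', one_mul] at h4
      exact (Real.rpow_le_rpow hs.le hst hb).trans h4
    · refine le_trans ?_ (le_max_left _ _)
      have h1 := wt_back hW ht h
      rw [hW1, mul_one] at h1
      refine h1.trans (Real.rpow_le_rpow (by positivity) ?_ ha0)
      gcongr
  · constructor
    · refine (min_le_right _ _).trans ?_
      have h1 := hW.lo 1 t one_pos h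
      rw [hW1, mul_one, div_one] at h1
      exact (Real.rpow_le_rpow_of_nonpos ht ht2 (by linarith)).trans h1
    · refine le_trans ?_ (le_max_right _ _)
      have h1 := hW.hi 1 t one_pos h
      rw [hW1, mul_one, div_one] at h1
      exact h1.trans (Real.rpow_le_rpow ht.le ht2 hb)

theorem exists_tr {a b L : ℝ} (ha0 : 0 ≤ a) (ha : a < 1) (hb : 0 ≤ b) (hL : 1 ≤ L) {c0 : ℝ}
    (hc0 : 0 < c0) : ∃ c : ℝ, 0 < c ∧ ∃ C : ℝ, 0 < C ∧ ∀ A : Hv m → Hv m, Nrm a b L A →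
    ∃ A' : Hv m → Hv m, Tr c0 c C A' ∧ ∀ ξ, ‖ξ‖ ≤ 2 → A' ξ = A ξ := by
  obtain ⟨c', hc', L', hL', h⟩ := exists_trunc (m := m) ha0 ha hb hL
  set s : ℝ := min (c0 / 8) 1 with hs
  have hs0 : 0 < s := lt_min (by positivity) one_pos
  have hs1 : s ≤ 1 := min_le_right _ _
  set wl : ℝ := min (s ^ b) ((2 : ℝ) ^ (-a)) with hwl
  set wh : ℝ := max ((1 / s) ^ a) ((2 : ℝ) ^ b) with hwh
  have hwl0 : 0 < wl := lt_min (Real.rpow_pos_of_pos hs0 _) (Real.rpow_pos_of_pos two_pos _)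
  have hwh0 : 0 < wh := lt_max_of_lt_right (Real.rpow_pos_of_pos two_pos _)
  have hL0 : 0 < L' := by linarith
  refine ⟨c' * wl, mul_pos hc' hwl0, L' * (c' * wh), by positivity, ?_⟩
  rintro A ⟨W, hW, hW1, hA⟩
  obtain ⟨A', hA', hAA⟩ := h W A 2 two_pos hW hA
  have hW' : Wt a b (fun t => c' * W (min t 2)) := wt_min ha0 hb hW hc' two_pos
  refine ⟨A', ⟨hA'.continuous ha hb hL0.le hW', ?_, ?_, ?_⟩, hAA⟩
  · intro ξ ζ
    refine le_trans ?_ (hA'.mono ξ ζ)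
    rcases (le_max_of_le_left (norm_nonneg ξ) : 0 ≤ max ‖ξ‖ ‖ζ‖).eq_or_lt with h | h
    · have h1 : ‖ξ‖ ≤ 0 := h ▸ le_max_left _ _
      have h2 : ‖ζ‖ ≤ 0 := h ▸ le_max_right _ _
      rw [norm_le_zero_iff.1 h1, norm_le_zero_iff.1 h2, sub_self, norm_zero]
      simp
    · exact mul_nonneg (hW'.pos _ h).le (by positivity)
  · intro ξ ζ hM
    refine le_trans ?_ (hA'.mono ξ ζ)
    have h1 := (w_bounds ha0 hb hW hW1 hs0 (t := min (max ‖ξ‖ ‖ζ‖) 2)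
      (le_min ((min_le_left _ _).trans hM) (hs1.trans one_le_two)) (min_le_right _ _)).1
    gcongr
  · intro ξ ζ hM
    refine (hA'.lip ξ ζ).trans ?_
    have h1 := (w_bounds ha0 hb hW hW1 hs0 (t := min (max ‖ξ‖ ‖ζ‖) 2)
      (le_min ((min_le_left _ _).trans hM) (hs1.trans one_le_two)) (min_le_right _ _)).2
    gcongr

variable {c0 c C ε : ℝ} {A : Hv m → Hv m} {v : Hv m}

private theorem bl_sub (ξ ζ : Hv m) :
    Bl A v ε ξ - Bl A v ε ζ = ε⁻¹ • (A (v + ε • ξ) - A (v + ε • ζ)) := by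
  unfold Bl
  rw [← smul_sub, sub_sub_sub_cancel_right]

private theorem arg_sub (hε : 0 < ε) (ξ ζ : Hv m) :
    ξ - ζ = ε⁻¹ • ((v + ε • ξ) - (v + ε • ζ)) := by
  rw [add_sub_add_left_eq_sub, ← smul_sub, smul_smul, inv_mul_cancel₀ hε.ne', one_smul]

private theorem arg_norm (hε : 0 < ε) (ξ ζ : Hv m) :
    ‖(v + ε • ξ) - (v + ε • ζ)‖ = ε * ‖ξ - ζ‖ := by
  rw [add_sub_add_left_eq_sub, ← smul_sub, norm_smul, Real.norm_of_nonneg hε.le]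

private theorem bl_inner (hε : 0 < ε) (ξ ζ : Hv m) :
    (inner ℝ (Bl A v ε ξ - Bl A v ε ζ) (ξ - ζ) : ℝ) = ε⁻¹ * (ε⁻¹ *
      inner ℝ (A (v + ε • ξ) - A (v + ε • ζ)) ((v + ε • ξ) - (v + ε • ζ))) := by
  rw [bl_sub, real_inner_smul_left]
  conv_lhs => rw [arg_sub (v := v) hε ξ ζ, real_inner_smul_right]

/-- monotonicity of the blow-up map from monotonicity of `A` at the corresponding points. -/
private theorem bl_mono_of (hε : 0 < ε) (ξ ζ : Hv m)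
    (h : c * ‖(v + ε • ξ) - (v + ε • ζ)‖ ^ 2 ≤
      inner ℝ (A (v + ε • ξ) - A (v + ε • ζ)) ((v + ε • ξ) - (v + ε • ζ))) :
    c * ‖ξ - ζ‖ ^ 2 ≤ inner ℝ (Bl A v ε ξ - Bl A v ε ζ) (ξ - ζ) := by
  rw [bl_inner hε]
  have h1 := mul_le_mul_of_nonneg_left (mul_le_mul_of_nonneg_left h (inv_pos.2 hε).le)
    (inv_pos.2 hε).le
  refine le_trans (le_of_eq ?_) h1
  rw [arg_norm hε]
  field_simp

private theorem bl_lip_of (hε : 0 < ε) (ξ ζ : Hv m)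
    (h : ‖A (v + ε • ξ) - A (v + ε • ζ)‖ ≤ C * ‖(v + ε • ξ) - (v + ε • ζ)‖) :
    ‖Bl A v ε ξ - Bl A v ε ζ‖ ≤ C * ‖ξ - ζ‖ := by
  rw [bl_sub, norm_smul, Real.norm_of_nonneg (inv_pos.2 hε).le]
  refine (mul_le_mul_of_nonneg_left h (inv_pos.2 hε).le).trans (le_of_eq ?_)
  rw [arg_norm hε]
  field_simp

private theorem norm_big (hc0 : 0 < c0) (hv : c0 ≤ ‖v‖) (hε : 0 < ε) {ξ : Hv m}
    (hξ : ε * ‖ξ‖ ≤ c0 / 2) : c0 / 8 ≤ ‖v + ε • ξ‖ := by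
  have h1 : ‖v‖ ≤ ‖v + ε • ξ‖ + ‖ε • ξ‖ := by
    have := norm_sub_le (v + ε • ξ) (ε • ξ)
    rwa [add_sub_cancel_right] at this
  rw [norm_smul, Real.norm_of_nonneg hε.le] at h1
  linarith

theorem bl_cont (hA : Tr c0 c C A) : Continuous (Bl A v ε) := by
  have h1 : Continuous (fun ξ : Hv m => v + ε • ξ) := by fun_prop
  exact ((hA.cont.comp h1).sub continuous_const).const_smul ε⁻¹

theorem bl_bd (hc0 : 0 < c0) (hA : Tr c0 c C A) (hv : c0 ≤ ‖v‖) (hε : 0 < ε) (ξ : Hv m) :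
    ‖Bl A v ε ξ‖ ≤ C * ‖ξ‖ := by
  have h0 : Bl A v ε 0 = 0 := by
    unfold Bl
    rw [smul_zero, add_zero, sub_self, smul_zero]
  have h1 := bl_lip_of (A := A) (v := v) (C := C) hε ξ 0 (hA.lip _ _ ?_)
  · rwa [h0, sub_zero, sub_zero] at h1
  · refine le_trans ?_ (le_max_right _ _)
    rw [smul_zero, add_zero]
    linarith

theorem bl_lip (hc0 : 0 < c0) (hA : Tr c0 c C A) (hv : c0 ≤ ‖v‖) (hε : 0 < ε) {ξ : Hv m}
    (hξ : ε * ‖ξ‖ ≤ c0 / 2) (ζ : Hv m) : ‖Bl A v ε ζ - Bl A v ε ξ‖ ≤ C * ‖ζ - ξ‖ :=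
  bl_lip_of hε ζ ξ (hA.lip _ _ ((norm_big hc0 hv hε hξ).trans (le_max_right _ _)))

theorem bl_mono (hc0 : 0 < c0) (hA : Tr c0 c C A) (hv : c0 ≤ ‖v‖) (hε : 0 < ε) {ξ : Hv m}
    (hξ : ε * ‖ξ‖ ≤ c0 / 2) (ζ : Hv m) :
    c * ‖ζ - ξ‖ ^ 2 ≤ inner ℝ (Bl A v ε ζ - Bl A v ε ξ) (ζ - ξ) :=
  bl_mono_of hε ζ ξ (hA.mono _ _ ((norm_big hc0 hv hε hξ).trans (le_max_right _ _)))

theorem bl_all (hc0 : 0 < c0) (hc : 0 < c) (hA : Tr c0 c C A) (hv : c0 ≤ ‖v‖) (hε : 0 < ε)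
    (ξ ζ : Hv m) : c * ‖ξ - ζ‖ ^ 2 ≤ inner ℝ (Bl A v ε ξ - Bl A v ε ζ) (ξ - ζ) +
      c * (if c0 / 2 < ε * ‖ζ‖ then ‖ζ‖ ^ 2 else 0) := by
  have hnn : 0 ≤ c * (if c0 / 2 < ε * ‖ζ‖ then ‖ζ‖ ^ 2 else 0) := by
    split_ifs <;> positivity
  rcases le_or_gt (ε * ‖ζ‖) (c0 / 2) with h | h
  · have := bl_mono hc0 hA hv hε h ξ
    linarith
  by_cases hM : c0 / 8 ≤ max ‖v + ε • ξ‖ ‖v + ε • ζ‖
  · have := bl_mono_of (c := c) hε ξ ζ (hA.mono _ _ hM)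
    linarith
  · push Not at hM
    have h1 : ‖v + ε • ξ‖ < c0 / 8 := (le_max_left _ _).trans_lt hM
    have h2 : ‖v + ε • ζ‖ < c0 / 8 := (le_max_right _ _).trans_lt hM
    have h3 : ε * ‖ξ - ζ‖ ≤ c0 / 4 := by
      rw [← arg_norm (v := v) hε]
      have := norm_sub_le (v + ε • ξ) (v + ε • ζ)
      linarith
    have h4 : ‖ξ - ζ‖ ≤ ‖ζ‖ := by
      have : ε * ‖ξ - ζ‖ ≤ ε * ‖ζ‖ := by linarith
      exact le_of_mul_le_mul_left this hε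
    have h5 : 0 ≤ inner ℝ (Bl A v ε ξ - Bl A v ε ζ) (ξ - ζ) := by
      rw [bl_inner hε]
      have := hA.mono0 (v + ε • ξ) (v + ε • ζ)
      have := inv_pos.2 hε
      positivity
    rw [if_pos h]
    have h6 : c * ‖ξ - ζ‖ ^ 2 ≤ c * ‖ζ‖ ^ 2 := by gcongr
    linarith

end Pool.Agent.CG.K
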