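import Pool.Agent.CG.K.Contra

/-!
# CG-K-OneStep: the one-step decay on arbitrary balls
-/

set_option autoImplicit false

namespace Pool.Agent.CG.K

open MeasureTheory Set Filter Topology
open scoped ContDiff ENNReal

variable {N m : ℕ}

private theorem os_qmp (G : Carnot N m) (x : Pt N) {r : ℝ} (hr : 0 < r) :
    Measure.QuasiMeasurePreserving (fun y => G.mul x (G.del r y)) (volume : Measure (Pt N))
      volume := by
  refine (G.mp_left x).quasiMeasurePreserving.comp (g := fun y => G.mul x y) (f := G.del r) ?_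
  refine ⟨(G.continuous_del r).measurable, ?_⟩
  rw [G.map_del hr]
  exact Measure.smul_absolutelyContinuous

private theorem os_mem (G : Carnot N m) (x : Pt N) {ρ r : ℝ} (hρ : 0 < ρ) (y : Pt N) :
    G.mul x (G.del ρ y) ∈ G.B x (ρ * r) ↔ y ∈ G.B 0 r := by
  have h1 := G.preimage_left_B x 0 (ρ * r)
  rw [G.mul_zero] at h1
  have h2 := G.preimage_del_B hρ 0 r
  rw [G.del_zero] at h2
  constructor
  · intro h
    have h3 : G.del ρ y ∈ G.B 0 (ρ * r) := by rw [← h1]; exact h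
    rw [← h2]; exact h3
  · intro h
    have h3 : G.del ρ y ∈ G.B 0 (ρ * r) := by rw [← h2] at h; exact h
    rw [← h1] at h3; exact h3

theorem one_step (G : Carnot N m) {a b L : ℝ} (ha0 : 0 ≤ a) (ha : a < 1) (hb : 0 ≤ b) (hL : 1 ≤ L)
    {c0 : ℝ} (hc0 : 0 < c0) : ∃ β : ℝ, 0 < β ∧ β < 1 ∧ ∃ θ : ℝ, 0 < θ ∧ θ ≤ 1 / 4 ∧
    ∃ e0 : ℝ, 0 < e0 ∧ ∃ C : ℝ, 0 < C ∧ ∀ A : Hv m → Hv m, Nrm a b L A →
    ∀ (x : Pt N) (R : ℝ), 0 < R → ∀ (u : Pt N → ℝ) (F : Pt N → Hv m), Sol G 2 (G.B x R) A u F →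
    (∀ᵐ y, y ∈ G.B x R → ‖F y‖ ≤ 1) → ∀ v : Hv m, c0 ≤ ‖v‖ →
    av G x R (fun y => ‖F y - v‖ ^ 2) ≤ e0 →
    ∃ v' : Hv m, ‖v' - v‖ ^ 2 ≤ C * av G x R (fun y => ‖F y - v‖ ^ 2) ∧
      av G x (θ * R) (fun y => ‖F y - v'‖ ^ 2) ≤ θ ^ (2 * β) * av G x R (fun y => ‖F y - v‖ ^ 2) := by
  obtain ⟨β, hβ, hβ1, θ, hθ, hθ4, e0, he0, C, hC, h⟩ := one_step_unit G ha0 ha hb hL hc0
  refine ⟨β, hβ, hβ1, θ, hθ, hθ4, e0, he0, C, hC, ?_⟩
  intro A hA x R hR u F hS hF v hv hav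
  have hS1 : Sol G 2 (G.B 0 1) A (fun y => R⁻¹ * u (G.mul x (G.del R y)))
      (fun y => F (G.mul x (G.del R y))) := by
    have h1 := (hS.left x).scale hR
    have e : {y | G.del R y ∈ {z | G.mul x z ∈ G.B x R}} = G.B 0 1 := by
      ext y
      have := os_mem G x (r := 1) hR y
      rw [mul_one] at this
      exact this
    rw [e] at h1
    exact h1
  have hF1 : ∀ᵐ y, y ∈ G.B 0 1 → ‖F (G.mul x (G.del R y))‖ ≤ 1 := by
    filter_upwards [(os_qmp G x hR).ae hF] with y hy hyB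
    refine hy ?_
    have := (os_mem G x (r := 1) hR y).2 hyB
    rwa [mul_one] at this
  have e1 : ∀ w : Hv m, av G x R (fun y => ‖F y - w‖ ^ 2) =
      av G 0 1 (fun y => ‖F (G.mul x (G.del R y)) - w‖ ^ 2) := by
    intro w
    have := av_scale G x hR one_pos (fun y => ‖F y - w‖ ^ 2)
    rw [mul_one] at this
    exact this
  have e2 : ∀ w : Hv m, av G x (θ * R) (fun y => ‖F y - w‖ ^ 2) =
      av G 0 θ (fun y => ‖F (G.mul x (G.del R y)) - w‖ ^ 2) := by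
    intro w
    have := av_scale G x hR hθ (fun y => ‖F y - w‖ ^ 2)
    rw [mul_comm R θ] at this
    exact this
  rw [e1] at hav
  obtain ⟨v', h1, h2⟩ := h A hA _ _ hS1 hF1 v hv hav
  refine ⟨v', ?_, ?_⟩
  · rw [e1]; exact h1
  · rw [e1, e2]; exact h2

end Pool.Agent.CG.K
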