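import Pool.Agent.CG.K.Iter

/-!
# CG-K-Point: the limit slope at a point

PLAN.  `V n` from `iter`, `q = θ ^ β < 1`, `s = Real.sqrt E`.  `V n → V∞` (`cauchySeq_of_le_geometric`, complete space) and
`‖V n - V∞‖ ≤ C s q ^ n / (1 - q)` (`dist_le_of_le_geometric_of_tendsto`); `n = 0` gives the first claim.
For `0 < r ≤ R` take `n` with `θ ^ (n + 1) * R < r ≤ θ ^ n * R` (`exists_nat_pow_near_of_lt_one`, applied to `r / R`).
`‖F - V∞‖² ≤ 2 ‖F - V n‖² + 2 ‖V n - V∞‖²`, average over `B x r` (`K.av_mono, av_add, av_const, av_mul`,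
integrability `K.intOn_sq`), `K.av_ball_le` (`(θ ^ n R / r) ^ Q ≤ θ⁻¹ ^ Q`), so
`av_r ‖F - V∞‖² ≤ (2 θ⁻¹ ^ Q + 2 C² / (1 - q)²) q ^ (2 n) E`, and `q ^ (2 n) = (θ ^ n) ^ (2 β) ≤ (r / (θ R)) ^ (2 β)`.
-/

set_option autoImplicit false

namespace Pool.Agent.CG.K

open MeasureTheory Set Filter Topology
open scoped ContDiff ENNReal

variable {N m : ℕ}

/-- Transfer of the decay of the averages of `‖F - W‖²` to a nearby value `V` and a smaller ball. -/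
theorem av_transfer (G : Carnot N m) {x : Pt N} {r ρ : ℝ} (hr : 0 < r) (hrρ : r ≤ ρ)
    {F : Pt N → Hv m} (V W : Hv m)
    (hV : IntegrableOn (fun y => ‖F y - V‖ ^ 2) (G.B x ρ))
    (hW : IntegrableOn (fun y => ‖F y - W‖ ^ 2) (G.B x ρ)) :
    av G x r (fun y => ‖F y - V‖ ^ 2) ≤
      2 * ((ρ / r) ^ G.Q * av G x ρ (fun y => ‖F y - W‖ ^ 2)) + 2 * ‖W - V‖ ^ 2 := by
  have hρ : 0 < ρ := lt_of_lt_of_le hr hrρ
  have hsub : G.B x r ⊆ G.B x ρ := B_mono G hrρ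
  have hVr := hV.mono_set hsub
  have hWr := hW.mono_set hsub
  have h1 : av G x r (fun y => ‖F y - V‖ ^ 2) ≤
      av G x r (fun y => 2 * ‖F y - W‖ ^ 2 + 2 * ‖W - V‖ ^ 2) := by
    refine av_mono G hVr ((hWr.const_mul 2).add (intOn_const G x r _)) ?_
    intro y _
    have h2 : ‖F y - V‖ ≤ ‖F y - W‖ + ‖W - V‖ := norm_sub_le_norm_sub_add_norm_sub _ _ _
    have h3 := norm_nonneg (F y - V)
    nlinarith [sq_nonneg (‖F y - W‖ - ‖W - V‖), norm_nonneg (F y - W), norm_nonneg (W - V)]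
  rw [av_add G (hWr.const_mul 2) (intOn_const G x r _), av_mul, av_const G x hr] at h1
  have h4 := av_ball_le G (x := x) (y := x) hr hρ hsub hW (fun z _ => by positivity)
  linarith

theorem point (G : Carnot N m) {a b L : ℝ} (ha0 : 0 ≤ a) (ha : a < 1) (hb : 0 ≤ b) (hL : 1 ≤ L)
    {c0 : ℝ} (hc0 : 0 < c0) : ∃ β : ℝ, 0 < β ∧ β < 1 ∧ ∃ e0 : ℝ, 0 < e0 ∧ ∃ C : ℝ, 0 < C ∧
    ∀ A : Hv m → Hv m, Nrm a b L A →
    ∀ (x : Pt N) (R : ℝ), 0 < R → ∀ (u : Pt N → ℝ) (F : Pt N → Hv m), Sol G 2 (G.B x R) A u F →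
    (∀ᵐ y, y ∈ G.B x R → ‖F y‖ ≤ 1) → ∀ v : Hv m, c0 ≤ ‖v‖ →
    av G x R (fun y => ‖F y - v‖ ^ 2) ≤ e0 →
    ∃ V : Hv m, ‖V - v‖ ^ 2 ≤ C * av G x R (fun y => ‖F y - v‖ ^ 2) ∧
      ∀ r : ℝ, 0 < r → r ≤ R → av G x r (fun y => ‖F y - V‖ ^ 2) ≤
        C * (r / R) ^ (2 * β) * av G x R (fun y => ‖F y - v‖ ^ 2) := by
  obtain ⟨β, hβ, hβ1, θ, hθ, hθ4, e0, he0, C0, hC0, H⟩ := iter G (m := m) ha0 ha hb hL hc0
  have hθ1 : θ < 1 := by linarith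
  set q : ℝ := θ ^ β with hq
  have hq0 : 0 < q := Real.rpow_pos_of_pos hθ _
  have hq1 : q < 1 := Real.rpow_lt_one hθ.le hθ1 hβ
  have h1q : 0 < 1 - q := by linarith
  set K1 : ℝ := 2 * θ⁻¹ ^ G.Q + 2 * (C0 / (1 - q)) ^ 2 with hK1
  have hK1pos : 0 < K1 := by positivity
  set K0 : ℝ := θ⁻¹ ^ (2 * β) with hK0
  have hK01 : 1 ≤ K0 := Real.one_le_rpow ((one_le_inv₀ hθ).2 hθ1.le) (by positivity)
  have hK0pos : 0 < K0 := lt_of_lt_of_le one_pos hK01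
  refine ⟨β, hβ, hβ1, e0, he0, K0 * K1, by positivity, ?_⟩
  intro A hA x R hR u F hS hF v hv hE
  obtain ⟨Vn, hV0, hVs, hVa⟩ := H A hA x R hR u F hS hF v hv hE
  set E : ℝ := av G x R (fun y => ‖F y - v‖ ^ 2) with hEdef
  have hE0 : 0 ≤ E := av_nonneg G (fun y _ => by positivity)
  set s : ℝ := Real.sqrt E with hs
  have hs0 : 0 ≤ s := Real.sqrt_nonneg _
  have hs2 : s ^ 2 = E := Real.sq_sqrt hE0
  have hdist : ∀ n, dist (Vn n) (Vn (n + 1)) ≤ (C0 * s) * q ^ n := by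
    intro n
    rw [dist_comm, dist_eq_norm]
    calc ‖Vn (n + 1) - Vn n‖ ≤ C0 * q ^ n * s := hVs n
      _ = (C0 * s) * q ^ n := by ring
  obtain ⟨V, hV⟩ := cauchySeq_tendsto_of_complete (cauchySeq_of_le_geometric q (C0 * s) hq1 hdist)
  have hVd : ∀ n, ‖Vn n - V‖ ≤ (C0 * s) * q ^ n / (1 - q) := by
    intro n
    rw [← dist_eq_norm]
    exact dist_le_of_le_geometric_of_tendsto q (C0 * s) hq1 hdist hV n
  have hVd2 : ∀ n, ‖Vn n - V‖ ^ 2 ≤ (C0 / (1 - q)) ^ 2 * (q ^ n) ^ 2 * E := by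
    intro n
    calc ‖Vn n - V‖ ^ 2 ≤ ((C0 * s) * q ^ n / (1 - q)) ^ 2 :=
          pow_le_pow_left₀ (norm_nonneg _) (hVd n) 2
      _ = (C0 / (1 - q)) ^ 2 * (q ^ n) ^ 2 * s ^ 2 := by ring
      _ = (C0 / (1 - q)) ^ 2 * (q ^ n) ^ 2 * E := by rw [hs2]
  refine ⟨V, ?_, ?_⟩
  · have h1 := hVd2 0
    rw [hV0, pow_zero, one_pow, mul_one, norm_sub_rev] at h1
    refine h1.trans ?_
    refine mul_le_mul_of_nonneg_right ?_ hE0
    have h2 : (C0 / (1 - q)) ^ 2 ≤ K1 := by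
      rw [hK1]
      have : 0 < θ⁻¹ ^ G.Q := by positivity
      have : 0 ≤ (C0 / (1 - q)) ^ 2 := by positivity
      linarith
    calc (C0 / (1 - q)) ^ 2 ≤ K1 := h2
      _ = 1 * K1 := (one_mul _).symm
      _ ≤ K0 * K1 := mul_le_mul_of_nonneg_right hK01 hK1pos.le
  · intro r hr hrR
    have hx0 : 0 < r / R := by positivity
    obtain ⟨n, hn1, hn2⟩ := exists_nat_pow_near_of_lt_one hx0 ((div_le_one hR).2 hrR) hθ hθ1
    have hρ : 0 < θ ^ n * R := by positivity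
    have hrρ : r ≤ θ ^ n * R := by rwa [div_le_iff₀ hR] at hn2
    have hρR : θ ^ n * R ≤ R := by
      calc θ ^ n * R ≤ 1 * R := by
            apply mul_le_mul_of_nonneg_right (pow_le_one₀ hθ.le hθ1.le) hR.le
        _ = R := one_mul _
    have hint : ∀ w : Hv m, IntegrableOn (fun y => ‖F y - w‖ ^ 2) (G.B x (θ ^ n * R)) :=
      fun w => (intOn_sq G hS.lqg hF w).mono_set (B_mono G hρR)
    have h1 := av_transfer G hr hrρ V (Vn n) (hint V) (hint (Vn n))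
    have hav0 : 0 ≤ av G x (θ ^ n * R) (fun y => ‖F y - Vn n‖ ^ 2) :=
      av_nonneg G (fun y _ => by positivity)
    have h2 : θ ^ n * R / r ≤ θ⁻¹ := by
      rw [div_le_iff₀ hr]
      rw [lt_div_iff₀ hR] at hn1
      have h3 : θ⁻¹ * (θ ^ (n + 1) * R) ≤ θ⁻¹ * r := mul_le_mul_of_nonneg_left hn1.le (by positivity)
      have h4 : θ⁻¹ * (θ ^ (n + 1) * R) = θ ^ n * R := by
        rw [pow_succ]
        field_simp
      linarith
    have h5 : (θ ^ n * R / r) ^ G.Q ≤ θ⁻¹ ^ G.Q := pow_le_pow_left₀ (by positivity) h2 _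
    have h6 : (θ ^ n * R / r) ^ G.Q * av G x (θ ^ n * R) (fun y => ‖F y - Vn n‖ ^ 2) ≤
        θ⁻¹ ^ G.Q * ((q ^ 2) ^ n * E) :=
      mul_le_mul h5 (hVa n) hav0 (by positivity)
    have h7 := hVd2 n
    have h8 : (q ^ 2) ^ n = (q ^ n) ^ 2 := by rw [← pow_mul, ← pow_mul, mul_comm]
    have h9 : (q ^ n) ^ 2 ≤ K0 * (r / R) ^ (2 * β) := by
      have e1 : (q ^ n) ^ 2 = (θ ^ n) ^ (2 * β) := by
        rw [hq, ← Real.rpow_natCast (θ ^ β) n, ← Real.rpow_mul hθ.le, ← Real.rpow_natCast _ 2,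
          ← Real.rpow_mul hθ.le, ← Real.rpow_natCast θ n, ← Real.rpow_mul hθ.le]
        congr 1
        push_cast
        ring
      have e2 : θ ^ n ≤ θ⁻¹ * (r / R) := by
        have h3 : θ⁻¹ * θ ^ (n + 1) ≤ θ⁻¹ * (r / R) :=
          mul_le_mul_of_nonneg_left hn1.le (by positivity)
        have h4 : θ⁻¹ * θ ^ (n + 1) = θ ^ n := by
          rw [pow_succ]
          field_simp
        linarith
      rw [e1, hK0, ← Real.mul_rpow (by positivity) hx0.le]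
      exact Real.rpow_le_rpow (by positivity) e2 (by positivity)
    rw [h8] at h6
    calc av G x r (fun y => ‖F y - V‖ ^ 2)
        ≤ 2 * ((θ ^ n * R / r) ^ G.Q * av G x (θ ^ n * R) (fun y => ‖F y - Vn n‖ ^ 2))
          + 2 * ‖Vn n - V‖ ^ 2 := h1
      _ ≤ 2 * (θ⁻¹ ^ G.Q * ((q ^ n) ^ 2 * E)) + 2 * ((C0 / (1 - q)) ^ 2 * (q ^ n) ^ 2 * E) := by
          linarith
      _ = K1 * (q ^ n) ^ 2 * E := by rw [hK1]; ring
      _ ≤ K1 * (K0 * (r / R) ^ (2 * β)) * E := by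
          apply mul_le_mul_of_nonneg_right _ hE0
          exact mul_le_mul_of_nonneg_left h9 hK1pos.le
      _ = K0 * K1 * (r / R) ^ (2 * β) * E := by ring

end Pool.Agent.CG.K
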