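import Pool.Agent.CG.K.Av
import Pool.Agent.CG.J.Tst
import Pool.Agent.CG.C.Quasi
import Pool.Agent.CG.F.Basic

/-!
# CG-K-Quasi: `u - affine` is a quasi-solution; Caccioppoli inequality with all of the energy

`quasi`: `dg_of_quasi` with `w y = u y - ∑ k, v k * y (G.hor k) - κ`, `V = F - v`, `H = A F - A v`.
`cacc_full`: the level `0` inequalities for `v` and `-v`; the gradient vanishes a.e. on `{v = 0}`.
-/

set_option autoImplicit false

namespace Pool.Agent.CG.K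

open MeasureTheory Set Filter Topology
open scoped ContDiff ENNReal

variable {N m : ℕ}

/-- The weight is bounded above and below on `[c0, 2]`. -/
private theorem wt_bounds {a b : ℝ} (ha0 : 0 ≤ a) (hb : 0 ≤ b) {c0 : ℝ} (hc0 : 0 < c0) {W : ℝ → ℝ}
    (hW : Wt a b W) (hW1 : W 1 = 1) {t : ℝ} (ht : c0 ≤ t) (ht2 : t ≤ 2) :
    min (c0 ^ b) ((2 : ℝ) ^ (-a)) ≤ W t ∧ W t ≤ max (c0 ^ (-a)) ((2 : ℝ) ^ b) := by
  have ht0 : 0 < t := lt_of_lt_of_le hc0 ht
  rcases le_total t 1 with h | h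
  · have h1 := hW.hi t 1 ht0 h
    have h2 := hW.lo t 1 ht0 h
    rw [hW1] at h1 h2
    have e1 : (1 / t : ℝ) ^ b = (t ^ b)⁻¹ := by
      rw [one_div, Real.inv_rpow ht0.le]
    have e2 : (1 / t : ℝ) ^ (-a) = t ^ a := by
      rw [one_div, Real.inv_rpow ht0.le, Real.rpow_neg ht0.le, inv_inv]
    rw [e1] at h1
    rw [e2] at h2
    have hp : 0 < t ^ b := Real.rpow_pos_of_pos ht0 _
    have hq : 0 < t ^ a := Real.rpow_pos_of_pos ht0 _
    constructor
    · refine (min_le_left _ _).trans ?_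
      have h3 : c0 ^ b ≤ t ^ b := Real.rpow_le_rpow hc0.le ht hb
      have h4 : t ^ b ≤ W t := by
        have := mul_le_mul_of_nonneg_left h1 hp.le
        rwa [mul_one, ← mul_assoc, mul_inv_cancel₀ hp.ne', one_mul] at this
      exact h3.trans h4
    · refine le_trans ?_ (le_max_left _ _)
      have h3 : W t ≤ t ^ (-a) := by
        rw [Real.rpow_neg ht0.le, ← one_div, le_div_iff₀ hq, mul_comm]
        exact h2
      exact h3.trans (Real.rpow_le_rpow_of_nonpos hc0 ht (by linarith))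
  · have h1 := hW.hi 1 t one_pos h
    have h2 := hW.lo 1 t one_pos h
    rw [div_one, hW1, mul_one] at h1 h2
    constructor
    · refine (min_le_right _ _).trans (le_trans ?_ h2)
      exact Real.rpow_le_rpow_of_nonpos ht0 ht2 (by linarith)
    · exact (h1.trans (Real.rpow_le_rpow ht0.le ht2 hb)).trans (le_max_right _ _)

theorem quasi (G : Carnot N m) {a b L : ℝ} (ha0 : 0 ≤ a) (ha : a < 1) (hb : 0 ≤ b) (hL : 1 ≤ L) {c0 : ℝ}
    (hc0 : 0 < c0) : ∃ C1 : ℝ, 0 < C1 ∧ ∀ A : Hv m → Hv m, Nrm a b L A → ∀ Ω : Set (Pt N), IsOpen Ω →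
    ∀ (u : Pt N → ℝ) (F : Pt N → Hv m), Sol G 2 Ω A u F → (∀ᵐ y, y ∈ Ω → ‖F y‖ ≤ 1) →
    ∀ v : Hv m, c0 ≤ ‖v‖ → ‖v‖ ≤ 2 → ∀ κ k0 : ℝ,
    DG G Ω (fun y => u y - (∑ k, v k * y (G.hor k)) - κ) (fun y => F y - v) k0 C1 ∧
    DG G Ω (fun y => -(u y - (∑ k, v k * y (G.hor k)) - κ)) (fun y => -(F y - v)) k0 C1 := by
  have h12 : (1 : ℝ≥0∞) ≤ 2 := by norm_num
  set c : ℝ := min (c0 ^ b) ((2 : ℝ) ^ (-a)) with hc
  set C : ℝ := max (c0 ^ (-a)) ((2 : ℝ) ^ b) with hC
  have hcpos : 0 < c := lt_min (Real.rpow_pos_of_pos hc0 _) (Real.rpow_pos_of_pos two_pos _)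
  have hCpos : 0 < C := lt_max_of_lt_right (Real.rpow_pos_of_pos two_pos _)
  have hL0 : 0 < L := by linarith
  refine ⟨4 * (L * C) ^ 2 / c ^ 2, by positivity, ?_⟩
  intro A hA Ω hΩ u F hS hF v hv1 hv2 κ k0
  obtain ⟨W, hW, hW1, hAA⟩ := hA
  have hcont : Continuous A := hAA.continuous ha hb hL0.le hW
  have hS' := hS.sub_const hΩ hcont hF (A v)
  have hH : LqLoc 2 Ω (fun x => A (F x) - A v) := (comp_bdd hcont hS.lqg hF).sub (LqLoc.const _)
  have hw : HW G 2 Ω (fun y => u y - (∑ k, v k * y (G.hor k)) - κ) (fun y => F y - v) := by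
    have h1 := ((hS.toHW.sub h12 (HW.linear v)).add_const h12 (-κ))
    refine h1.congr hΩ (Eventually.of_forall fun x _ => ?_) (Eventually.of_forall fun x _ => rfl)
    ring
  have hw' : HW G 2 Ω (fun y => -(u y - (∑ k, v k * y (G.hor k)) - κ)) (fun y => -(F y - v)) := by
    have h1 := hw.smul (-1)
    refine h1.congr hΩ (Eventually.of_forall fun x _ => ?_) (Eventually.of_forall fun x _ => ?_)
    · ring
    · rw [neg_one_smul]
  have hbd : ∀ᵐ x, x ∈ Ω → ‖A (F x) - A v‖ ≤ L * C * ‖F x - v‖ ∧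
      c * ‖F x - v‖ ^ 2 ≤ inner ℝ (A (F x) - A v) (F x - v) := by
    filter_upwards [hF] with x hx hxΩ
    have h1 := hx hxΩ
    have hM1 : c0 ≤ max ‖F x‖ ‖v‖ := hv1.trans (le_max_right _ _)
    have hM2 : max ‖F x‖ ‖v‖ ≤ 2 := max_le (by linarith) hv2
    obtain ⟨h3, h4⟩ := wt_bounds ha0 hb hc0 hW hW1 hM1 hM2
    have hn : 0 ≤ ‖F x - v‖ := norm_nonneg _
    constructor
    · refine (hAA.lip (F x) v).trans ?_
      exact mul_le_mul_of_nonneg_right (mul_le_mul_of_nonneg_left h4 hL0.le) hn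
    · refine le_trans ?_ (hAA.mono (F x) v)
      exact mul_le_mul_of_nonneg_right h3 (by positivity)
  constructor
  · refine dg_of_quasi hΩ hcpos (by positivity) hw hH ?_ ?_ hS'.eqn
    · filter_upwards [hbd] with x hx hxΩ _ using (hx hxΩ).1
    · filter_upwards [hbd] with x hx hxΩ _ using (hx hxΩ).2
  · refine dg_of_quasi (H := fun x => -(A (F x) - A v)) hΩ hcpos (by positivity) hw' hH.neg ?_ ?_ ?_
    · filter_upwards [hbd] with x hx hxΩ _
      rw [norm_neg, norm_neg]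
      exact (hx hxΩ).1
    · filter_upwards [hbd] with x hx hxΩ _
      rw [norm_neg, inner_neg_neg]
      exact (hx hxΩ).2
    · intro φ hφ
      have h1 := hS'.eqn φ hφ
      have h2 : (fun x => (inner ℝ (-(A (F x) - A v)) (G.grad φ x) : ℝ)) =
          fun x => -(inner ℝ (A (F x) - A v) (G.grad φ x) : ℝ) := by
        funext x
        rw [inner_neg_left]
      rw [h2, integral_neg, h1, neg_zero]

private theorem int_energy {G : Carnot N m} {Ω : Set (Pt N)} (hΩ : IsOpen Ω) {v : Pt N → ℝ}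
    {V : Pt N → Hv m} (hv : HW G 2 Ω v V) {η : Pt N → ℝ} (hη : Test Ω η) :
    Integrable (fun x => η x ^ 2 * (if 0 < v x then ‖V x‖ ^ 2 else 0)) := by
  have h12 : (1 : ℝ≥0∞) ≤ 2 := by norm_num
  have hK : IsCompact (tsupport η) := hη.cpt
  have hη0 : ∀ x, x ∉ tsupport η → η x = 0 := fun x hx => image_eq_zero_of_notMem_tsupport hx
  have hwW := hv.posPart hΩ h12 0
  have e1 : LqLoc 2 Ω (fun x => η x • (if 0 < v x then V x else 0)) :=
    hwW.lqg.bdd_smul hη.continuous.continuousOn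
  have e2 : MemLp (fun x => η x • (if 0 < v x then V x else 0)) 2 volume :=
    e1.memLp_of_zero hK hη.sub fun x hx => by rw [hη0 x hx, zero_smul]
  have e3 := (memLp_two_iff_integrable_sq_norm e2.aestronglyMeasurable).1 e2
  refine e3.congr (Eventually.of_forall fun x => ?_)
  dsimp only
  rw [norm_smul, mul_pow, Real.norm_eq_abs, sq_abs]
  split_ifs with h
  · rfl
  · simp

private theorem int_level {G : Carnot N m} {Ω : Set (Pt N)} (hΩ : IsOpen Ω) {v : Pt N → ℝ}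
    {V : Pt N → Hv m} (hv : HW G 2 Ω v V) {η : Pt N → ℝ} (hη : Test Ω η) :
    Integrable (fun x => (max (v x - 0) 0) ^ 2 * ‖G.grad η x‖ ^ 2) := by
  have h12 : (1 : ℝ≥0∞) ≤ 2 := by norm_num
  have hK : IsCompact (tsupport η) := hη.cpt
  have hwW := hv.posPart hΩ h12 0
  have e1 : LqLoc 2 Ω (fun x => ‖G.grad η x‖ • max (v x - 0) 0) :=
    hwW.lq.bdd_smul (hη.continuous_grad (G := G)).norm.continuousOn
  have e2 : MemLp (fun x => ‖G.grad η x‖ • max (v x - 0) 0) 2 volume :=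
    e1.memLp_of_zero hK hη.sub fun x hx => by rw [G.grad_eq_zero hx]; simp
  have e3 := e2.integrable_sq
  refine e3.congr (Eventually.of_forall fun x => ?_)
  simp only [smul_eq_mul]
  ring

theorem cacc_full {G : Carnot N m} {Ω : Set (Pt N)} (hΩ : IsOpen Ω) {v : Pt N → ℝ} {V : Pt N → Hv m}
    {C1 : ℝ} (hC1 : 0 ≤ C1) (h1 : ∀ k0 : ℝ, DG G Ω v V k0 C1)
    (h2 : ∀ k0 : ℝ, DG G Ω (fun y => -v y) (fun y => -V y) k0 C1) {η : Pt N → ℝ} (hη : Test Ω η) :
    ∫ x, η x ^ 2 * ‖V x‖ ^ 2 ≤ 2 * C1 * ∫ x, v x ^ 2 * ‖G.grad η x‖ ^ 2 := by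
  have h12 : (1 : ℝ≥0∞) ≤ 2 := by norm_num
  have a1 := (h1 0).cacc 0 le_rfl η hη
  have a2 := (h2 0).cacc 0 le_rfl η hη
  have i1 := int_energy hΩ (h1 0).toHW hη
  have i2 := int_energy hΩ (h2 0).toHW hη
  have j1 := int_level hΩ (h1 0).toHW hη
  have j2 := int_level hΩ (h2 0).toHW hη
  have hz := (h1 0).toHW.zero_on_level hΩ h12 0
  have e1 : ∫ x, η x ^ 2 * ‖V x‖ ^ 2 = (∫ x, η x ^ 2 * (if 0 < v x then ‖V x‖ ^ 2 else 0)) +
      ∫ x, η x ^ 2 * (if 0 < -v x then ‖-V x‖ ^ 2 else 0) := by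
    rw [← integral_add i1 i2]
    refine integral_congr_ae ?_
    filter_upwards [hz] with x hx
    by_cases hxs : x ∈ Ω
    · rcases lt_trichotomy (v x) 0 with h | h | h
      · rw [if_neg (by linarith), if_pos (by linarith), norm_neg]
        ring
      · rw [hx hxs h, h]
        simp
      · rw [if_pos h, if_neg (by linarith)]
        ring
    · rw [hη.eq_zero hxs]
      ring
  have e2 : (∫ x, (max (v x - 0) 0) ^ 2 * ‖G.grad η x‖ ^ 2) +
      (∫ x, (max (-v x - 0) 0) ^ 2 * ‖G.grad η x‖ ^ 2) = ∫ x, v x ^ 2 * ‖G.grad η x‖ ^ 2 := by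
    rw [← integral_add j1 j2]
    refine integral_congr_ae (Eventually.of_forall fun x => ?_)
    dsimp only
    rcases le_total 0 (v x) with h | h
    · rw [max_eq_left (by linarith), max_eq_right (by linarith)]
      ring
    · rw [max_eq_right (by linarith), max_eq_left (by linarith)]
      ring
  have h3 : 0 ≤ ∫ x, v x ^ 2 * ‖G.grad η x‖ ^ 2 := integral_nonneg fun x => by positivity
  rw [e1]
  have h4 : 0 ≤ C1 * ∫ x, v x ^ 2 * ‖G.grad η x‖ ^ 2 := mul_nonneg hC1 h3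
  rw [← e2] at h4 ⊢
  rw [mul_add] at h4 ⊢
  linarith

end Pool.Agent.CG.K
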