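import Pool.Agent.CG.Defs

/-!
# CG-K-WkSeq: weak sequential compactness in `L²` (functions with values in `Hv m`)

PLAN.  Abstract lemma: in a separable real Hilbert space `H` every bounded sequence `x` has a subsequence `s` and a point `y` with
`inner (x (s k)) h → inner y h` for all `h` (`WeakDual.isSeqCompact_closedBall ℝ H 0 R`, applied to
`StrongDual.toWeakDual (InnerProductSpace.toDual ℝ H (x k))`; convergence in `WeakDual` is pointwise
convergence (`WeakDual.eval_continuous` or `tendsto_iff_forall_eval_tendsto`); `y = (InnerProductSpace.toDual ℝ H).symm φ`).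
Apply it to `H = Lp (Hv m) 2 μ`, `μ = volume.restrict S` (separable: `MeasureTheory.Lp.SecondCountableTopology`, or
`Lp.instSeparableSpace`), `x k = (hm k).toLp`, `‖x k‖² = ∫ ‖W k‖²` (`MeasureTheory.L2.inner_def`, `Lp.norm_toLp`,
`MemLp.coeFn_toLp`), `W' = y`, `inner (toLp H) (toLp W) = ∫ inner (H y) (W y)`.
-/
set_option autoImplicit false

namespace Pool.Agent.CG.K

open MeasureTheory Set Filter Topology
open scoped ContDiff ENNReal

variable {N m : ℕ}

private theorem wk_abs {H : Type*} [NormedAddCommGroup H] [InnerProductSpace ℝ H]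
    [CompleteSpace H] [TopologicalSpace.SeparableSpace H] (x : ℕ → H) (R : ℝ)
    (hx : ∀ k, ‖x k‖ ≤ R) :
    ∃ s : ℕ → ℕ, StrictMono s ∧ ∃ y : H,
      ∀ h : H, Tendsto (fun k => inner ℝ h (x (s k))) atTop (𝓝 (inner ℝ h y)) := by
  have hseq := WeakDual.isSeqCompact_closedBall ℝ H (0 : StrongDual ℝ H) R
  let φ : ℕ → WeakDual ℝ H := fun k => StrongDual.toWeakDual (InnerProductSpace.toDual ℝ H (x k))
  have hφ : ∀ k, φ k ∈ WeakDual.toStrongDual ⁻¹' Metric.closedBall (0 : StrongDual ℝ H) R := by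
    intro k
    rw [Set.mem_preimage, mem_closedBall_zero_iff]
    have h1 : WeakDual.toStrongDual (φ k) = InnerProductSpace.toDual ℝ H (x k) := rfl
    rw [h1, LinearIsometryEquiv.norm_map]
    exact hx k
  obtain ⟨ψ, -, s, hs, hlim⟩ := hseq hφ
  refine ⟨s, hs, (InnerProductSpace.toDual ℝ H).symm (WeakDual.toStrongDual ψ), fun h => ?_⟩
  have h1 : Tendsto (fun k => φ (s k) h) atTop (𝓝 (ψ h)) :=
    ((WeakDual.eval_continuous h).tendsto ψ).comp hlim
  have h2 : ∀ k, φ (s k) h = inner ℝ h (x (s k)) := by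
    intro k
    have h3 : φ (s k) h = InnerProductSpace.toDual ℝ H (x (s k)) h := rfl
    rw [h3, InnerProductSpace.toDual_apply_apply, real_inner_comm]
  have h4 : ψ h = inner ℝ h ((InnerProductSpace.toDual ℝ H).symm (WeakDual.toStrongDual ψ)) := by
    rw [real_inner_comm, ← InnerProductSpace.toDual_apply_apply (𝕜 := ℝ),
      LinearIsometryEquiv.apply_symm_apply]
    rfl
  rw [← h4]
  exact h1.congr h2

theorem weak_seq {S : Set (Pt N)} (W : ℕ → Pt N → Hv m) {M : ℝ}
    (hm : ∀ k, MemLp (W k) 2 (volume.restrict S)) (hb : ∀ k, ∫ y in S, ‖W k y‖ ^ 2 ≤ M) :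
    ∃ s : ℕ → ℕ, StrictMono s ∧ ∃ W' : Pt N → Hv m, MemLp W' 2 (volume.restrict S) ∧
      ∀ H : Pt N → Hv m, MemLp H 2 (volume.restrict S) →
        Tendsto (fun k => ∫ y in S, inner ℝ (H y) (W (s k) y)) atTop
          (𝓝 (∫ y in S, inner ℝ (H y) (W' y))) := by
  have h2 : Fact ((2 : ℝ≥0∞) ≠ ⊤) := ⟨by simp⟩
  have hsec : SecondCountableTopology (Lp (Hv m) 2 (volume.restrict S)) := inferInstance
  have key : ∀ (F G : Pt N → Hv m) (hF : MemLp F 2 (volume.restrict S))
      (hG : MemLp G 2 (volume.restrict S)),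
      inner ℝ (hF.toLp F) (hG.toLp G) = ∫ y in S, inner ℝ (F y) (G y) := by
    intro F G hF hG
    rw [L2.inner_def]
    refine integral_congr_ae ?_
    filter_upwards [hF.coeFn_toLp, hG.coeFn_toLp] with y h3 h4
    rw [h3, h4]
  have hnorm : ∀ k, ‖(hm k).toLp (W k)‖ ≤ Real.sqrt M := by
    intro k
    rw [← Real.sqrt_sq (norm_nonneg ((hm k).toLp (W k)))]
    refine Real.sqrt_le_sqrt ?_
    rw [← real_inner_self_eq_norm_sq, key]
    refine le_trans (le_of_eq ?_) (hb k)
    refine integral_congr_ae (Filter.Eventually.of_forall fun y => ?_)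
    exact real_inner_self_eq_norm_sq _
  obtain ⟨s, hs, Y, hY⟩ := wk_abs (fun k => (hm k).toLp (W k)) (Real.sqrt M) hnorm
  refine ⟨s, hs, Y, Lp.memLp Y, fun H hH => ?_⟩
  have h3 := hY (hH.toLp H)
  have h4 : inner ℝ (hH.toLp H) Y = ∫ y in S, inner ℝ (H y) (Y y) := by
    rw [← key H Y hH (Lp.memLp Y), Lp.toLp_coeFn]
  rw [h4] at h3
  refine h3.congr fun k => ?_
  rw [key]

end Pool.Agent.CG.K
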